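import Pool.Agent.Helper10.UV.Tgt
import Pool.Agent.Helper10.Universal2

/-!
Constants and integral generators for a variety, over a field generated by a set of constants.
-/

namespace Pool.Agent.Helper10

open MvPolynomial

section Base

variable {ι β : Type} [Fintype ι] [Fintype β]

theorem dk_pair_le' {k₀ : Type} [Field k₀] [Algebra k₀ ℂ] (b : Torus β) {k₁ : Type} [Field k₁]
    [Algebra k₁ ℂ] [Algebra k₀ k₁] [IsScalarTower k₀ k₁ ℂ]
    (hk₁ : ∀ a : k₁, ∃ r ∈ Algebra.adjoin k₀ (Set.range (fun j => ((b j : ℂˣ) : ℂ))),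
      ∃ s ∈ Algebra.adjoin k₀ (Set.range (fun j => ((b j : ℂˣ) : ℂ))), algebraMap k₁ ℂ a = r / s)
    {V : Set (Torus ι)} (hV : IsIrreducible V)
    (S : Set (MvPolynomial ι k₁))
    (hS : vI V = Ideal.span (MvPolynomial.map (algebraMap k₁ ℂ) '' S)) :
    (dk k₀ (pair b '' V) : ℕ∞) ≤ kr k₀ (Set.range (fun j => ((b j : ℂˣ) : ℂ))) + dm V := by
  obtain ⟨K, _, _, ξ, hξ⟩ := exists_isGeneric hV
  let _ : Algebra k₀ K := ((algebraMap ℂ K).comp (algebraMap k₀ ℂ)).toAlgebra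
  have _ : IsScalarTower k₀ ℂ K := IsScalarTower.of_algebraMap_eq' rfl
  let _ : Algebra k₁ K := ((algebraMap ℂ K).comp (algebraMap k₁ ℂ)).toAlgebra
  have _ : IsScalarTower k₁ ℂ K := IsScalarTower.of_algebraMap_eq' rfl
  have _ : IsScalarTower k₀ k₁ K := IsScalarTower.of_algebraMap_eq' (by
    change (algebraMap ℂ K).comp (algebraMap k₀ ℂ) =
      ((algebraMap ℂ K).comp (algebraMap k₁ ℂ)).comp (algebraMap k₀ k₁)
    rw [IsScalarTower.algebraMap_eq k₀ k₁ ℂ, RingHom.comp_assoc])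
  have h2 := (hξ.pair b).kr_eq k₀ (isIrreducible_pair b hV)
  rw [← h2, range_gpair]
  have h3 := hξ.kr_eq k₁ hV
  rw [dk_eq_dm_of_generated k₁ hV S hS] at h3
  have h4 := kr_union_le_tower (k := k₀) (k₁ := k₁)
    (algebraMap ℂ K '' Set.range (fun j => ((b j : ℂˣ) : ℂ)))
    (Set.range (fun i => ((ξ i : Kˣ) : K))) (by
      intro a
      obtain ⟨r, hr, s, hs, hrs⟩ := hk₁ a
      have h5 : algebraMap k₁ K a = algebraMap ℂ K r / algebraMap ℂ K s := by
        change algebraMap ℂ K (algebraMap k₁ ℂ a) = _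
        rw [hrs, map_div₀]
      have h6 : ∀ r ∈ Algebra.adjoin k₀ (Set.range (fun j => ((b j : ℂˣ) : ℂ))),
          IsAlgebraic (Algebra.adjoin k₀
            (algebraMap ℂ K '' Set.range (fun j => ((b j : ℂˣ) : ℂ)))) (algebraMap ℂ K r) := by
        intro r hr
        have h7 : algebraMap ℂ K r ∈ Algebra.adjoin k₀
            (algebraMap ℂ K '' Set.range (fun j => ((b j : ℂˣ) : ℂ))) := by
          have h8 : (IsScalarTower.toAlgHom k₀ ℂ K) r ∈
              (Algebra.adjoin k₀ (Set.range (fun j => ((b j : ℂˣ) : ℂ)))).map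
                (IsScalarTower.toAlgHom k₀ ℂ K) := ⟨r, hr, rfl⟩
          rw [AlgHom.map_adjoin] at h8
          exact h8
        exact isAlgebraic_algebraMap (⟨_, h7⟩ : Algebra.adjoin k₀
            (algebraMap ℂ K '' Set.range (fun j => ((b j : ℂˣ) : ℂ))))
      rw [h5, div_eq_mul_inv]
      exact (h6 r hr).mul (h6 s hs).inv)
  rw [h3] at h4
  refine h4.trans ?_
  gcongr
  exact kr_map_le (IsScalarTower.toAlgHom k₀ ℂ K) _

theorem kr_le_of_algebraic {k₀ k₁ : Type} [Field k₀] [Field k₁] [Algebra k₀ ℂ] [Algebra k₁ ℂ]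
    [Algebra k₀ k₁] [IsScalarTower k₀ k₁ ℂ] [Algebra.IsAlgebraic k₀ k₁] (S : Set ℂ) :
    kr k₀ S ≤ kr k₁ S := by
  have h1 := kr_union_le_tower (k := k₀) (k₁ := k₁) (K := ℂ) ∅ S (by
    intro a
    have h2 : IsAlgebraic k₀ (algebraMap k₁ ℂ a) :=
      (Algebra.IsAlgebraic.isAlgebraic (R := k₀) a).algebraMap
    exact h2.extendScalars (S := Algebra.adjoin k₀ (∅ : Set ℂ)) (algebraMap k₀ _).injective)
  have h3 : kr k₀ (∅ : Set ℂ) ≤ 0 := by
    have h4 := kr_le_encard (k := k₀) (∅ : Set ℂ)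
    rwa [Set.encard_empty] at h4
  rw [Set.empty_union] at h1
  calc kr k₀ S ≤ kr k₀ (∅ : Set ℂ) + kr k₁ S := h1
    _ ≤ 0 + kr k₁ S := by gcongr
    _ = kr k₁ S := zero_add _

end Base

section Clear

/-- the values of the constants -/
def cst (𝔞 : Set ℂˣ) (a : 𝔞) : ℂ := ((a.1 : ℂˣ) : ℂ)

theorem exists_int_poly (𝔞 : Set ℂˣ) {r : ℂ}
    (hr : r ∈ Algebra.adjoin ℚ ((fun a : ℂˣ => (a : ℂ)) '' 𝔞)) :
    ∃ m : ℤ, m ≠ 0 ∧ ∃ P : MvPolynomial 𝔞 ℤ, aeval (cst 𝔞) P = (m : ℂ) * r := by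
  have h1 : (fun a : ℂˣ => (a : ℂ)) '' 𝔞 = Set.range (cst 𝔞) := by
    rw [Set.image_eq_range]
    rfl
  rw [h1, Algebra.adjoin_range_eq_range_aeval] at hr
  obtain ⟨p, hp⟩ := hr
  have hp' : aeval (cst 𝔞) p = r := hp
  obtain ⟨m, hm, P, hP⟩ := exists_clear p
  refine ⟨m, hm, P, ?_⟩
  have h2 := congrArg (fun p => aeval (cst 𝔞) p) hP
  beta_reduce at h2
  rw [aeval_map_algebraMap, map_mul, aeval_C, hp'] at h2
  rw [h2]
  norm_num

theorem exists_clear_over {𝔞 : Set ℂˣ} {k₀ : Type} [Field k₀] [Algebra k₀ ℂ]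
    (hk₀ : ∀ a : k₀, ∃ r ∈ Algebra.adjoin ℚ ((fun a : ℂˣ => (a : ℂ)) '' 𝔞),
      ∃ s ∈ Algebra.adjoin ℚ ((fun a : ℂˣ => (a : ℂ)) '' 𝔞), algebraMap k₀ ℂ a = r / s)
    {σ : Type} (f : MvPolynomial σ k₀) :
    ∃ (d : MvPolynomial 𝔞 ℤ) (G : MvPolynomial (σ ⊕ 𝔞) ℤ), aeval (cst 𝔞) d ≠ 0 ∧
      ∀ (K : Type) [Field K] [Algebra ℂ K] (z : σ → K),
        aeval (Sum.elim z (fun a => algebraMap ℂ K (cst 𝔞 a)) : σ ⊕ 𝔞 → K) G =
          algebraMap ℂ K (aeval (cst 𝔞) d) *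
            eval₂ ((algebraMap ℂ K).comp (algebraMap k₀ ℂ)) z f := by
  have hren : ∀ (K : Type) [Field K] [Algebra ℂ K] (z : σ → K) (P : MvPolynomial 𝔞 ℤ),
      aeval (Sum.elim z (fun a => algebraMap ℂ K (cst 𝔞 a)) : σ ⊕ 𝔞 → K)
        (rename Sum.inr P) = algebraMap ℂ K (aeval (cst 𝔞) P) := by
    intro K _ _ z P
    rw [aeval_rename]
    have h1 : (Sum.elim z (fun a => algebraMap ℂ K (cst 𝔞 a)) : σ ⊕ 𝔞 → K) ∘ Sum.inr =
        fun a => algebraMap ℂ K (cst 𝔞 a) := rfl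
    rw [h1]
    have h2 : (aeval (fun a => algebraMap ℂ K (cst 𝔞 a)) : MvPolynomial 𝔞 ℤ →ₐ[ℤ] K).toRingHom =
        (algebraMap ℂ K).comp (aeval (cst 𝔞) : MvPolynomial 𝔞 ℤ →ₐ[ℤ] ℂ).toRingHom := by
      apply MvPolynomial.ringHom_ext
      · intro r
        simp
      · intro i
        simp
    exact RingHom.congr_fun h2 P
  induction f using MvPolynomial.induction_on with
  | C a =>
    obtain ⟨r, hr, s, hs, hrs⟩ := hk₀ a
    by_cases hs0 : s = 0
    · refine ⟨1, 0, ?_, ?_⟩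
      · rw [map_one]
        exact one_ne_zero
      · intro K _ _ z
        rw [map_zero, eval₂_C, RingHom.comp_apply, hrs, hs0, div_zero, map_zero, mul_zero]
    · obtain ⟨m, hm, P, hP⟩ := exists_int_poly 𝔞 hr
      obtain ⟨m', hm', P', hP'⟩ := exists_int_poly 𝔞 hs
      refine ⟨C m * P', rename Sum.inr (C m' * P), ?_, ?_⟩
      · rw [map_mul, aeval_C, hP']
        have h1 : (m : ℂ) ≠ 0 := by exact_mod_cast hm
        have h2 : (m' : ℂ) ≠ 0 := by exact_mod_cast hm'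
        simp only [algebraMap_int_eq, eq_intCast]
        exact mul_ne_zero h1 (mul_ne_zero h2 hs0)
      · intro K _ _ z
        rw [hren, eval₂_C, RingHom.comp_apply, hrs, ← map_mul (algebraMap ℂ K)]
        congr 1
        rw [map_mul, map_mul, aeval_C, aeval_C, hP, hP']
        simp only [algebraMap_int_eq, eq_intCast]
        field_simp
  | add p q hp hq =>
    obtain ⟨d₁, G₁, hd₁, h₁⟩ := hp
    obtain ⟨d₂, G₂, hd₂, h₂⟩ := hq
    refine ⟨d₁ * d₂, rename Sum.inr d₂ * G₁ + rename Sum.inr d₁ * G₂, ?_, ?_⟩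
    · rw [map_mul]
      exact mul_ne_zero hd₁ hd₂
    · intro K _ _ z
      rw [map_add, map_mul, map_mul, hren, hren, h₁, h₂, eval₂_add, map_mul, map_mul]
      ring
  | mul_X p r hp =>
    obtain ⟨d, G, hd, h⟩ := hp
    refine ⟨d, G * X (Sum.inl r), hd, ?_⟩
    intro K _ _ z
    rw [map_mul, h, aeval_X, eval₂_mul, eval₂_X, Sum.elim_inl, mul_assoc]

end Clear

section Data

/-- the field of the constants -/
noncomputable abbrev KK (𝔞 : Set ℂˣ) : IntermediateField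
    (IntermediateField.adjoin ℚ ((fun a : ℂˣ => (a : ℂ)) '' 𝔞)) ℂ :=
  algebraicClosure (IntermediateField.adjoin ℚ ((fun a : ℂˣ => (a : ℂ)) '' 𝔞)) ℂ

/-- integral generators, with the constants as variables -/
theorem exists_int_generators_over {𝔞 : Set ℂˣ} {k₀ : Type} [Field k₀] [Algebra k₀ ℂ]
    (hk₀ : ∀ a : k₀, ∃ r ∈ Algebra.adjoin ℚ ((fun a : ℂˣ => (a : ℂ)) '' 𝔞),
      ∃ s ∈ Algebra.adjoin ℚ ((fun a : ℂˣ => (a : ℂ)) '' 𝔞), algebraMap k₀ ℂ a = r / s)
    {σ : Type} [Fintype σ] (S : Set (Torus σ)) :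
    ∃ (α : Type) (_ : Fintype α) (av : α → ℂˣ) (q : ℕ) (G : Fin q → MvPolynomial (σ ⊕ α) ℤ),
      (∀ a, av a ∈ 𝔞) ∧
      (∀ j, ∀ x ∈ S, aeval (Sum.elim (fun i => ((x i : ℂˣ) : ℂ)) (fun a => ((av a : ℂˣ) : ℂ)))
        (G j) = 0) ∧
      ∀ (K : Type) [Field K] [Algebra ℂ K] (z : σ ⊕ α → K),
        (∀ a, z (Sum.inr a) = algebraMap ℂ K ((av a : ℂˣ) : ℂ)) → (∀ j, aeval z (G j) = 0) →
        kr ℂ (Set.range fun i => z (Sum.inl i)) ≤ dk k₀ S := by
  classical
  set I : Ideal (MvPolynomial σ k₀) :=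
    (vI S).comap (MvPolynomial.map (algebraMap k₀ ℂ) : MvPolynomial σ k₀ →+* _) with hI
  obtain ⟨s, hs⟩ : I.FG := IsNoetherian.noetherian I
  choose d G' hd hG' using fun f : MvPolynomial σ k₀ => exists_clear_over hk₀ f
  set A : Finset 𝔞 := s.biUnion fun f => (G' f).vars.toRight with hA
  have hren : ∀ f ∈ s, ∃ g : MvPolynomial (σ ⊕ {a // a ∈ A}) ℤ,
      rename (Sum.map id Subtype.val) g = G' f := by
    intro f hf
    apply exists_rename_eq_of_vars_subset_range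
    · exact Function.Injective.sumMap Function.injective_id Subtype.val_injective
    · rintro (i | a) hv
      · exact ⟨Sum.inl i, rfl⟩
      · refine ⟨Sum.inr ⟨a, ?_⟩, rfl⟩
        rw [hA, Finset.mem_biUnion]
        exact ⟨f, hf, Finset.mem_toRight.mpr hv⟩
  choose! g hg using hren
  refine ⟨{a // a ∈ A}, inferInstance, fun a => a.1.1, s.card, fun j => g (s.equivFin.symm j).1,
    fun a => a.1.2, ?_, ?_⟩
  · intro j x hx
    have h0 := (s.equivFin.symm j).2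
    have h1 : ((s.equivFin.symm j).1 : MvPolynomial σ k₀) ∈ I := by
      rw [← hs]
      exact Ideal.subset_span h0
    have h2 : value x (MvPolynomial.map (algebraMap k₀ ℂ) (s.equivFin.symm j).1) = 0 := h1 x hx
    have h3 := hG' (s.equivFin.symm j).1 ℂ (fun i => ((x i : ℂˣ) : ℂ))
    rw [← hg _ h0, aeval_rename] at h3
    have h4 : (Sum.elim (fun i => ((x i : ℂˣ) : ℂ)) (fun a => algebraMap ℂ ℂ (cst 𝔞 a)) :
        σ ⊕ 𝔞 → ℂ) ∘ Sum.map id Subtype.val =
        (Sum.elim (fun i => ((x i : ℂˣ) : ℂ)) (fun a : {a // a ∈ A} => ((a.1.1 : ℂˣ) : ℂ))) := by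
      funext r
      rcases r with r | r <;> rfl
    rw [h4] at h3
    rw [h3]
    unfold value at h2
    rw [eval_map] at h2
    rw [Algebra.algebraMap_self, RingHom.id_comp, h2, mul_zero]
  · intro K _ _ z hza hz
    let _ : Algebra k₀ K := ((algebraMap ℂ K).comp (algebraMap k₀ ℂ)).toAlgebra
    have _ : IsScalarTower k₀ ℂ K := IsScalarTower.of_algebraMap_eq' rfl
    refine (kr_le_tower (k := k₀) (k₁ := ℂ) (Set.range fun i => z (Sum.inl i))).trans ?_
    set y : σ → K := fun i => z (Sum.inl i) with hy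
    have h1 : ∀ f ∈ I, aeval y f = 0 := by
      have h2 : I ≤ RingHom.ker (aeval y : MvPolynomial σ k₀ →ₐ[k₀] K) := by
        rw [← hs, Ideal.span_le]
        intro f hf
        change aeval y f = 0
        have h3 := hz (s.equivFin ⟨f, hf⟩)
        beta_reduce at h3
        rw [Equiv.symm_apply_apply] at h3
        have h4 := hG' f K y
        rw [← hg f hf, aeval_rename] at h4
        have h5 : (Sum.elim y (fun a => algebraMap ℂ K (cst 𝔞 a)) :
            σ ⊕ 𝔞 → K) ∘ Sum.map id Subtype.val = z := by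
          funext r
          rcases r with r | r
          · rfl
          · exact (hza r).symm
        rw [h5, h3] at h4
        have h6 : algebraMap ℂ K (aeval (cst 𝔞) (d f)) ≠ 0 := by
          rw [Ne, map_eq_zero]
          exact hd f
        rcases mul_eq_zero.mp h4.symm with h7 | h7
        · exact absurd h7 h6
        · exact h7
      exact fun f hf => h2 hf
    set J : Ideal (MvPolynomial σ k₀) := RingHom.ker (aeval y : MvPolynomial σ k₀ →ₐ[k₀] K) with hJ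
    have hIJ : I ≤ J := fun f hf => h1 f hf
    have hJp : J.IsPrime := RingHom.ker_isPrime _
    let f : (MvPolynomial σ k₀ ⧸ J) →ₐ[k₀] K :=
      Ideal.Quotient.liftₐ J (aeval y) (fun F hF => hF)
    have hf : Function.Injective f := by
      rw [injective_iff_map_eq_zero]
      intro a ha
      obtain ⟨F, rfl⟩ := Ideal.Quotient.mk_surjective a
      have ha' : aeval y F = 0 := ha
      rw [Ideal.Quotient.eq_zero_iff_mem]
      exact ha'
    let v : σ → MvPolynomial σ k₀ ⧸ J := fun i => (Ideal.Quotient.mkₐ k₀ J) (X i)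
    have htop : Algebra.adjoin k₀ (Set.range v) = ⊤ := by
      have h1 : Set.range v = (Ideal.Quotient.mkₐ k₀ J) '' (Set.range X) := by
        rw [← Set.range_comp]; rfl
      rw [h1, ← AlgHom.map_adjoin, adjoin_range_X, Algebra.map_top]
      rw [AlgHom.range_eq_top]
      exact Ideal.Quotient.mk_surjective
    have himg : f '' (Set.range v) = Set.range y := by
      rw [← Set.range_comp]
      congr 1
      funext i
      change aeval y (X i) = _
      rw [aeval_X]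
    rw [← himg, kr_image_eq_td (Set.range v) htop f hf]
    have h3 : td k₀ (MvPolynomial σ k₀ ⧸ J) ≤ td k₀ (MvPolynomial σ k₀ ⧸ I) :=
      td_quotient_le_of_le I J hIJ
    unfold dk
    exact_mod_cast h3

/-- the reindexing of the constants -/
def rix {ι α β : Type} (r : (β ⊕ ι) ⊕ α) : ι ⊕ (α ⊕ β) :=
  Sum.elim (Sum.elim (fun b => Sum.inr (Sum.inr b)) Sum.inl) (fun a => Sum.inr (Sum.inl a)) r

theorem exists_data (𝔞 : Set ℂˣ) {ι : Type} [Fintype ι] {V : Set (Torus ι)}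
    (hV : IsSubvariety V) :
    ∃ (α β : Type) (_ : Fintype α) (_ : Fintype β) (av : α → ℂˣ) (bv : β → ℂˣ) (D₀ q : ℕ)
      (G : Fin q → MvPolynomial (ι ⊕ (α ⊕ β)) ℤ),
      (∀ a, av a ∈ 𝔞) ∧
      (∀ x ∈ V, ∀ j, aeval (fun s => ((ev x (FF av bv s) : ℂˣ) : ℂ)) (G j) = 0) ∧
      (∀ (K : Type) [Field K] [Algebra ℂ K] (z : ι ⊕ (α ⊕ β) → K),
        (∀ a, z (Sum.inr (Sum.inl a)) = algebraMap ℂ K ((av a : ℂˣ) : ℂ)) →
        (∀ j, aeval z (G j) = 0) →
        kr ℂ (Set.range fun j : ι ⊕ β =>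
          z (Sum.elim Sum.inl (fun b => Sum.inr (Sum.inr b)) j)) ≤ D₀) ∧
      (D₀ : ℕ∞) ≤ dm V + kr (KK 𝔞) (Set.range fun b => ((bv b : ℂˣ) : ℂ)) := by
  classical
  obtain ⟨gs, hgs⟩ : (vI V).FG := IsNoetherian.noetherian _
  set Cs : Finset ℂ := gs.biUnion fun f => f.support.image f.coeff with hCs
  have hne : ∀ a ∈ Cs, a ≠ 0 := by
    intro a ha
    rw [hCs, Finset.mem_biUnion] at ha
    obtain ⟨f, _, hf⟩ := ha
    rw [Finset.mem_image] at hf
    obtain ⟨α, hα, rfl⟩ := hf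
    exact mem_support_iff.mp hα
  let b : Torus {a // a ∈ Cs} := fun a => Units.mk0 a.1 (hne a.1 a.2)
  let k₀ := IntermediateField.adjoin ℚ ((fun a : ℂˣ => (a : ℂ)) '' 𝔞)
  let k₁ : IntermediateField k₀ ℂ :=
    IntermediateField.adjoin k₀ (Set.range fun j => ((b j : ℂˣ) : ℂ))
  have hk₁ : ∀ a : k₁, ∃ r ∈ Algebra.adjoin k₀ (Set.range (fun j => ((b j : ℂˣ) : ℂ))),
      ∃ s ∈ Algebra.adjoin k₀ (Set.range (fun j => ((b j : ℂˣ) : ℂ))),
        algebraMap k₁ ℂ a = r / s := by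
    rintro ⟨a, ha⟩
    exact IntermediateField.mem_adjoin_iff_div.mp ha
  have hk₀ : ∀ a : k₀, ∃ r ∈ Algebra.adjoin ℚ ((fun a : ℂˣ => (a : ℂ)) '' 𝔞),
      ∃ s ∈ Algebra.adjoin ℚ ((fun a : ℂˣ => (a : ℂ)) '' 𝔞), algebraMap k₀ ℂ a = r / s := by
    rintro ⟨a, ha⟩
    exact IntermediateField.mem_adjoin_iff_div.mp ha
  obtain ⟨α, _, av, q, G, hav, hG0, hG⟩ := exists_int_generators_over hk₀ (pair b '' V)
  refine ⟨α, {a // a ∈ Cs}, inferInstance, inferInstance, av, b, dk k₀ (pair b '' V), q,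
    fun j => rename rix (G j), hav, ?_, ?_, ?_⟩
  · intro x hx j
    rw [aeval_rename, ← hG0 j (pair b x) ⟨x, hx, rfl⟩]
    congr 2
    funext r
    rcases r with (r | r) | r <;> rfl
  · intro K _ _ z hza hz
    have h1 := hG K (z ∘ rix) (fun a => hza a) (fun j => by
      have h2 := hz j
      rw [aeval_rename] at h2
      exact h2)
    refine le_trans (le_of_eq ?_) h1
    congr 1
    ext y
    constructor
    · rintro ⟨r | r, rfl⟩
      · exact ⟨Sum.inr r, rfl⟩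
      · exact ⟨Sum.inl r, rfl⟩
    · rintro ⟨r | r, rfl⟩
      · exact ⟨Sum.inr r, rfl⟩
      · exact ⟨Sum.inl r, rfl⟩
  · have h1 := dk_pair_le' (k₀ := k₀) b hk₁ hV.2
      {g | MvPolynomial.map (algebraMap k₁ ℂ) g ∈ gs} (by
      rw [← hgs]
      congr 1
      ext f
      constructor
      · intro hf
        have h1 : f ∈ Set.range (MvPolynomial.map (algebraMap k₁ ℂ) :
            MvPolynomial ι k₁ →+* MvPolynomial ι ℂ) := by
          rw [mem_range_map_iff_coeffs_subset]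
          intro a ha
          rw [Finset.mem_coe, mem_coeffs_iff] at ha
          obtain ⟨α, hα, rfl⟩ := ha
          have h2 : f.coeff α ∈ Cs := by
            rw [hCs, Finset.mem_biUnion]
            exact ⟨f, hf, Finset.mem_image_of_mem _ hα⟩
          have h3 : f.coeff α ∈ k₁ := IntermediateField.subset_adjoin k₀ _ ⟨⟨_, h2⟩, rfl⟩
          exact ⟨⟨_, h3⟩, rfl⟩
        obtain ⟨g, rfl⟩ := h1
        exact ⟨g, hf, rfl⟩
      · rintro ⟨g, hg, rfl⟩
        exact hg)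
    refine h1.trans ?_
    rw [add_comm]
    gcongr
    exact kr_le_of_algebraic _

end Data

end Pool.Agent.Helper10
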