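import Pool.Agent.Helper10.FormsDefs
import Pool.Agent.Helper10.MG4

/-!
Special subvarieties of products with tori, and the families of products of lines over a
special subvariety.
-/

namespace Pool.Agent.Helper10

open MvPolynomial

/-- A subset of a torus which is defined by polynomials whose coefficients are algebraic over the
field `ℚ(𝔞)` generated by a set `𝔞` of non-zero complex numbers. -/
def IsDefinedOver (𝔞 : Set ℂˣ) {ι : Type} (Z : Set (Torus ι)) : Prop :=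
  ∃ F : Set (MvPolynomial ι ℂ), Z = zeros F ∧ ∀ f ∈ F, ∀ m,
    IsAlgebraic (IntermediateField.adjoin ℚ ((fun a : ℂˣ => (a : ℂ)) '' 𝔞)) (coeff m f)

/-- The properties relating the special subvarieties of `X` (the set `𝒮`) and of `X × 𝔾_m ^ κ`
(the set `𝒮'`). First, `S × H` is special if `S` is special and `H` is a torsion coset. Second,
for special `S'` the closure `S` of its image in `X` is special and there is a closed connected
subgroup `H` of `𝔾_m ^ κ`, such that `dim S' = dim S + dim H` and the fibres of `S'` over the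
points of `X` are finite unions of cosets of `H`. -/
structure IsTorusExtension (X : Variety) (𝒮 : Set (Set X.Pt)) (κ : Type) [Finite κ]
    (𝒮' : Set (Set (X.prodTorus κ).Pt)) : Prop where
  prod : ∀ S ∈ 𝒮, ∀ H : Set (Torus κ), IsTorsionCoset H →
    {p : (X.prodTorus κ).Pt | p.1 ∈ S ∧ p.2 ∈ H} ∈ 𝒮'
  fibre : ∀ S' ∈ 𝒮', closure {x : X.Pt | ∃ t, ((x, t) : (X.prodTorus κ).Pt) ∈ S'} ∈ 𝒮 ∧
    ∃ H : Subgroup (Torus κ), IsClosed (H : Set (Torus κ)) ∧ IsConnected (H : Set (Torus κ)) ∧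
      (X.prodTorus κ).dim S' = X.dim (closure {x : X.Pt | ∃ t,
        ((x, t) : (X.prodTorus κ).Pt) ∈ S'}) + dim (H : Set (Torus κ)) ∧
      ∀ x : X.Pt, ∃ C : Set (Torus κ), C.Finite ∧
        {t : Torus κ | ((x, t) : (X.prodTorus κ).Pt) ∈ S'} = ⋃ g ∈ C, {t | g⁻¹ * t ∈ H}

/-- A class of varieties with special subvarieties defined over the algebraic closure of
`ℚ(𝔞)`, which is closed under products with tori. -/
def IsTorusStable (𝔞 : Set ℂˣ) (𝒞 : (X : Variety) → Set (Set X.Pt) → Prop) : Prop :=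
  ∀ X 𝒮, 𝒞 X 𝒮 → IsSpecialStructure X 𝒮 ∧
    (∀ S ∈ 𝒮, ∀ j, IsDefinedOver 𝔞 (X.chart j '' (S ∩ X.dom j))) ∧
    ∀ (κ : Type) [Finite κ], ∃ 𝒮', 𝒞 (X.prodTorus κ) 𝒮' ∧ IsTorusExtension X 𝒮 κ 𝒮'

/-- The family of products of lines over `T`, for a chart with coordinates `f_l` and constants
`b_i`: the Zariski closure of the set of the points `(x, (y, u))`, with `x` a point of `T` in the
chart and `u_l = y_l + f_l(x)` for all coordinates, `u_i = y_i + b_i` for all constants. -/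
def lineFamily (X : Variety) (T : Set X.Pt) (j : X.Idx) {k : ℕ} (b : Fin k → ℂˣ) :
    Set (X.prodTorus ((X.Coord j ⊕ Fin k) ⊕ (X.Coord j ⊕ Fin k))).Pt :=
  closure {p | p.1 ∈ T ∩ X.dom j ∧
    (∀ l, ((p.2 (Sum.inr (Sum.inl l)) : ℂˣ) : ℂ) =
      ((p.2 (Sum.inl (Sum.inl l)) : ℂˣ) : ℂ) + ((X.chart j p.1 l : ℂˣ) : ℂ)) ∧
    ∀ i, ((p.2 (Sum.inr (Sum.inr i)) : ℂˣ) : ℂ) =
      ((p.2 (Sum.inl (Sum.inr i)) : ℂˣ) : ℂ) + ((b i : ℂˣ) : ℂ)}

/-- The statement Q1 for the families of products of lines over the special subvarieties `T` of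
`X`, for all charts of `X` and all numbers `k` of constants `b_i` in `𝔞`, and all collections
`𝒮'` of special subvarieties of the product of `X` and the torus, as in the class `𝒞`. -/
def LineForm (𝔞 : Set ℂˣ) (𝒞 : (X : Variety) → Set (Set X.Pt) → Prop) (X : Variety)
    (𝒮 : Set (Set X.Pt)) : Prop :=
  ∀ T ∈ 𝒮, ∀ j, (T ∩ X.dom j).Nonempty → ∀ (k : ℕ) (b : Fin k → ℂˣ), (∀ i, b i ∈ 𝔞) →
    ∀ 𝒮', 𝒞 (X.prodTorus ((X.Coord j ⊕ Fin k) ⊕ (X.Coord j ⊕ Fin k))) 𝒮' →
      IsTorusExtension X 𝒮 ((X.Coord j ⊕ Fin k) ⊕ (X.Coord j ⊕ Fin k)) 𝒮' →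
      FiniteForm (X.prodTorus ((X.Coord j ⊕ Fin k) ⊕ (X.Coord j ⊕ Fin k))) 𝒮'
        (lineFamily X T j b) {p | p.1 ∈ T}

end Pool.Agent.Helper10
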