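import Pool.Agent.Helper10.UV.Tgt

/-!
The projection and the fibres of a torsion coset of a product of tori.
-/

namespace Pool.Agent.Helper10

open MvPolynomial

section Lat

variable {ι κ : Type}

/-- extension by zero to the left factor -/
def extL (ι κ : Type) : (ι → ℤ) →ₗ[ℤ] (ι ⊕ κ → ℤ) where
  toFun m := Sum.elim m (0 : κ → ℤ)
  map_add' a b := by
    funext j
    rcases j with j | j
    · rfl
    · exact (add_zero (0 : ℤ)).symm
  map_smul' c a := by
    funext j
    rcases j with j | j
    · rfl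
    · exact (smul_zero c).symm

/-- restriction to the right factor -/
def resR (ι κ : Type) : (ι ⊕ κ → ℤ) →ₗ[ℤ] (κ → ℤ) where
  toFun m := fun i => m (Sum.inr i)
  map_add' _ _ := rfl
  map_smul' _ _ := rfl

theorem finrank_resR_extL [Fintype ι] [Fintype κ] (L : Submodule ℤ (ι ⊕ κ → ℤ)) :
    Module.finrank ℤ (L.map (resR ι κ)) + Module.finrank ℤ (L.comap (extL ι κ)) =
      Module.finrank ℤ L := by
  let f : L →ₗ[ℤ] (κ → ℤ) := (resR ι κ).domRestrict L
  have h1 := finrank_range_add_ker f
  have h2 : LinearMap.range f = L.map (resR ι κ) := by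
    rw [LinearMap.range_domRestrict]
  have h3 : Module.finrank ℤ (LinearMap.ker f) = Module.finrank ℤ (L.comap (extL ι κ)) := by
    apply LinearEquiv.finrank_eq
    refine
      { toFun := fun x => ⟨fun i => x.1.1 (Sum.inl i), ?_⟩
        map_add' := fun _ _ => rfl
        map_smul' := fun _ _ => rfl
        invFun := fun m => ⟨⟨extL ι κ m.1, m.2⟩, rfl⟩
        left_inv := ?_
        right_inv := fun _ => rfl }
    · have hx : ∀ j : κ, x.1.1 (Sum.inr j) = 0 := fun j => congrFun x.2 j
      have h4 : extL ι κ (fun i => x.1.1 (Sum.inl i)) = x.1.1 := by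
        funext j
        rcases j with j | j
        · rfl
        · exact (hx j).symm
      rw [Submodule.mem_comap, h4]
      exact x.1.2
    · intro x
      have hx : ∀ j : κ, x.1.1 (Sum.inr j) = 0 := fun j => congrFun x.2 j
      apply Subtype.ext
      apply Subtype.ext
      funext j
      rcases j with j | j
      · rfl
      · exact (hx j).symm
  rw [h2, h3] at h1
  exact h1

/-- the saturation of a lattice -/
def satur (P : Submodule ℤ (κ → ℤ)) : Submodule ℤ (κ → ℤ) where
  carrier := {m | ∃ k : ℤ, k ≠ 0 ∧ k • m ∈ P}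
  add_mem' := by
    rintro a b ⟨k, hk, ha⟩ ⟨l, hl, hb⟩
    refine ⟨k * l, mul_ne_zero hk hl, ?_⟩
    rw [smul_add]
    apply add_mem
    · rw [mul_comm, mul_smul]
      exact P.smul_mem l ha
    · rw [mul_smul]
      exact P.smul_mem k hb
  zero_mem' := ⟨1, one_ne_zero, by rw [smul_zero]; exact P.zero_mem⟩
  smul_mem' := by
    rintro c a ⟨k, hk, ha⟩
    refine ⟨k, hk, ?_⟩
    rw [smul_comm]
    exact P.smul_mem c ha

theorem le_satur (P : Submodule ℤ (κ → ℤ)) : P ≤ satur P :=
  fun m hm => ⟨1, one_ne_zero, by rwa [one_smul]⟩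

theorem sat_satur (P : Submodule ℤ (κ → ℤ)) : Sat (satur P) := by
  rintro k m hk ⟨l, hl, h⟩
  refine ⟨l * k, mul_ne_zero hl hk, ?_⟩
  rwa [mul_smul]

/-- a multiple of the saturation is contained in the lattice -/
theorem exists_mul_satur [Fintype κ] (P : Submodule ℤ (κ → ℤ)) :
    ∃ N : ℕ, 0 < N ∧ ∀ m ∈ satur P, (N : ℤ) • m ∈ P := by
  obtain ⟨s, hs⟩ := (IsNoetherian.noetherian (satur P) : (satur P).FG)
  have h1 : ∀ m ∈ s, ∃ k : ℤ, k ≠ 0 ∧ k • m ∈ P := fun m hm => by
    have h2 : m ∈ satur P := by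
      rw [← hs]
      exact Submodule.subset_span hm
    exact h2
  choose! k hk hkP using h1
  refine ⟨∏ m ∈ s, (k m).natAbs, Finset.prod_pos fun m hm => Int.natAbs_pos.mpr (hk m hm), ?_⟩
  intro m hm
  rw [← hs] at hm
  induction hm using Submodule.span_induction with
  | mem x hx =>
    have h3 : k x ∣ ((∏ m ∈ s, (k m).natAbs : ℕ) : ℤ) := by
      rw [← Int.natAbs_dvd_natAbs, Int.natAbs_natCast]
      exact Finset.dvd_prod_of_mem (fun m => (k m).natAbs) hx
    obtain ⟨c, hc⟩ := h3
    rw [hc, mul_comm, mul_smul]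
    exact P.smul_mem c (hkP x hx)
  | zero =>
    rw [smul_zero]
    exact P.zero_mem
  | add x y _ _ hx hy =>
    rw [smul_add]
    exact add_mem hx hy
  | smul c x _ hx =>
    rw [smul_comm]
    exact P.smul_mem c hx

theorem finrank_satur [Fintype κ] (P : Submodule ℤ (κ → ℤ)) :
    Module.finrank ℤ (satur P) = Module.finrank ℤ P := by
  apply le_antisymm
  · obtain ⟨N, hN, h⟩ := exists_mul_satur P
    let g : satur P →ₗ[ℤ] P :=
      { toFun := fun m => ⟨(N : ℤ) • m.1, h m.1 m.2⟩
        map_add' := fun a b => Subtype.ext (smul_add _ _ _)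
        map_smul' := fun c a => Subtype.ext (smul_comm _ _ _) }
    apply LinearMap.finrank_le_finrank_of_injective (f := g)
    intro a b hab
    have h1 : (N : ℤ) • a.1 = (N : ℤ) • b.1 := congrArg Subtype.val hab
    apply Subtype.ext
    funext j
    have h2 := congrFun h1 j
    rw [Pi.smul_apply, Pi.smul_apply, smul_eq_mul, smul_eq_mul] at h2
    have h3 : (N : ℤ) ≠ 0 := by exact_mod_cast hN.ne'
    exact mul_left_cancel₀ h3 h2
  · exact Submodule.finrank_mono (le_satur P)

end Lat

section Fib

variable {ι κ : Type} [Fintype ι] [Fintype κ]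

theorem chr_sum_type (m : ι ⊕ κ → ℤ) (z : Torus (ι ⊕ κ)) :
    chr m z = chr (fun a => m (Sum.inl a)) (prl z) * chr (resR ι κ m) (prr z) := by
  unfold chr
  rw [Fintype.prod_sum_type]
  rfl

theorem chr_extL (m : ι → ℤ) (z : Torus (ι ⊕ κ)) : chr (extL ι κ m) z = chr m (prl z) := by
  rw [chr_sum_type]
  have h : resR ι κ (extL ι κ m) = 0 := rfl
  rw [h, chr_zero, mul_one]
  rfl

/-- homomorphisms from a lattice to `ℂˣ` come from points of the torus -/
theorem exists_chr_eq {M : Type} [AddCommGroup M] (f : M →+ (κ → ℤ))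
    (g : M →+ Additive ℂˣ) (hfg : ∀ m, f m = 0 → g m = 0) :
    ∃ t : Torus κ, ∀ m, chr (f m) t = (g m).toMul := by
  classical
  have hroot : ∀ {n : ℤ}, n ≠ 0 → Function.Surjective (fun a : Additive ℂˣ => n • a) := by
    intro n hn c
    obtain ⟨z, hz⟩ := IsAlgClosed.exists_pow_nat_eq ((c.toMul : ℂˣ) : ℂ)
      (Int.natAbs_pos.mpr hn)
    have hz0 : z ≠ 0 := by
      rintro rfl
      rw [zero_pow (Int.natAbs_pos.mpr hn).ne'] at hz
      exact Units.ne_zero _ hz.symm
    have hu : (Units.mk0 z hz0) ^ n.natAbs = c.toMul := by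
      apply Units.ext
      rw [Units.val_pow_eq_pow_val, Units.val_mk0]
      exact hz
    rcases Int.natAbs_eq n with h | h
    · refine ⟨Additive.ofMul (Units.mk0 z hz0), ?_⟩
      change n • Additive.ofMul (Units.mk0 z hz0) = c
      rw [← ofMul_zpow, h, zpow_natCast, hu]
      rfl
    · refine ⟨Additive.ofMul (Units.mk0 z hz0)⁻¹, ?_⟩
      change n • Additive.ofMul (Units.mk0 z hz0)⁻¹ = c
      rw [← ofMul_zpow, h, inv_zpow', neg_neg, zpow_natCast, hu]
      rfl
  let _ : DivisibleBy (Additive ℂˣ) ℤ := divisibleByOfSMulRightSurj (Additive ℂˣ) ℤ hroot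
  -- the injective map on the quotient
  let K : AddSubgroup M := f.ker
  let f' : M ⧸ K →+ (κ → ℤ) := QuotientAddGroup.kerLift f
  have hf' : Function.Injective f' := QuotientAddGroup.kerLift_injective f
  let g' : M ⧸ K →+ Additive ℂˣ := QuotientAddGroup.lift K g (fun m hm => hfg m hm)
  obtain ⟨h, hh⟩ := (Module.Baer.of_divisible (Additive ℂˣ)).extension_property_addMonoidHom
    f' hf' g'
  have hhf : ∀ m, h (f m) = g m := by
    intro m
    have h1 := DFunLike.congr_fun hh (QuotientAddGroup.mk m)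
    exact h1
  refine ⟨fun i => (h (Pi.single i 1)).toMul, ?_⟩
  intro m
  rw [← hhf]
  have h2 : f m = ∑ i, f m i • (Pi.single i 1 : κ → ℤ) := by
    conv_lhs => rw [← Finset.univ_sum_single (f m)]
    refine Finset.sum_congr rfl fun i _ => ?_
    rw [← Pi.single_smul]
    simp
  conv_rhs => rw [h2]
  rw [map_sum, toMul_sum]
  unfold chr
  refine Finset.prod_congr rfl fun i _ => ?_
  rw [map_zsmul, toMul_zsmul]

theorem torsionCoset_projection {S : Set (Torus (ι ⊕ κ))} (hS : IsTorsionCoset S) :
    IsTorsionCoset (prl '' S) ∧ ∃ H : Subgroup (Torus κ), IsClosed (H : Set (Torus κ)) ∧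
      IsConnected (H : Set (Torus κ)) ∧ IsSubvariety (H : Set (Torus κ)) ∧
      dm S = dm (prl '' S) + dm (H : Set (Torus κ)) ∧
      ∀ x : Torus ι, ∃ C : Set (Torus κ), C.Finite ∧
        {t : Torus κ | pair x t ∈ S} = ⋃ g ∈ C, {t | g⁻¹ * t ∈ H} := by
  classical
  obtain ⟨a, ha⟩ := hS.nonempty
  obtain ⟨hSa, htor⟩ := hS.eq_cosetOf ha
  have hmemS : ∀ z, z ∈ S ↔ ∀ m ∈ rel S, chr m z = chr m a := fun z => hS.mem_iff ha z
  set L := rel S with hL
  set L₁ := L.comap (extL ι κ) with hL₁
  set P := L.map (resR ι κ) with hP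
  -- the projection
  have hsat₁ : Sat L₁ := by
    intro k m hk hm
    rw [hL₁, Submodule.mem_comap, map_smul] at hm
    rw [hL₁, Submodule.mem_comap]
    exact sat_rel S k _ hk hm
  have hproj : prl '' S = cosetOf L₁ (prl a) := by
    apply subset_antisymm
    · rintro _ ⟨z, hz, rfl⟩ m hm
      have h1 := (hmemS z).mp hz _ hm
      rwa [chr_extL, chr_extL] at h1
    · intro x hx
      let g : L →+ Additive ℂˣ :=
        { toFun := fun m => Additive.ofMul (chr m.1 a / chr (fun i => m.1 (Sum.inl i)) x)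
          map_zero' := by
            change Additive.ofMul (chr (0 : ι ⊕ κ → ℤ) a / chr (0 : ι → ℤ) x) = 0
            rw [chr_zero, chr_zero, div_one]
            rfl
          map_add' := by
            intro m n
            change Additive.ofMul (chr (m.1 + n.1) a /
              chr ((fun i => m.1 (Sum.inl i)) + fun i => n.1 (Sum.inl i)) x) = _
            rw [chr_add, chr_add, mul_div_mul_comm, ofMul_mul] }
      obtain ⟨t, ht⟩ := exists_chr_eq (κ := κ)
        ((resR ι κ).domRestrict L).toAddMonoidHom g (by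
          intro m hm
          have hm' : resR ι κ m.1 = 0 := hm
          have h1 : extL ι κ (fun i => m.1 (Sum.inl i)) = m.1 := by
            funext j
            rcases j with j | j
            · rfl
            · exact (congrFun hm' j).symm
          have h2 := hx (fun i => m.1 (Sum.inl i)) (by
            rw [hL₁, Submodule.mem_comap, h1]
            exact m.2)
          have h3 : chr m.1 a = chr (fun i => m.1 (Sum.inl i)) (prl a) := by
            rw [← chr_extL (κ := κ), h1]
          change Additive.ofMul (chr m.1 a / chr (fun i => m.1 (Sum.inl i)) x) = 0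
          rw [h3, h2, div_self']
          rfl)
      refine ⟨pair x t, ?_, prl_pair x t⟩
      rw [hmemS]
      intro m hm
      have h1 := ht ⟨m, hm⟩
      change chr (resR ι κ m) t = chr m a / chr (fun i => m (Sum.inl i)) x at h1
      rw [chr_sum_type, prl_pair, prr_pair, h1, mul_div_cancel]
  have htor₁ : ∀ m ∈ L₁, ∃ N : ℕ, 0 < N ∧ chr m (prl a) ^ N = 1 := by
    intro m hm
    obtain ⟨N, hN, h1⟩ := htor _ hm
    refine ⟨N, hN, ?_⟩
    rwa [chr_extL] at h1
  obtain ⟨hc1, -, hc3, -⟩ := cosetOf_properties hsat₁ htor₁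
  rw [← hproj] at hc1 hc3
  -- the fibres
  obtain ⟨hd1, hd2, hd3, -⟩ := cosetOf_properties (sat_satur P) (a := (1 : Torus κ))
    (fun m _ => ⟨1, one_pos, by rw [chr_one, one_pow]⟩)
  let H : Subgroup (Torus κ) :=
    { carrier := cosetOf (satur P) 1
      mul_mem' := by
        intro x y hx hy m hm
        rw [chr_mul, hx m hm, hy m hm, chr_one, one_mul]
      one_mem' := self_mem_cosetOf _ 1
      inv_mem' := by
        intro x hx m hm
        rw [chr_inv, hx m hm, chr_one, inv_one] }
  have hHmem : ∀ t, t ∈ H ↔ ∀ m ∈ satur P, chr m t = 1 := by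
    intro t
    change (∀ m ∈ satur P, chr m t = chr m 1) ↔ _
    refine forall_congr' fun m => forall_congr' fun _ => ?_
    rw [chr_one]
  refine ⟨hc1, H, hd2.1, hd2.2.isConnected, hd2, ?_, ?_⟩
  · change dm S = dm (prl '' S) + dm (cosetOf (satur P) 1)
    have h1 := hS.dm_add
    have h2 : Module.finrank ℤ P + Module.finrank ℤ L₁ = Module.finrank ℤ L :=
      finrank_resR_extL L
    have h3 := finrank_satur P
    rw [Fintype.card_sum, ← hL] at h1
    omega
  · intro x
    obtain ⟨s, hs⟩ := (IsNoetherian.noetherian (satur P) : (satur P).FG)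
    obtain ⟨N, hN, hNP⟩ := exists_mul_satur P
    set F : Set (Torus κ) := {t | pair x t ∈ S} with hF
    have hFP : ∀ t ∈ F, ∀ t' ∈ F, ∀ p ∈ P, chr p t = chr p t' := by
      rintro t ht t' ht' _ ⟨m, hm, rfl⟩
      have h1 := (hmemS _).mp ht m hm
      have h2 := (hmemS _).mp ht' m hm
      rw [chr_sum_type, prl_pair, prr_pair] at h1 h2
      exact mul_left_cancel (h1.trans h2.symm)
    let Φ : Torus κ → (s → ℂˣ) := fun t m => chr m.1 t
    have hfin : (Φ '' F).Finite := by
      rcases F.eq_empty_or_nonempty with hF0 | ⟨t₀, ht₀⟩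
      · rw [hF0, Set.image_empty]
        exact Set.finite_empty
      · have h1 : ∀ c : ℂˣ, {u : ℂˣ | u ^ N = c}.Finite := by
          intro c
          have h2 : {u : ℂˣ | u ^ N = c} ⊆
              (fun u : ℂˣ => (u : ℂ)) ⁻¹' {z : ℂ | z ∈ (Polynomial.nthRoots N (c : ℂ))} := by
            intro u hu
            rw [Set.mem_preimage]
            change (u : ℂ) ∈ Polynomial.nthRoots N (c : ℂ)
            rw [Polynomial.mem_nthRoots hN, ← Units.val_pow_eq_pow_val]
            exact congrArg Units.val hu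
          refine Set.Finite.subset (Set.Finite.preimage ?_ ?_) h2
          · exact Units.val_injective.injOn
          · exact Multiset.finite_toSet _
        refine Set.Finite.subset (Set.Finite.pi' (fun m : s => h1 (chr m.1 t₀ ^ N))) ?_
        rintro _ ⟨t, ht, rfl⟩ m
        have h2 : (m : κ → ℤ) ∈ satur P := by
          rw [← hs]
          exact Submodule.subset_span m.2
        have h3 := hFP t ht t₀ ht₀ _ (hNP _ h2)
        rw [chr_zsmul, chr_zsmul, zpow_natCast, zpow_natCast] at h3
        exact h3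
    obtain ⟨C, hCF, hC, hΦC⟩ := (Set.exists_subset_image_finite_and
      (p := fun E => E = Φ '' F)).mp ⟨Φ '' F, subset_rfl, hfin, rfl⟩
    have hΦC : Φ '' C = Φ '' F := hΦC
    refine ⟨C, hC, ?_⟩
    ext t
    rw [Set.mem_iUnion₂]
    constructor
    · intro ht
      have h1 : Φ t ∈ Φ '' C := by
        rw [hΦC]
        exact ⟨t, ht, rfl⟩
      obtain ⟨g, hg, hgt⟩ := h1
      refine ⟨g, hg, ?_⟩
      change g⁻¹ * t ∈ H
      rw [hHmem]
      intro m hm
      rw [← hs] at hm
      induction hm using Submodule.span_induction with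
      | mem y hy =>
        have h2 : chr y g = chr y t := congrFun hgt ⟨y, hy⟩
        rw [chr_mul, chr_inv, h2, inv_mul_cancel]
      | zero => exact chr_zero _
      | add y z _ _ hy hz => rw [chr_add, hy, hz, one_mul]
      | smul c y _ hy => rw [chr_zsmul, hy, one_zpow]
    · rintro ⟨g, hg, hgt⟩
      have h1 : g⁻¹ * t ∈ H := hgt
      rw [hHmem] at h1
      have hgF : pair x g ∈ S := hCF hg
      change pair x t ∈ S
      rw [hmemS] at hgF ⊢
      intro m hm
      have h2 := h1 _ (le_satur P ⟨m, hm, rfl⟩)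
      rw [chr_mul, chr_inv, inv_mul_eq_one] at h2
      have h3 := hgF m hm
      rw [chr_sum_type, prl_pair, prr_pair] at h3 ⊢
      rw [← h2]
      exact h3

end Fib

end Pool.Agent.Helper10
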