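import Pool.Agent.Helper10.UV.Defs
import Pool.Agent.Helper10.UV.ExampleFib
import Pool.Agent.Helper10.FormsExample

/-!
A sanity check of the definitions: the algebraic tori, with their torsion cosets, form a class
of varieties with special subvarieties that is stable under products with tori, with special
subvarieties defined over the algebraic numbers.
-/

namespace Pool.Agent.Helper10

open MvPolynomial

/-- roots of unity are algebraic over every field of constants -/
theorem isAlgebraic_of_isOfFinOrder {𝔞 : Set ℂˣ} {u : ℂˣ} {N : ℕ} (hN : 0 < N)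
    (hu : u ^ N = 1) :
    IsAlgebraic (IntermediateField.adjoin ℚ ((fun a : ℂˣ => (a : ℂ)) '' 𝔞)) (u : ℂ) := by
  apply IsAlgebraic.of_pow hN
  rw [← Units.val_pow_eq_pow_val, hu, Units.val_one]
  exact isAlgebraic_one

/-- torsion cosets are defined over the algebraic numbers -/
theorem isDefinedOver_torsionCoset (𝔞 : Set ℂˣ) {ι : Type} [Fintype ι] {S : Set (Torus ι)}
    (hS : IsTorsionCoset S) : IsDefinedOver 𝔞 S := by
  classical
  obtain ⟨a, ha⟩ := hS.nonempty
  obtain ⟨hSa, htor⟩ := hS.eq_cosetOf ha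
  let pos : (ι → ℤ) → (ι →₀ ℕ) := fun m => Finsupp.equivFunOnFinite.symm fun i => (m i).toNat
  let neg : (ι → ℤ) → (ι →₀ ℕ) := fun m => Finsupp.equivFunOnFinite.symm fun i => (-(m i)).toNat
  have hval : ∀ (m : ι → ℤ) (x : Torus ι),
      value x (monomial (pos m) 1 - monomial (neg m) ((chr m a : ℂˣ) : ℂ)) = 0 ↔
        chr m x = chr m a := by
    intro m x
    rw [value_sub, value_monomial, value_monomial, one_mul]
    have h1 : (fun i => ((pos m i : ℕ) : ℤ)) = m + fun i => ((neg m i : ℕ) : ℤ) := by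
      funext i
      change ((m i).toNat : ℤ) = m i + ((-(m i)).toNat : ℤ)
      omega
    rw [h1, chr_add, Units.val_mul, ← sub_mul, mul_eq_zero, sub_eq_zero]
    constructor
    · rintro (h | h)
      · exact Units.ext h
      · exact absurd h (Units.ne_zero _)
    · intro h
      exact Or.inl (congrArg Units.val h)
  refine ⟨(fun m => monomial (pos m) 1 - monomial (neg m) ((chr m a : ℂˣ) : ℂ)) '' (rel S : Set _),
    ?_, ?_⟩
  · ext x
    rw [hS.mem_iff ha]
    constructor
    · rintro h _ ⟨m, hm, rfl⟩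
      exact (hval m x).mpr (h m hm)
    · intro h m hm
      exact (hval m x).mp (h _ ⟨m, hm, rfl⟩)
  · rintro _ ⟨m, hm, rfl⟩ n
    obtain ⟨N, hN, h1⟩ := htor m hm
    have h2 := isAlgebraic_of_isOfFinOrder (𝔞 := 𝔞) hN h1
    rw [coeff_sub, coeff_monomial, coeff_monomial]
    apply IsAlgebraic.sub
    · split_ifs
      · exact isAlgebraic_one
      · exact isAlgebraic_zero
    · split_ifs
      · exact h2
      · exact isAlgebraic_zero

/-- products of torsion cosets -/
theorem isTorsionCoset_prod {ι κ : Type} [Finite ι] [Finite κ] {A : Set (Torus ι)}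
    {B : Set (Torus κ)} (hA : IsTorsionCoset A) (hB : IsTorsionCoset B) :
    IsTorsionCoset {z : Torus (ι ⊕ κ) | prl z ∈ A ∧ prr z ∈ B} := by
  have := Fintype.ofFinite ι
  have := Fintype.ofFinite κ
  obtain ⟨H, ζ, hcl, hconn, hζ, rfl⟩ := hA
  obtain ⟨H', ζ', hcl', hconn', hζ', rfl⟩ := hB
  have hH : IsTorsionCoset (H : Set (Torus ι)) := ⟨H, 1, hcl, hconn, IsOfFinOrder.one, by simp⟩
  have hH' : IsTorsionCoset (H' : Set (Torus κ)) :=
    ⟨H', 1, hcl', hconn', IsOfFinOrder.one, by simp⟩
  let G : Subgroup (Torus (ι ⊕ κ)) :=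
    { carrier := {z | prl z ∈ H ∧ prr z ∈ H'}
      mul_mem' := fun {x y} hx hy => ⟨mul_mem hx.1 hy.1, mul_mem hx.2 hy.2⟩
      one_mem' := ⟨one_mem H, one_mem H'⟩
      inv_mem' := fun {x} hx => ⟨inv_mem hx.1, inv_mem hx.2⟩ }
  refine ⟨G, pair ζ ζ', ?_, ?_, ?_, ?_⟩
  · exact (hcl.preimage continuous_prl).inter (hcl'.preimage continuous_prr)
  · have h1 := isIrreducible_prod hH.isSubvariety.2 hH'.isSubvariety.2
    exact ⟨h1.1, h1.2.isPreconnected⟩
  · rw [isOfFinOrder_iff_pow_eq_one] at hζ hζ' ⊢
    obtain ⟨N, hN, h1⟩ := hζ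
    obtain ⟨M, hM, h2⟩ := hζ'
    refine ⟨N * M, Nat.mul_pos hN hM, ?_⟩
    funext j
    rcases j with j | j
    · change (ζ j) ^ (N * M) = 1
      have h3 : (ζ j) ^ N = 1 := congrFun h1 j
      rw [pow_mul, h3, one_pow]
    · change (ζ' j) ^ (N * M) = 1
      have h3 : (ζ' j) ^ M = 1 := congrFun h2 j
      rw [mul_comm, pow_mul, h3, one_pow]
  · ext z
    constructor
    · rintro ⟨⟨h, hh, he⟩, ⟨h', hh', he'⟩⟩
      refine ⟨pair h h', ⟨hh, hh'⟩, ?_⟩
      funext j
      rcases j with j | j
      · exact congrFun he j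
      · exact congrFun he' j
    · rintro ⟨y, ⟨hy, hy'⟩, rfl⟩
      exact ⟨⟨prl y, hy, rfl⟩, ⟨prr y, hy', rfl⟩⟩

/-- The class of the tori (varieties with a unique chart, which is a bijection onto a torus)
with their torsion cosets. -/
def toriClassU (X : Variety) (𝒮 : Set (Set X.Pt)) : Prop :=
  ∃ j : X.Idx, (∀ l, l = j) ∧ X.dom j = Set.univ ∧ Function.Surjective (X.chart j) ∧
    𝒮 = {S | IsTorsionCoset (X.chart j '' S)}

/-- closedness, subvarieties and dimensions in a torus -/
theorem torus_chart {X : Variety} {j : X.Idx} (hj : X.dom j = Set.univ)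
    (hsurj : Function.Surjective (X.chart j)) :
    (∀ A : Set X.Pt, Variety.img A j = X.chart j '' A) ∧
    (∀ A : Set X.Pt, IsClosed A ↔ IsClosed (X.chart j '' A)) ∧
    (∀ A : Set X.Pt, X.IsSubvariety A ↔ IsSubvariety (X.chart j '' A)) ∧
    ∀ A : Set X.Pt, X.IsSubvariety A → X.dim A = (dm (X.chart j '' A) : ℕ) := by
  have hinj : Function.Injective (X.chart j) := by
    intro x y h
    exact X.injOn j (by rw [hj]; trivial) (by rw [hj]; trivial) h
  have himg : ∀ A : Set X.Pt, Variety.img A j = X.chart j '' A := by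
    intro A
    unfold Variety.img
    rw [hj, Set.inter_univ]
  refine ⟨himg, ?_, ?_, ?_⟩
  · intro A
    constructor
    · intro h
      rw [← himg]
      exact Variety.isClosed_img h j
    · intro h
      have h1 := Variety.isClosed_of_chart j h
      convert h1 using 1
      rw [hj]
      ext x
      constructor
      · intro hx
        exact Or.inl ⟨trivial, ⟨x, hx, rfl⟩⟩
      · rintro (⟨-, y, hy, hyx⟩ | h2)
        · rwa [← hinj hyx]
        · exact absurd trivial h2
  · intro A
    constructor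
    · intro h
      rw [← himg]
      apply Variety.isSubvariety_img h
      rw [hj, Set.inter_univ]
      exact h.2.1
    · intro h
      obtain ⟨B, hB, -, hBA, -⟩ := Variety.exists_of_chart j h
        (Set.image_mono (by rw [hj]; exact Set.subset_univ A))
      rw [himg] at hBA
      rw [← hinj.image_injective hBA]
      exact hB
  · intro A hA
    rw [Variety.dim_eq hA, Variety.dm_eq hA.2 (j := j) (by
      rw [hj, Set.inter_univ]
      exact hA.2.1), himg]

theorem isTorusStable_toriClassU : IsTorusStable {1} toriClassU := by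
  intro X 𝒮 hX
  have hspec : IsSpecialStructure X 𝒮 := by
    obtain ⟨j, -, hj, hsurj, h𝒮⟩ := hX
    exact (isTorusClosed_toriClass X 𝒮 ⟨j, hj, hsurj, h𝒮⟩).1
  obtain ⟨j, huniq, hj, hsurj, rfl⟩ := hX
  refine ⟨hspec, ?_, ?_⟩
  · intro S hS l
    rw [huniq l, hj, Set.inter_univ]
    have := Fintype.ofFinite (X.Coord j)
    exact isDefinedOver_torsionCoset {1} hS
  · intro κ _
    have hFι := Fintype.ofFinite (X.Coord j)
    have hFκ := Fintype.ofFinite κ
    have hdomj : (X.prodTorus κ).dom j = Set.univ := by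
      change {p : X.Pt × Torus κ | p.1 ∈ X.dom j} = Set.univ
      rw [hj]
      rfl
    have hsurj' : Function.Surjective ((X.prodTorus κ).chart j) := by
      intro z
      obtain ⟨x, hx⟩ := hsurj (prl z)
      refine ⟨(x, prr z), ?_⟩
      change pair (X.chart j x) (prr z) = z
      rw [hx, pair_pr]
    have hinj : Function.Injective (X.chart j) := by
      intro x y h
      exact X.injOn j (by rw [hj]; trivial) (by rw [hj]; trivial) h
    obtain ⟨-, hcl, hsub, hdim⟩ := torus_chart hj hsurj
    obtain ⟨-, hcl', hsub', hdim'⟩ := torus_chart (X := X.prodTorus κ) hdomj hsurj'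
    refine ⟨{S | IsTorsionCoset ((X.prodTorus κ).chart j '' S)},
      ⟨j, huniq, hdomj, hsurj', rfl⟩, ?_, ?_⟩
    · intro S hS H hH
      change IsTorsionCoset _
      have h1 : (X.prodTorus κ).chart j '' {p : (X.prodTorus κ).Pt | p.1 ∈ S ∧ p.2 ∈ H} =
          {z | prl z ∈ X.chart j '' S ∧ prr z ∈ H} := by
        ext z
        constructor
        · rintro ⟨p, ⟨hp, hp'⟩, rfl⟩
          exact ⟨⟨p.1, hp, rfl⟩, hp'⟩
        · rintro ⟨⟨x, hx, hxz⟩, hz⟩
          refine ⟨(x, prr z), ⟨hx, hz⟩, ?_⟩
          change pair (X.chart j x) (prr z) = z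
          rw [hxz, pair_pr]
      rw [h1]
      exact isTorsionCoset_prod hS hH
    · intro S' hS'
      have hS'' : IsTorsionCoset ((X.prodTorus κ).chart j '' S') := hS'
      obtain ⟨h1, H, hH1, hH2, hH3, hdm, hfib⟩ := torsionCoset_projection hS''
      have himg : X.chart j '' {x : X.Pt | ∃ t, ((x, t) : (X.prodTorus κ).Pt) ∈ S'} =
          prl '' ((X.prodTorus κ).chart j '' S') := by
        ext y
        constructor
        · rintro ⟨x, ⟨t, ht⟩, rfl⟩
          exact ⟨pair (X.chart j x) t, ⟨(x, t), ht, rfl⟩, prl_pair _ _⟩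
        · rintro ⟨_, ⟨p, hp, rfl⟩, rfl⟩
          exact ⟨p.1, ⟨p.2, hp⟩, rfl⟩
      have hclosed : IsClosed {x : X.Pt | ∃ t, ((x, t) : (X.prodTorus κ).Pt) ∈ S'} := by
        rw [hcl, himg]
        exact h1.isSubvariety.1
      have hmem : IsTorsionCoset (X.chart j ''
          {x : X.Pt | ∃ t, ((x, t) : (X.prodTorus κ).Pt) ∈ S'}) := by
        rw [himg]
        exact h1
      rw [hclosed.closure_eq]
      refine ⟨hmem, H, hH1, hH2, ?_, ?_⟩
      · have hS3 : IsSubvariety ((X.prodTorus κ).chart j '' S') :=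
          IsTorsionCoset.isSubvariety (ι := X.Coord j ⊕ κ) hS''
        rw [hdim' S' ((hsub' S').mpr hS3), hdim _ ((hsub _).mpr hmem.isSubvariety),
          dim_eq_dm hH3, himg]
        have h2 := hdm
        exact_mod_cast h2
      · intro x
        obtain ⟨C, hC, h2⟩ := hfib (X.chart j x)
        refine ⟨C, hC, ?_⟩
        rw [← h2]
        ext t
        constructor
        · intro ht
          exact ⟨(x, t), ht, rfl⟩
        · rintro ⟨p, hp, he⟩
          have h3 : X.chart j p.1 = X.chart j x := congrArg prl he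
          have h4 : p.2 = t := congrArg prr he
          have h5 := hinj h3
          change ((x, t) : (X.prodTorus κ).Pt) ∈ S'
          rw [← h5, ← h4]
          exact hp

end Pool.Agent.Helper10
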