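import Pool.Agent.Helper10.UV.Tgt
import Pool.Agent.Helper10.UV.Defs

/-!
The families of products of lines are subvarieties.
-/

namespace Pool.Agent.Helper10

open MvPolynomial

theorem lineFamily_properties {X : Variety} {T : Set X.Pt} (hT : X.IsSubvariety T) {j : X.Idx}
    (hj : (T ∩ X.dom j).Nonempty) {k : ℕ} (b : Fin k → ℂˣ) :
    (X.prodTorus ((X.Coord j ⊕ Fin k) ⊕ (X.Coord j ⊕ Fin k))).IsSubvariety
      (lineFamily X T j b) ∧
    (∀ p ∈ lineFamily X T j b, p.1 ∈ T) ∧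
    Variety.img (X := X.prodTorus ((X.Coord j ⊕ Fin k) ⊕ (X.Coord j ⊕ Fin k)))
      (lineFamily X T j b) j = linesOver (Variety.img T j) (lineG b) ∧
    Variety.dm (X := X.prodTorus ((X.Coord j ⊕ Fin k) ⊕ (X.Coord j ⊕ Fin k)))
      (lineFamily X T j b) = Variety.dm T + Nat.card (X.Coord j ⊕ Fin k) := by
  have := Fintype.ofFinite (X.Coord j)
  have hTi := Variety.isSubvariety_img hT hj
  set C : Set (Torus (X.Coord j ⊕ ((X.Coord j ⊕ Fin k) ⊕ (X.Coord j ⊕ Fin k)))) :=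
    linesOver (Variety.img T j) (lineG b) with hC
  have hCs : IsSubvariety C :=
    ⟨isClosed_linesOver hTi.1 _, isIrreducible_linesOver hTi.2 _⟩
  obtain ⟨A, hA, hAj, hAimg, hAsub⟩ := Variety.exists_of_chart
    (X := X.prodTorus ((X.Coord j ⊕ Fin k) ⊕ (X.Coord j ⊕ Fin k))) j hCs (by
      intro z hz
      obtain ⟨y, ⟨hyT, hyj⟩, hy⟩ := hz.1
      refine ⟨(y, prr z), hyj, ?_⟩
      change pair (X.chart j y) (prr z) = z
      rw [hy, pair_pr])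
  have hmem : ∀ p : (X.prodTorus ((X.Coord j ⊕ Fin k) ⊕ (X.Coord j ⊕ Fin k))).Pt,
      (p.1 ∈ X.dom j ∧ pair (X.chart j p.1) p.2 ∈ C) ↔ (p.1 ∈ T ∩ X.dom j ∧
        (∀ l, ((p.2 (Sum.inr (Sum.inl l)) : ℂˣ) : ℂ) =
          ((p.2 (Sum.inl (Sum.inl l)) : ℂˣ) : ℂ) + ((X.chart j p.1 l : ℂˣ) : ℂ)) ∧
        ∀ i, ((p.2 (Sum.inr (Sum.inr i)) : ℂˣ) : ℂ) =
          ((p.2 (Sum.inl (Sum.inr i)) : ℂˣ) : ℂ) + ((b i : ℂˣ) : ℂ)) := by
    intro p
    constructor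
    · rintro ⟨h1, h2, h3⟩
      exact ⟨⟨(Variety.mem_img h1).mp h2, h1⟩, fun l => h3 (Sum.inl l), fun i => h3 (Sum.inr i)⟩
    · rintro ⟨⟨h1, h2⟩, h3, h4⟩
      refine ⟨h2, (Variety.mem_img h2).mpr h1, ?_⟩
      rintro (l | i)
      · exact h3 l
      · exact h4 i
  have hAeq : lineFamily X T j b = A := by
    apply subset_antisymm
    · apply closure_minimal _ hA.1
      intro p hp
      obtain ⟨h1, h2⟩ := (hmem p).mpr hp
      rw [← hAimg] at h2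
      exact (Variety.mem_img (X := X.prodTorus ((X.Coord j ⊕ Fin k) ⊕ (X.Coord j ⊕ Fin k)))
        (x := p) h1).mp h2
    · apply hAsub _ isClosed_closure
      intro p hp
      exact subset_closure ((hmem p).mp hp)
  rw [hAeq]
  refine ⟨hA, ?_, hAimg, ?_⟩
  · have h1 : A ⊆ {p : (X.prodTorus ((X.Coord j ⊕ Fin k) ⊕ (X.Coord j ⊕ Fin k))).Pt | p.1 ∈ T} := by
      apply hAsub _ (Variety.isClosed_fst hT.1)
      intro p hp
      exact ((hmem p).mp hp).1.1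
    exact h1
  · have h1 : Variety.dm A = dm (ι := X.Coord j ⊕ ((X.Coord j ⊕ Fin k) ⊕ (X.Coord j ⊕ Fin k)))
      (Variety.img (X := X.prodTorus ((X.Coord j ⊕ Fin k) ⊕ (X.Coord j ⊕ Fin k))) A j) :=
      Variety.dm_eq hA.2 hAj
    rw [h1, hAimg, hC, dm_linesOver hTi.2, Variety.dm_eq hT.2 hj, Nat.card_eq_fintype_card]

end Pool.Agent.Helper10
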