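import Pool.Agent.Helper10.UV.Lines

/-!
The fibres of the source sets: characters which are constant on them, and dimensions.
-/

namespace Pool.Agent.Helper10

open MvPolynomial

section Const

variable {ν θ : Type} [Fintype ν] [Fintype θ]

theorem const_prodFull {S : Set (Torus ν)} (hS : S.Nonempty) {m : ν ⊕ θ → ℤ} {a : ℂˣ}
    (hm : ∀ w ∈ {w : Torus (ν ⊕ θ) | prl w ∈ S}, chr m w = a) :
    (∀ x ∈ S, chr (fun i => m (Sum.inl i)) x = a) ∧ ∀ i, m (Sum.inr i) = 0 := by
  have h1 : ∀ x ∈ S, ∀ y : Torus θ, chr (fun i => m (Sum.inl i)) x *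
      chr (fun i => m (Sum.inr i)) y = a := by
    intro x hx y
    have h2 := hm (pair x y) hx
    rw [chr_split] at h2
    exact h2
  have h2 : ∀ x ∈ S, chr (fun i => m (Sum.inl i)) x = a := by
    intro x hx
    have h3 := h1 x hx 1
    rw [chr_one, mul_one] at h3
    exact h3
  refine ⟨h2, ?_⟩
  obtain ⟨x, hx⟩ := hS
  have h3 : (fun i => m (Sum.inr i)) = 0 := by
    apply eq_zero_of_chr_eq_one
    intro y
    have h4 := h1 x hx y
    rw [h2 x hx] at h4
    exact mul_eq_left.mp h4
  exact fun i => congrFun h3 i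

end Const

section ConstChain

variable {τ : Type} [Fintype τ] {c N : ℕ} [NeZero N]

theorem const_chainSet {E : Fin c → ℕ → (τ →₀ ℕ)} {S : Set (Torus τ)}
    (hS : ∀ x ∈ S, ∀ i, value x (psum E i N) = 0)
    (hd : ∀ i, ∃ x ∈ S, Function.Injective fun l : Fin N => value x (psum E i l))
    {m : τ ⊕ (Fin c × Fin N) → ℤ} {b : ℂˣ} (hm : ∀ v ∈ chainSet N E S, chr m v = b) :
    (∀ x ∈ S, chr (fun a => m (Sum.inl a)) x = b) ∧ ∀ a, m (Sum.inr a) = 0 := by
  classical
  have h1 : ∀ i l, m (Sum.inr (i, l)) = 0 := by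
    intro i
    obtain ⟨x, hx, hinj⟩ := hd i
    obtain ⟨s₀, hs₀⟩ := exists_shift (N := N) E x
    set κ : ℂ := ((b : ℂˣ) : ℂ)⁻¹ * (((chr (fun a => m (Sum.inl a)) x : ℂˣ) : ℂ) *
      ∏ i' ∈ Finset.univ.erase i, ∏ l : Fin N, (s₀ i' + value x (psum E i' l)) ^ m (Sum.inr (i', l)))
      with hκ
    have hκ0 : κ ≠ 0 := by
      rw [hκ]
      apply mul_ne_zero (inv_ne_zero (Units.ne_zero _))
      apply mul_ne_zero (Units.ne_zero _)
      apply Finset.prod_ne_zero_iff.mpr
      intro i' _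
      apply Finset.prod_ne_zero_iff.mpr
      intro l _
      exact zpow_ne_zero _ (hs₀ i' l)
    exact exps_zero (fun l : Fin N => value x (psum E i l)) hinj
      (fun l => m (Sum.inr (i, l))) κ hκ0 (by
        intro s hs
        have hs' : ∀ i' (l : Fin N), (Function.update s₀ i s) i' + value x (psum E i' l) ≠ 0 := by
          intro i' l
          by_cases hi : i' = i
          · subst hi
            rw [Function.update_self]
            exact hs l
          · rw [Function.update_of_ne hi]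
            exact hs₀ i' l
        have h3 := hm _ (cpt_mem hx (hS x hx) _ hs')
        rw [chr_split] at h3
        have h4 := congrArg Units.val h3
        rw [Units.val_mul] at h4
        have h5 : ((chr (fun a => m (Sum.inr a))
            (prr (cpt N E x (Function.update s₀ i s) hs')) : ℂˣ) : ℂ) =
            (∏ l : Fin N, (s + value x (psum E i l)) ^ m (Sum.inr (i, l))) *
            ∏ i' ∈ Finset.univ.erase i, ∏ l : Fin N, (s₀ i' + value x (psum E i' l)) ^
              m (Sum.inr (i', l)) := by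
          unfold chr
          rw [Units.coe_prod, Fintype.prod_prod_type,
            ← Finset.mul_prod_erase Finset.univ _ (Finset.mem_univ i)]
          congr 1
          · refine Finset.prod_congr rfl fun l _ => ?_
            rw [Units.val_zpow_eq_zpow_val]
            change ((Function.update s₀ i s) i + value x (psum E i l)) ^ _ = _
            rw [Function.update_self]
          · refine Finset.prod_congr rfl fun i' hi' => ?_
            refine Finset.prod_congr rfl fun l _ => ?_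
            rw [Units.val_zpow_eq_zpow_val]
            change ((Function.update s₀ i s) i' + value x (psum E i' l)) ^ _ = _
            rw [Function.update_of_ne (Finset.ne_of_mem_erase hi')]
        rw [h5] at h4
        change ((chr (fun a => m (Sum.inl a)) x : ℂˣ) : ℂ) * _ = _ at h4
        have hb : ((b : ℂˣ) : ℂ) ≠ 0 := Units.ne_zero _
        rw [hκ, mul_assoc, inv_mul_eq_iff_eq_mul₀ hb, mul_one, ← h4]
        ring)
  refine ⟨fun x hx => ?_, fun a => h1 a.1 a.2⟩
  obtain ⟨s, hs⟩ := exists_shift (N := N) E x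
  have h2 := hm _ (cpt_mem hx (hS x hx) s hs)
  rw [chr_split] at h2
  have h3 : (fun a => m (Sum.inr a)) = (0 : Fin c × Fin N → ℤ) := funext fun a => h1 a.1 a.2
  rw [h3, chr_zero, mul_one] at h2
  exact h2

/-- the dimension over `k` of the chain set -/
theorem dk_chainSet_ge' (k : Type) [Field k] [Algebra k ℂ] {E : Fin c → ℕ → (τ →₀ ℕ)}
    {S : Set (Torus τ)}
    (hS : ∀ x ∈ S, ∀ i, value x (psum E i N) = 0) (hSi : IsIrreducible S) :
    dk k S + c ≤ dk k (chainSet N E S) := by
  obtain ⟨K, _, _, z, hz⟩ := exists_isGeneric hSi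
  obtain ⟨K', _, _, s, hs⟩ := exists_extension_field K (Fin c)
  let _ : Algebra ℂ K' := ((algebraMap K K').comp (algebraMap ℂ K)).toAlgebra
  have _ : IsScalarTower ℂ K K' := IsScalarTower.of_algebraMap_eq' rfl
  have h := hz.chain (N := N) hS hs (z' := fun a => Units.map (algebraMap K K').toMonoidHom (z a))
    (fun _ => rfl)
  let _ : Algebra k K := ((algebraMap ℂ K).comp (algebraMap k ℂ)).toAlgebra
  have _ : IsScalarTower k ℂ K := IsScalarTower.of_algebraMap_eq' rfl
  let _ : Algebra k K' := ((algebraMap K K').comp (algebraMap k K)).toAlgebra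
  have _ : IsScalarTower k K K' := IsScalarTower.of_algebraMap_eq' rfl
  have _ : IsScalarTower k ℂ K' := IsScalarTower.of_algebraMap_eq' rfl
  have h1 := hz.kr_eq k hSi
  have h2 := h.kr_eq k h.isIrreducible
  have h3 := kr_add_le (k := k) (Set.range fun a => ((z a : Kˣ) : K)) hs
  rw [h1] at h3
  have h4 : ENat.card (Fin c) = c := by simp
  rw [h4] at h3
  have h5 : (c : ℕ∞) + dk k S ≤ dk k (chainSet N E S) := by
    rw [← h2]
    refine h3.trans (kr_mono ?_)
    apply Set.union_subset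
    · rintro _ ⟨i, rfl⟩
      refine ⟨Sum.inr (i, 0), ?_⟩
      change ((s i : K'ˣ) : K') + algebraMap K K' (aeval _ (psum E i ((0 : Fin N) : ℕ))) = _
      have : psum E i ((0 : Fin N) : ℕ) = 0 := by
        unfold psum
        simp
      rw [this, map_zero, map_zero, add_zero]
    · rintro _ ⟨_, ⟨a, rfl⟩, rfl⟩
      exact ⟨Sum.inl a, rfl⟩
  have h6 : c + dk k S ≤ dk k (chainSet N E S) := by exact_mod_cast h5
  omega

/-- the dimension over `k` of a product with a full torus -/
theorem dk_prodFull_ge' (k : Type) [Field k] [Algebra k ℂ] {θ : Type} [Fintype θ]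
    {S : Set (Torus τ)} (hSi : IsIrreducible S) :
    dk k S + Fintype.card θ ≤ dk k {w : Torus (τ ⊕ θ) | prl w ∈ S} := by
  obtain ⟨K, _, _, z, hz⟩ := exists_isGeneric hSi
  obtain ⟨K', _, _, s, hs⟩ := exists_extension_field K θ
  let _ : Algebra ℂ K' := ((algebraMap K K').comp (algebraMap ℂ K)).toAlgebra
  have _ : IsScalarTower ℂ K K' := IsScalarTower.of_algebraMap_eq' rfl
  have h := hz.prodFull hs (z' := fun a => Units.map (algebraMap K K').toMonoidHom (z a))
    (fun _ => rfl)
  let _ : Algebra k K := ((algebraMap ℂ K).comp (algebraMap k ℂ)).toAlgebra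
  have _ : IsScalarTower k ℂ K := IsScalarTower.of_algebraMap_eq' rfl
  let _ : Algebra k K' := ((algebraMap K K').comp (algebraMap k K)).toAlgebra
  have _ : IsScalarTower k K K' := IsScalarTower.of_algebraMap_eq' rfl
  have _ : IsScalarTower k ℂ K' := IsScalarTower.of_algebraMap_eq' rfl
  have h1 := hz.kr_eq k hSi
  have h2 := h.kr_eq k h.isIrreducible
  have h3 := kr_add_le (k := k) (Set.range fun a => ((z a : Kˣ) : K)) hs
  rw [h1] at h3
  have h4 : ENat.card θ = Fintype.card θ := by simp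
  rw [h4] at h3
  have h5 : (Fintype.card θ : ℕ∞) + dk k S ≤ dk k {w : Torus (τ ⊕ θ) | prl w ∈ S} := by
    rw [← h2]
    refine h3.trans (kr_mono ?_)
    apply Set.union_subset
    · rintro _ ⟨i, rfl⟩
      exact ⟨Sum.inr i, rfl⟩
    · rintro _ ⟨_, ⟨a, rfl⟩, rfl⟩
      exact ⟨Sum.inl a, rfl⟩
  have h6 : Fintype.card θ + dk k S ≤ dk k {w : Torus (τ ⊕ θ) | prl w ∈ S} := by exact_mod_cast h5
  omega

end ConstChain

section BaseFib

variable {σ : Type} [Fintype σ]

/-- the pairs `(y, u)` with `u = y + v`, and a coordinate equal to `-1` -/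
def baseFib (v : σ → ℂˣ) : Set (Torus ((σ ⊕ σ) ⊕ Unit)) :=
  {w | (∀ s, ((w (Sum.inl (Sum.inr s)) : ℂˣ) : ℂ) = ((w (Sum.inl (Sum.inl s)) : ℂˣ) : ℂ) +
    ((v s : ℂˣ) : ℂ)) ∧ ((w (Sum.inr ()) : ℂˣ) : ℂ) = -1}

/-- the point of the fibre with given `y` -/
noncomputable def bpt (v : σ → ℂˣ) (y : σ → ℂ) (hy : ∀ s, y s ≠ 0)
    (hyv : ∀ s, y s + ((v s : ℂˣ) : ℂ) ≠ 0) : Torus ((σ ⊕ σ) ⊕ Unit) :=
  pair (pair (fun s => Units.mk0 _ (hy s)) (fun s => Units.mk0 _ (hyv s))) (fun _ => -1)

omit [Fintype σ] in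
theorem bpt_mem (v : σ → ℂˣ) (y : σ → ℂ) (hy : ∀ s, y s ≠ 0)
    (hyv : ∀ s, y s + ((v s : ℂˣ) : ℂ) ≠ 0) : bpt v y hy hyv ∈ baseFib v := by
  refine ⟨fun s => rfl, ?_⟩
  change ((-1 : ℂˣ) : ℂ) = -1
  rw [Units.val_neg, Units.val_one]

omit [Fintype σ] in
theorem exists_good_y (v : σ → ℂˣ) : ∃ y : σ → ℂ, (∀ s, y s ≠ 0) ∧
    ∀ s, y s + ((v s : ℂˣ) : ℂ) ≠ 0 := by
  refine ⟨fun s => ((v s : ℂˣ) : ℂ), fun s => Units.ne_zero _, fun s => ?_⟩
  have h : ((v s : ℂˣ) : ℂ) ≠ 0 := Units.ne_zero _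
  rw [← two_mul]
  exact mul_ne_zero two_ne_zero h

omit [Fintype σ] in
theorem baseFib_nonempty (v : σ → ℂˣ) : (baseFib v).Nonempty := by
  obtain ⟨y, hy, hyv⟩ := exists_good_y v
  exact ⟨_, bpt_mem v y hy hyv⟩

theorem const_baseFib {v : σ → ℂˣ} {m : (σ ⊕ σ) ⊕ Unit → ℤ} {a : ℂˣ}
    (hm : ∀ w ∈ baseFib v, chr m w = a) : ∀ s, m (Sum.inl s) = 0 := by
  classical
  obtain ⟨y₀, hy₀, hyv₀⟩ := exists_good_y v
  have key : ∀ s₀, m (Sum.inl (Sum.inl s₀)) = 0 ∧ m (Sum.inl (Sum.inr s₀)) = 0 := by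
    intro s₀
    set κ : ℂ := ((a : ℂˣ) : ℂ)⁻¹ * (((∏ s ∈ Finset.univ.erase s₀,
      y₀ s ^ m (Sum.inl (Sum.inl s))) * (∏ s ∈ Finset.univ.erase s₀,
      (y₀ s + ((v s : ℂˣ) : ℂ)) ^ m (Sum.inl (Sum.inr s)))) * (-1) ^ m (Sum.inr ())) with hκ
    have hκ0 : κ ≠ 0 := by
      rw [hκ]
      refine mul_ne_zero (inv_ne_zero (Units.ne_zero _)) (mul_ne_zero (mul_ne_zero ?_ ?_) ?_)
      · exact Finset.prod_ne_zero_iff.mpr fun s _ => zpow_ne_zero _ (hy₀ s)
      · exact Finset.prod_ne_zero_iff.mpr fun s _ => zpow_ne_zero _ (hyv₀ s)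
      · exact zpow_ne_zero _ (neg_ne_zero.mpr one_ne_zero)
    have h := exps_zero (![0, ((v s₀ : ℂˣ) : ℂ)]) (by
      intro i j hij
      have h0 : ((v s₀ : ℂˣ) : ℂ) ≠ 0 := Units.ne_zero _
      fin_cases i <;> fin_cases j
      · rfl
      · exact absurd hij h0.symm
      · exact absurd hij h0
      · rfl)
      (![m (Sum.inl (Sum.inl s₀)), m (Sum.inl (Sum.inr s₀))]) κ hκ0 (by
        intro s hs
        have hs0 : s ≠ 0 := by
          have := hs 0
          simpa using this
        have hs1 : s + ((v s₀ : ℂˣ) : ℂ) ≠ 0 := hs 1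
        have hy : ∀ t, Function.update y₀ s₀ s t ≠ 0 := by
          intro t
          by_cases ht : t = s₀
          · subst ht
            rw [Function.update_self]
            exact hs0
          · rw [Function.update_of_ne ht]
            exact hy₀ t
        have hyv : ∀ t, Function.update y₀ s₀ s t + ((v t : ℂˣ) : ℂ) ≠ 0 := by
          intro t
          by_cases ht : t = s₀
          · subst ht
            rw [Function.update_self]
            exact hs1
          · rw [Function.update_of_ne ht]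
            exact hyv₀ t
        have h1 := congrArg Units.val (hm _ (bpt_mem v _ hy hyv))
        rw [chr_split, chr_split, Units.val_mul, Units.val_mul] at h1
        have h2 : ((chr (fun a => m (Sum.inl (Sum.inl a)))
            (prl (prl (bpt v _ hy hyv))) : ℂˣ) : ℂ) = s ^ m (Sum.inl (Sum.inl s₀)) *
              ∏ t ∈ Finset.univ.erase s₀, y₀ t ^ m (Sum.inl (Sum.inl t)) := by
          unfold chr
          rw [Units.coe_prod, ← Finset.mul_prod_erase Finset.univ _ (Finset.mem_univ s₀)]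
          congr 1
          · rw [Units.val_zpow_eq_zpow_val]
            change (Function.update y₀ s₀ s s₀) ^ _ = _
            rw [Function.update_self]
          · refine Finset.prod_congr rfl fun t ht => ?_
            rw [Units.val_zpow_eq_zpow_val]
            change (Function.update y₀ s₀ s t) ^ _ = _
            rw [Function.update_of_ne (Finset.ne_of_mem_erase ht)]
        have h3 : ((chr (fun a => m (Sum.inl (Sum.inr a)))
            (prr (prl (bpt v _ hy hyv))) : ℂˣ) : ℂ) =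
              (s + ((v s₀ : ℂˣ) : ℂ)) ^ m (Sum.inl (Sum.inr s₀)) *
              ∏ t ∈ Finset.univ.erase s₀, (y₀ t + ((v t : ℂˣ) : ℂ)) ^ m (Sum.inl (Sum.inr t)) := by
          unfold chr
          rw [Units.coe_prod, ← Finset.mul_prod_erase Finset.univ _ (Finset.mem_univ s₀)]
          congr 1
          · rw [Units.val_zpow_eq_zpow_val]
            change (Function.update y₀ s₀ s s₀ + _) ^ _ = _
            rw [Function.update_self]
          · refine Finset.prod_congr rfl fun t ht => ?_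
            rw [Units.val_zpow_eq_zpow_val]
            change (Function.update y₀ s₀ s t + _) ^ _ = _
            rw [Function.update_of_ne (Finset.ne_of_mem_erase ht)]
        have h4 : ((chr (fun a => m (Sum.inr a)) (prr (bpt v _ hy hyv)) : ℂˣ) : ℂ) =
            (-1) ^ m (Sum.inr ()) := by
          unfold chr
          rw [Fintype.prod_unique, Units.val_zpow_eq_zpow_val]
          change ((-1 : ℂˣ) : ℂ) ^ _ = _
          rw [Units.val_neg, Units.val_one]
        rw [h2, h3, h4] at h1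
        have ha : ((a : ℂˣ) : ℂ) ≠ 0 := Units.ne_zero _
        rw [Fin.prod_univ_two]
        simp only [Matrix.cons_val_zero, Matrix.cons_val_one, add_zero]
        rw [hκ, mul_assoc, inv_mul_eq_iff_eq_mul₀ ha, mul_one, ← h1]
        ring)
    exact ⟨h 0, h 1⟩
  rintro (s | s)
  · exact (key s).1
  · exact (key s).2

/-- the parametrisation of the fibre -/
noncomputable def bMap (v : σ → ℂˣ) (j : (σ ⊕ σ) ⊕ Unit) : MvPolynomial σ ℂ :=
  Sum.elim (Sum.elim (fun s => X s) (fun s => X s + C ((v s : ℂˣ) : ℂ))) (fun _ => C (-1)) j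

omit [Fintype σ] in
theorem baseFib_eq (v : σ → ℂˣ) : baseFib v = {w | ∃ y ∈ (Set.univ : Set (Torus σ)), ∀ j,
    ((w j : ℂˣ) : ℂ) = value y (bMap v j)} := by
  ext w
  constructor
  · rintro ⟨h1, h2⟩
    refine ⟨fun s => w (Sum.inl (Sum.inl s)), trivial, ?_⟩
    rintro ((s | s) | s)
    · change _ = value _ (X s)
      rw [value_X]
    · change _ = value _ (X s + C ((v s : ℂˣ) : ℂ))
      rw [value_add, value_X, value_C]
      exact h1 s
    · change _ = value _ (C (-1))
      rw [value_C]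
      exact h2
  · rintro ⟨y, -, hy⟩
    refine ⟨fun s => ?_, ?_⟩
    · have h1 := hy (Sum.inl (Sum.inl s))
      have h2 := hy (Sum.inl (Sum.inr s))
      change _ = value _ (X s) at h1
      change _ = value _ (X s + C ((v s : ℂˣ) : ℂ)) at h2
      rw [value_X] at h1
      rw [value_add, value_X, value_C] at h2
      rw [h2, h1]
    · have h1 := hy (Sum.inr ())
      change _ = value _ (C (-1)) at h1
      rw [value_C] at h1
      exact h1

theorem exists_isGeneric_baseFib (v : σ → ℂˣ) : ∃ (K : Type) (_ : Field K) (_ : Algebra ℂ K)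
    (η : (σ ⊕ σ) ⊕ Unit → Kˣ), IsGeneric η (baseFib v) ∧
      AlgebraicIndependent ℂ (fun s => ((η (Sum.inl (Sum.inl s)) : Kˣ) : K)) ∧
      ∀ s, ((η (Sum.inl (Sum.inr s)) : Kˣ) : K) = ((η (Sum.inl (Sum.inl s)) : Kˣ) : K) +
        algebraMap ℂ K ((v s : ℂˣ) : ℂ) := by
  obtain ⟨K, _, _, s, hs⟩ := exists_extension_field ℂ σ
  have h0 : IsGeneric s (Set.univ : Set (Torus σ)) := by
    intro F
    have h1 : (∀ x ∈ (Set.univ : Set (Torus σ)), value x F = 0) ↔ F = 0 := by
      constructor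
      · intro h
        have h2 : F ∈ vI (Set.univ : Set (Torus σ)) := h
        rwa [vI_univ, Ideal.mem_bot] at h2
      · rintro rfl x _
        exact value_zero _
    rw [h1]
    exact ⟨fun h => by rw [h, map_zero], fun h => (algebraicIndependent_iff.mp hs) _ h⟩
  have hm : (-1 : K) ≠ 0 := neg_ne_zero.mpr one_ne_zero
  let η : (σ ⊕ σ) ⊕ Unit → Kˣ := Sum.elim (Sum.elim s
    (fun i => Units.mk0 _ (add_ne_zero_of_algebraicIndependent hs i ((v i : ℂˣ) : ℂ))))
    (fun _ => Units.mk0 _ hm)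
  refine ⟨K, inferInstance, inferInstance, η, ?_, hs, fun _ => rfl⟩
  rw [baseFib_eq]
  refine h0.reg (bMap v) η ?_
  rintro ((i | i) | i)
  · change _ = aeval _ (X i)
    rw [aeval_X]
    rfl
  · change _ = aeval _ (X i + C ((v i : ℂˣ) : ℂ))
    rw [map_add, aeval_X, aeval_C]
    rfl
  · change (-1 : K) = aeval _ (C (-1))
    rw [aeval_C, map_neg, map_one]

theorem isIrreducible_baseFib (v : σ → ℂˣ) : IsIrreducible (baseFib v) := by
  obtain ⟨K, _, _, η, hη, -⟩ := exists_isGeneric_baseFib v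
  exact hη.isIrreducible

theorem dk_baseFib_ge (k : Type) [Field k] [Algebra k ℂ] (v : σ → ℂˣ) :
    (Fintype.card σ : ℕ∞) + kr k (Set.range fun s => ((v s : ℂˣ) : ℂ)) ≤ dk k (baseFib v) := by
  obtain ⟨K, _, _, η, hη, hind, hu⟩ := exists_isGeneric_baseFib v
  let _ : Algebra k K := ((algebraMap ℂ K).comp (algebraMap k ℂ)).toAlgebra
  have _ : IsScalarTower k ℂ K := IsScalarTower.of_algebraMap_eq' rfl
  have h1 := hη.kr_eq k hη.isIrreducible
  rw [← h1]
  have h2 := kr_add_le (k := k) (Set.range fun s => ((v s : ℂˣ) : ℂ)) hind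
  have h3 : ENat.card σ = Fintype.card σ := by simp
  rw [h3] at h2
  refine h2.trans ?_
  apply kr_le_of_isAlgebraic
  have hy : ∀ j, ((η j : Kˣ) : K) ∈ Algebra.adjoin k (Set.range fun j => ((η j : Kˣ) : K)) :=
    fun j => Algebra.subset_adjoin ⟨j, rfl⟩
  rintro a (⟨s, rfl⟩ | ⟨_, ⟨s, rfl⟩, rfl⟩)
  · exact isAlgebraic_algebraMap
      (⟨_, hy (Sum.inl (Sum.inl s))⟩ : Algebra.adjoin k (Set.range fun j => ((η j : Kˣ) : K)))
  · have h4 : algebraMap ℂ K ((v s : ℂˣ) : ℂ) ∈
        Algebra.adjoin k (Set.range fun j => ((η j : Kˣ) : K)) := by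
      have h5 : algebraMap ℂ K ((v s : ℂˣ) : ℂ) = ((η (Sum.inl (Sum.inr s)) : Kˣ) : K) -
          ((η (Sum.inl (Sum.inl s)) : Kˣ) : K) := by
        rw [hu s]
        ring
      rw [h5]
      exact sub_mem (hy _) (hy _)
    exact isAlgebraic_algebraMap
      (⟨_, h4⟩ : Algebra.adjoin k (Set.range fun j => ((η j : Kˣ) : K)))

end BaseFib

end Pool.Agent.Helper10
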