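import Pool.Agent.Helper10.UV.Main
import Pool.Agent.Helper10.MG5

/-!
The Zilber-Pink statement for all subvarieties is equivalent to the statement for the families
of products of lines.
-/

namespace Pool.Agent.Helper10

theorem finiteForm_of_lineForm {𝔞 : Set ℂˣ} (h1 : (1 : ℂˣ) ∈ 𝔞)
    {𝒞 : (X : Variety) → Set (Set X.Pt) → Prop} (h𝒞 : IsTorusStable 𝔞 𝒞) {X : Variety}
    {𝒮 : Set (Set X.Pt)} (hX : 𝒞 X 𝒮) (h : LineForm 𝔞 𝒞 X 𝒮) {T : Set X.Pt} (hT : T ∈ 𝒮)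
    {V : Set X.Pt} (hV : X.IsSubvariety V) (hVT : V ⊆ T) : FiniteForm X 𝒮 V T := by
  obtain ⟨h𝒮, hdef, hprod⟩ := h𝒞 X 𝒮 hX
  have hPink : ∀ V', X.IsSubvariety V' → V' ⊆ V → ∀ T ∈ 𝒮, V' ⊆ T → PinkForm X 𝒮 V' T := by
    intro V' hV' _ T' hT' hV'T'
    obtain ⟨j, hj⟩ := Variety.exists_dom hV'.2.1
    have hTj : (T' ∩ X.dom j).Nonempty := hj.mono (Set.inter_subset_inter_left _ hV'T')
    apply pinkForm_of_lines h1 h𝒮 (fun S hS => hdef S hS j) hT' hV' hV'T' hj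
    intro k b hb
    obtain ⟨𝒮', hX', hext⟩ := hprod ((X.Coord j ⊕ Fin k) ⊕ (X.Coord j ⊕ Fin k))
    refine ⟨𝒮', (h𝒞 _ _ hX').1, hext, ?_⟩
    have h2 := h T' hT' j hTj k b hb 𝒮' hX' hext
    have heq : Variety.prodSet T' (Set.univ : Set (Torus ((X.Coord j ⊕ Fin k) ⊕
        (X.Coord j ⊕ Fin k)))) =
        {p : (X.prodTorus ((X.Coord j ⊕ Fin k) ⊕ (X.Coord j ⊕ Fin k))).Pt | p.1 ∈ T'} := by
      ext p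
      exact ⟨fun h => h.1, fun h => ⟨h, trivial⟩⟩
    rw [heq]
    exact h2
  have h2 : ∀ V', X.IsSubvariety V' → V' ⊆ V → ∀ T ∈ 𝒮, V' ⊆ T → FiniteForm X 𝒮 V' T :=
    ((forms_tfae h𝒮 V).out 0 3).mpr hPink
  exact h2 V hV subset_rfl T hT hVT

theorem class_iff_lines {𝔞 : Set ℂˣ} (h1 : (1 : ℂˣ) ∈ 𝔞)
    {𝒞 : (X : Variety) → Set (Set X.Pt) → Prop} (h𝒞 : IsTorusStable 𝔞 𝒞) :
    (∀ X 𝒮, 𝒞 X 𝒮 → LineForm 𝔞 𝒞 X 𝒮 →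
      ∀ T ∈ 𝒮, ∀ V, X.IsSubvariety V → V ⊆ T → FiniteForm X 𝒮 V T) ∧
    ((∀ X 𝒮, 𝒞 X 𝒮 → ∀ T ∈ 𝒮, ∀ V, X.IsSubvariety V → V ⊆ T → FiniteForm X 𝒮 V T) ↔
      ∀ X 𝒮, 𝒞 X 𝒮 → LineForm 𝔞 𝒞 X 𝒮) := by
  refine ⟨fun X 𝒮 hX h T hT V hV hVT => finiteForm_of_lineForm h1 h𝒞 hX h hT hV hVT, ?_,
    fun h X 𝒮 hX T hT V hV hVT => finiteForm_of_lineForm h1 h𝒞 hX (h X 𝒮 hX) hT hV hVT⟩
  intro h X 𝒮 hX T hT j hj k b hb 𝒮' hX' hext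
  obtain ⟨h𝒮, -⟩ := h𝒞 X 𝒮 hX
  have hTs := h𝒮.subvariety T hT
  obtain ⟨hW, hWT, -, -⟩ := lineFamily_properties hTs hj b
  have := Fintype.ofFinite ((X.Coord j ⊕ Fin k) ⊕ (X.Coord j ⊕ Fin k))
  have hTu := hext.prod T hT _ isTorsionCoset_univ
  have heq : {p : (X.prodTorus ((X.Coord j ⊕ Fin k) ⊕ (X.Coord j ⊕ Fin k))).Pt |
      p.1 ∈ T ∧ p.2 ∈ (Set.univ : Set (Torus ((X.Coord j ⊕ Fin k) ⊕ (X.Coord j ⊕ Fin k))))} =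
      {p | p.1 ∈ T} := by
    ext p
    exact ⟨fun h => h.1, fun h => ⟨h, trivial⟩⟩
  rw [heq] at hTu
  exact h _ _ hX' _ hTu _ hW hWT

end Pool.Agent.Helper10
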