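import Pool.Agent.Helper10.UV.Tgt
import Pool.Agent.Helper10.Universal

/-!
The points of a variety in small special subvarieties give atypical subvarieties of the
families of lines.
-/

namespace Pool.Agent.Helper10

open MvPolynomial

section General

variable {ν ι κ : Type} [Fintype ν] [Fintype ι] [Fintype κ]

theorem rel_le_of_descent' {k : Type} [Field k] [Algebra k ℂ] {E B : Set (Torus ν)}
    (hF : ∀ F : MvPolynomial ν k, (∀ x ∈ E, value x (MvPolynomial.map (algebraMap k ℂ) F) = 0) →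
        ∀ x ∈ B, value x (MvPolynomial.map (algebraMap k ℂ) F) = 0) : rel E ≤ rel B := by
  classical
  rintro m ⟨N, hN, h⟩
  refine ⟨N, hN, fun x hx => ?_⟩
  set α : ν →₀ ℕ := Finsupp.equivFunOnFinite.symm (fun i => ((N • m) i).toNat) with hα
  set α' : ν →₀ ℕ := Finsupp.equivFunOnFinite.symm (fun i => (-(N • m) i).toNat) with hα'
  have h1 : ∀ y : Torus ν, value y (MvPolynomial.map (algebraMap k ℂ)
      (monomial α 1 - monomial α' 1)) = 0 ↔ chr m y ^ N = 1 := by
    intro y
    rw [map_sub, map_monomial, map_monomial, map_one, value_sub, value_monomial, value_monomial,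
      one_mul, one_mul, sub_eq_zero, ← chr_nsmul, chr_split_pos_neg]
    constructor
    · intro h2
      exact Units.ext h2
    · intro h2
      exact congrArg Units.val h2
  exact (h1 x).mp (hF _ (fun y hy => (h1 y).mpr (h y hy)) x hx)

theorem dk_image_prr_le (k : Type) [Field k] [Algebra k ℂ] {E : Set (Torus (ι ⊕ κ))}
    (hE : IsIrreducible E) {Q : Set (Torus κ)} (hQ : Q = prr '' E) : dk k Q ≤ dk k E := by
  obtain ⟨K, _, _, z, hz⟩ := exists_isGeneric hE
  let _ : Algebra k K := ((algebraMap ℂ K).comp (algebraMap k ℂ)).toAlgebra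
  have _ : IsScalarTower k ℂ K := IsScalarTower.of_algebraMap_eq' rfl
  have h1 := hz.kr_eq k hE
  have h2 : IsGeneric (fun j => z (Sum.inr j)) (prr '' E) := hz.proj Sum.inr
  have h3 := h2.kr_eq k (hE.image _ continuous_prr.continuousOn)
  have h4 : kr k (Set.range fun i => ((z (Sum.inr i) : Kˣ) : K)) ≤
      kr k (Set.range fun i => ((z i : Kˣ) : K)) := by
    apply kr_mono
    rintro _ ⟨j, rfl⟩
    exact ⟨Sum.inr j, rfl⟩
  rw [h1, h3] at h4
  rw [hQ]
  exact_mod_cast h4

end General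

section Lift

variable {ι α β : Type} [Fintype ι] [Fintype α] [Fintype β] {q c t k : ℕ}
  [DecidableEq (Tau (ι ⊕ (α ⊕ β)) q c t)]

theorem exists_family_lift (K : Type) [Field K] [Algebra K ℂ] {χ : ℕ → (Om (ι ⊕ (α ⊕ β)) ⊕ Fin q →₀ ℕ)}
    {G : Fin q → MvPolynomial (ι ⊕ (α ⊕ β)) ℤ} (hχ : Encodes t χ G)
    {av : α → ℂˣ} {bv : β → ℂˣ} {D₀ : ℕ}
    (hav : ∀ a, ∃ r : K, algebraMap K ℂ r = ((av a : ℂˣ) : ℂ))
    {T₀ V₀ S₀ : Set (Torus ι)} (hD : c + D₀ = dm T₀ + Fintype.card β)
    (hD₀ : (D₀ : ℕ∞) ≤ dm V₀ + kr K (Set.range fun b => ((bv b : ℂˣ) : ℂ)))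
    {e : Fin k → α ⊕ (Fin c × Fin (3 * t + 2))} (he : Function.Surjective e)
    (hk : k = Fintype.card α + c * (3 * t + 2))
    {F : Set (MvPolynomial ι K)}
    (hF : S₀ = {x | ∀ f ∈ F, value x (MvPolynomial.map (algebraMap K ℂ) f) = 0})
    (hS₀ : dm S₀ + dm V₀ < dm T₀) {P : Torus ι} (hPS : P ∈ S₀)
    (hPG : ∀ j, aeval (fun s => ((ev P (FF av bv s) : ℂˣ) : ℂ)) (G j) = 0) :
    ∃ (C : Set (Torus ((ι ⊕ Fin k) ⊕ (ι ⊕ Fin k))))
      (B : Set (Torus (ι ⊕ ((ι ⊕ Fin k) ⊕ (ι ⊕ Fin k))))), IsTorsionCoset C ∧ IsSubvariety B ∧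
      B ⊆ linesOver S₀ (lineG (lineB av e)) ∧ (∀ z ∈ B, prr z ∈ C) ∧
      (∀ w ∈ srcFib c t χ (fun s => ev P (FF av bv s)),
        pair P (mono 1 (psiX χ e) w) ∈ B) ∧
      dm S₀ + dm C < dm B + Fintype.card (ι ⊕ Fin k) := by
  classical
  set A := srcFib c t χ (fun s => ev P (FF av bv s)) with hA
  have hAi : IsIrreducible A := isIrreducible_srcFib hχ hPG
  set Q : Set (Torus ((ι ⊕ Fin k) ⊕ (ι ⊕ Fin k))) := mono 1 (psiX χ e) '' A with hQ
  have hQi : IsIrreducible Q := hAi.image _ (continuous_mono _ _).continuousOn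
  have hEi : IsIrreducible (pair P '' Q) := isIrreducible_pair P hQi
  obtain ⟨B, hB, hEB, hdB, hFB⟩ := exists_descent K hEi
  have hHQ := hull_properties hQi
  refine ⟨hull Q, B, hHQ.1, hB, ?_, ?_, ?_, ?_⟩
  · -- the equations of the lines
    have hE : ∀ z ∈ pair P '' Q, z ∈ linesOver S₀ (lineG (lineB av e)) := by
      rintro _ ⟨_, ⟨w, hw, rfl⟩, rfl⟩
      exact psiX_mem_of_srcFib he av bv hPS hw
    intro z hz
    refine ⟨?_, ?_⟩
    · rw [hF]
      intro f hf
      have h1 := hFB (rename Sum.inl f) (by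
        intro y hy
        have h2 := (hE y hy).1
        rw [hF] at h2
        have h3 := h2 f hf
        rw [map_rename]
        unfold value at h3 ⊢
        rw [eval_rename]
        exact h3) z hz
      rw [map_rename] at h1
      unfold value at h1 ⊢
      rw [eval_rename] at h1
      exact h1
    · intro i
      obtain ⟨r, hr⟩ : ∃ r : MvPolynomial (ι ⊕ ((ι ⊕ Fin k) ⊕ (ι ⊕ Fin k))) K,
          ∀ y : Torus (ι ⊕ ((ι ⊕ Fin k) ⊕ (ι ⊕ Fin k))),
            value y (MvPolynomial.map (algebraMap K ℂ) r) =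
              ((ev (prl y) (lineG (lineB av e) i) : ℂˣ) : ℂ) := by
        rcases i with i | m
        · refine ⟨X (Sum.inl i), fun y => ?_⟩
          rw [map_X, value_X]
          rfl
        · rcases hm : e m with a | il
          · obtain ⟨r, hr⟩ := hav a
            refine ⟨C r, fun y => ?_⟩
            rw [map_C, value_C, hr]
            change _ = ((lineB av e m : ℂˣ) : ℂ)
            unfold lineB
            rw [hm]
            rfl
          · refine ⟨1, fun y => ?_⟩
            rw [map_one, value_one]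
            change _ = ((lineB av e m : ℂˣ) : ℂ)
            unfold lineB
            rw [hm]
            rfl
      have h1 := hFB (X (Sum.inr (Sum.inr i)) - (X (Sum.inr (Sum.inl i)) + r)) (by
        intro y hy
        rw [map_sub, map_add, map_X, map_X, value_sub, value_add, value_X, value_X, hr,
          (hE y hy).2 i, sub_self]) z hz
      rw [map_sub, map_add, map_X, map_X, value_sub, value_add, value_X, value_X, hr,
        sub_eq_zero] at h1
      exact h1
  · -- the torsion coset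
    intro z hz m hm y hy
    let m' : ι ⊕ ((ι ⊕ Fin k) ⊕ (ι ⊕ Fin k)) → ℤ := Sum.elim (fun _ => 0) m
    have hm' : ∀ x : Torus (ι ⊕ ((ι ⊕ Fin k) ⊕ (ι ⊕ Fin k))), chr m' x = chr m (prr x) := by
      intro x
      rw [chr_split]
      have h1 : (fun a => m' (Sum.inl a)) = (0 : ι → ℤ) := rfl
      have h2 : (fun a => m' (Sum.inr a)) = m := rfl
      rw [h1, h2, chr_zero, one_mul]
    have h1 : m' ∈ rel (pair P '' Q) := by
      obtain ⟨N, hN, h1⟩ := hm
      refine ⟨N, hN, ?_⟩
      rintro _ ⟨x, hx, rfl⟩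
      rw [hm']
      exact h1 x hx
    have h2 := rel_le_of_descent' hFB h1
    have h3 := chr_eq_of_mem_rel hB.2 h2 hz (hEB ⟨y, hy, rfl⟩)
    rw [hm', hm'] at h3
    exact h3
  · intro w hw
    exact hEB ⟨_, ⟨w, hw, rfl⟩, rfl⟩
  · have h1 := hull_image_defect K hAi (psiX χ e)
    have h2 := dm_hull_srcFib_le (c := c) hχ hPG
    have h3 := dk_srcFib_ge (c := c) K hχ hPG
    have h4 : dk K Q ≤ dk K (pair P '' Q) := by
      apply dk_image_prr_le K hEi
      rw [Set.image_image]
      ext y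
      constructor
      · intro hy
        exact ⟨y, hy, rfl⟩
      · rintro ⟨x, hx, rfl⟩
        exact hx
    have h5 : kr K (Set.range fun b => ((bv b : ℂˣ) : ℂ)) ≤
        kr K (Set.range fun s => ((ev P (FF av bv s) : ℂˣ) : ℂ)) := by
      apply kr_mono
      rintro _ ⟨b, rfl⟩
      exact ⟨Sum.inr (Sum.inr b), rfl⟩
    have h6 : Fintype.card (Tau (ι ⊕ (α ⊕ β)) q c t) =
      2 * Fintype.card (ι ⊕ (α ⊕ β)) + 1 + (c * q + 2) + c * (3 * t + 2) := card_Tau
    have h7 : Fintype.card (ι ⊕ (α ⊕ β)) =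
        Fintype.card ι + (Fintype.card α + Fintype.card β) := by
      rw [Fintype.card_sum, Fintype.card_sum]
    have h8 : kr K (Set.range fun b => ((bv b : ℂˣ) : ℂ)) ≠ ⊤ := by
      intro h
      have h9 := (kr_le_encard (k := K) (Set.range fun b => ((bv b : ℂˣ) : ℂ))).trans
        (encard_range_le _)
      rw [h] at h9
      exact absurd h9 (by simp)
    obtain ⟨r, hr⟩ := ENat.ne_top_iff_exists.mp h8
    rw [← hr] at h5 hD₀
    have h9 : Fintype.card (ι ⊕ (α ⊕ β)) + r + (c * q + 2 + c) ≤ dk K A := by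
      have h10 : ((Fintype.card (ι ⊕ (α ⊕ β)) + r + (c * q + 2 + c) : ℕ) : ℕ∞) ≤ dk K A := by
        refine le_trans ?_ h3
        push_cast
        gcongr
      exact_mod_cast h10
    have h10 : D₀ ≤ dm V₀ + r := by exact_mod_cast hD₀
    rw [← hA] at h2
    rw [← hQ] at h1
    rw [Fintype.card_sum, Fintype.card_fin, hdB]
    omega

end Lift

end Pool.Agent.Helper10
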