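import Pool.Agent.Helper10.Slice

/-!
Families of products of lines over subvarieties of tori.
-/

namespace Pool.Agent.Helper10

open MvPolynomial

section Ev

variable {ι : Type}

/-- the value of a coordinate or of a constant -/
def ev (x : Torus ι) (g : ι ⊕ ℂˣ) : ℂˣ := Sum.elim (fun i => x i) id g

/-- the polynomial of a coordinate or of a constant -/
noncomputable def evP {ρ : Type} (f : ι → ρ) (g : ι ⊕ ℂˣ) : MvPolynomial ρ ℂ :=
  Sum.elim (fun i => X (f i)) (fun c => C (c : ℂ)) g

theorem value_evP {ρ : Type} (f : ι → ρ) (g : ι ⊕ ℂˣ) (w : Torus ρ) :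
    value w (evP f g) = ((ev (fun i => w (f i)) g : ℂˣ) : ℂ) := by
  rcases g with i | c
  · exact value_X w _
  · exact value_C w _

/-- the value of a coordinate or of a constant in an extension field -/
noncomputable def evK {K : Type} [Field K] [Algebra ℂ K] (z : ι → K) (g : ι ⊕ ℂˣ) : K :=
  Sum.elim z (fun c => algebraMap ℂ K (c : ℂ)) g

theorem aeval_evP {K : Type} [Field K] [Algebra ℂ K] {ρ : Type} (f : ι → ρ) (g : ι ⊕ ℂˣ)
    (w : ρ → K) : aeval w (evP f g) = evK (fun i => w (f i)) g := by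
  rcases g with i | c
  · exact aeval_X _ _
  · exact aeval_C _ _

theorem add_ne_zero_of_algebraicIndependent {K K' : Type} [Field K] [Field K'] [Algebra K K']
    {α : Type} {s : α → K'ˣ} (hs : AlgebraicIndependent K (fun i => ((s i : K'ˣ) : K')))
    (i : α) (a : K) : ((s i : K'ˣ) : K') + algebraMap K K' a ≠ 0 := by
  classical
  intro h
  have h1 : aeval (fun i => ((s i : K'ˣ) : K')) (X i + C a : MvPolynomial α K) = 0 := by
    rw [map_add, aeval_X, aeval_C]
    exact h
  have h2 := (algebraicIndependent_iff.mp hs) _ h1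
  have hne : (0 : α →₀ ℕ) ≠ Finsupp.single i 1 := by
    intro h0
    have h4 : (0 : α →₀ ℕ) i = (Finsupp.single i 1 : α →₀ ℕ) i := by rw [← h0]
    rw [Finsupp.single_eq_same] at h4
    exact zero_ne_one h4
  have h3 := congrArg (coeff (Finsupp.single i 1)) h2
  rw [coeff_add, coeff_X, coeff_C, if_neg hne, if_pos rfl, coeff_zero, add_zero] at h3
  exact one_ne_zero h3

end Ev

section LinesOver

variable {ι κ : Type} [Fintype ι] [Fintype κ]

/-- the family of products of lines over `V` -/
def linesOver (V : Set (Torus ι)) (g : κ → ι ⊕ ℂˣ) : Set (Torus (ι ⊕ (κ ⊕ κ))) :=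
  {z | prl z ∈ V ∧ ∀ i, ((z (Sum.inr (Sum.inr i)) : ℂˣ) : ℂ) =
    ((z (Sum.inr (Sum.inl i)) : ℂˣ) : ℂ) + ((ev (prl z) (g i) : ℂˣ) : ℂ)}

theorem isClosed_linesOver {V : Set (Torus ι)} (hV : IsClosed V) (g : κ → ι ⊕ ℂˣ) :
    IsClosed (linesOver V g) := by
  have h : linesOver V g = prl ⁻¹' V ∩ zeros (Set.range fun i : κ =>
      X (Sum.inr (Sum.inr i)) - (X (Sum.inr (Sum.inl i)) + evP Sum.inl (g i))) := by
    ext z
    constructor
    · rintro ⟨h1, h2⟩
      refine ⟨h1, ?_⟩
      rintro _ ⟨i, rfl⟩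
      rw [value_sub, value_add, value_X, value_X, value_evP, h2 i]
      exact sub_self _
    · rintro ⟨h1, h2⟩
      refine ⟨h1, fun i => ?_⟩
      have h3 := h2 _ ⟨i, rfl⟩
      rw [value_sub, value_add, value_X, value_X, value_evP, sub_eq_zero] at h3
      exact h3
  rw [h]
  exact (hV.preimage continuous_prl).inter (isClosed_zeros _)

/-- the parametrisation of the family -/
noncomputable def linesMap (g : κ → ι ⊕ ℂˣ) (j : ι ⊕ (κ ⊕ κ)) : MvPolynomial (ι ⊕ κ) ℂ :=
  Sum.elim (fun i => X (Sum.inl i)) (Sum.elim (fun i => X (Sum.inr i))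
    (fun i => X (Sum.inr i) + evP Sum.inl (g i))) j

omit [Fintype ι] [Fintype κ] in
theorem linesOver_eq (V : Set (Torus ι)) (g : κ → ι ⊕ ℂˣ) :
    linesOver V g = {v | ∃ w ∈ {w : Torus (ι ⊕ κ) | prl w ∈ V}, ∀ j,
      ((v j : ℂˣ) : ℂ) = value w (linesMap g j)} := by
  ext v
  constructor
  · rintro ⟨h1, h2⟩
    refine ⟨pair (prl v) (fun i => v (Sum.inr (Sum.inl i))), h1, ?_⟩
    rintro (i | i | i)
    · change _ = value _ (X (Sum.inl i))
      rw [value_X]
      rfl
    · change _ = value _ (X (Sum.inr i))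
      rw [value_X]
      rfl
    · change _ = value _ (X (Sum.inr i) + evP Sum.inl (g i))
      rw [value_add, value_X, value_evP]
      exact h2 i
  · rintro ⟨w, hw, hv⟩
    have h1 : prl v = prl w := by
      funext a
      have h2 := hv (Sum.inl a)
      change _ = value _ (X (Sum.inl a)) at h2
      rw [value_X] at h2
      exact Units.ext h2
    refine ⟨by rw [h1]; exact hw, fun i => ?_⟩
    have h2 := hv (Sum.inr (Sum.inl i))
    have h3 := hv (Sum.inr (Sum.inr i))
    change _ = value _ (X (Sum.inr i)) at h2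
    change _ = value _ (X (Sum.inr i) + evP Sum.inl (g i)) at h3
    rw [value_X] at h2
    rw [value_add, value_X, value_evP] at h3
    rw [h3, h2, h1]
    rfl

/-- the generic point of the family -/
theorem exists_isGeneric_linesOver {V : Set (Torus ι)} (hV : IsIrreducible V)
    (g : κ → ι ⊕ ℂˣ) : ∃ (K : Type) (_ : Field K) (_ : Algebra ℂ K) (K' : Type) (_ : Field K')
      (_ : Algebra ℂ K') (_ : Algebra K K') (_ : IsScalarTower ℂ K K') (z : ι → Kˣ)
      (η : ι ⊕ (κ ⊕ κ) → K'ˣ), IsGeneric z V ∧ IsGeneric η (linesOver V g) ∧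
      (∀ i, ((η (Sum.inl i) : K'ˣ) : K') = algebraMap K K' ((z i : Kˣ) : K)) ∧
      AlgebraicIndependent K (fun i => ((η (Sum.inr (Sum.inl i)) : K'ˣ) : K')) ∧
      ∀ i, ((η (Sum.inr (Sum.inr i)) : K'ˣ) : K') = ((η (Sum.inr (Sum.inl i)) : K'ˣ) : K') +
        evK (fun i => ((η (Sum.inl i) : K'ˣ) : K')) (g i) := by
  obtain ⟨K, _, _, z, hz⟩ := exists_isGeneric hV
  obtain ⟨K', _, _, s, hs⟩ := exists_extension_field K κ
  let _ : Algebra ℂ K' := ((algebraMap K K').comp (algebraMap ℂ K)).toAlgebra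
  have _ : IsScalarTower ℂ K K' := IsScalarTower.of_algebraMap_eq' rfl
  have h1 := hz.prodFull hs (z' := fun a => Units.map (algebraMap K K').toMonoidHom (z a))
    (fun _ => rfl)
  have hev : ∀ i, evK (fun i => algebraMap K K' ((z i : Kˣ) : K)) (g i) =
      algebraMap K K' (evK (fun i => ((z i : Kˣ) : K)) (g i)) := by
    intro i
    rcases g i with l | c
    · rfl
    · exact IsScalarTower.algebraMap_apply ℂ K K' _
  have hne : ∀ i, ((s i : K'ˣ) : K') + evK (fun i => algebraMap K K' ((z i : Kˣ) : K)) (g i) ≠ 0 := by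
    intro i
    rw [hev]
    exact add_ne_zero_of_algebraicIndependent hs i _
  let η : ι ⊕ (κ ⊕ κ) → K'ˣ := Sum.elim
    (fun a => Units.map (algebraMap K K').toMonoidHom (z a)) (Sum.elim s fun i => Units.mk0 _ (hne i))
  refine ⟨K, inferInstance, inferInstance, K', inferInstance, inferInstance, inferInstance,
    inferInstance, z, η, hz, ?_, fun _ => rfl, hs, fun _ => rfl⟩
  rw [linesOver_eq]
  refine h1.reg (linesMap g) η ?_
  rintro (i | i | i)
  · change _ = aeval _ (X (Sum.inl i))
    rw [aeval_X]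
    rfl
  · change _ = aeval _ (X (Sum.inr i))
    rw [aeval_X]
    rfl
  · change _ = aeval _ (X (Sum.inr i) + evP Sum.inl (g i))
    rw [map_add, aeval_X, aeval_evP]
    rfl

theorem isIrreducible_linesOver {V : Set (Torus ι)} (hV : IsIrreducible V) (g : κ → ι ⊕ ℂˣ) :
    IsIrreducible (linesOver V g) := by
  obtain ⟨K, _, _, K', _, _, _, _, z, η, hz, hη, -⟩ := exists_isGeneric_linesOver hV g
  exact hη.isIrreducible

theorem dm_linesOver {V : Set (Torus ι)} (hV : IsIrreducible V) (g : κ → ι ⊕ ℂˣ) :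
    dm (linesOver V g) = dm V + Fintype.card κ := by
  obtain ⟨K, _, _, K', _, _, _, _, z, η, hz, hη, h1, h2, h3⟩ := exists_isGeneric_linesOver hV g
  have h4 := hη.kr_eq ℂ hη.isIrreducible
  have h5 := hz.kr_eq ℂ hV
  rw [dk_complex] at h4 h5
  have himg : (fun i => ((η (Sum.inl i) : K'ˣ) : K')) '' Set.univ =
      algebraMap K K' '' (Set.range fun i => ((z i : Kˣ) : K)) := by
    rw [Set.image_univ, ← Set.range_comp]
    congr 1
    funext i
    exact h1 i
  have hcard : ENat.card κ = Fintype.card κ := by simp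
  have h6 := kr_add_le (k := ℂ) (Set.range fun i => ((z i : Kˣ) : K)) h2
  rw [h5, hcard] at h6
  have h7 : (Fintype.card κ : ℕ∞) + dm V ≤ dm (linesOver V g) := by
    rw [← h4]
    refine h6.trans (kr_mono ?_)
    apply Set.union_subset
    · rintro _ ⟨i, rfl⟩
      exact ⟨Sum.inr (Sum.inl i), rfl⟩
    · rw [← himg]
      rintro _ ⟨i, -, rfl⟩
      exact ⟨Sum.inl i, rfl⟩
  have h8 : (dm (linesOver V g) : ℕ∞) ≤ dm V + Fintype.card κ := by
    rw [← h4]
    have h9 : kr ℂ (Set.range fun j => ((η j : K'ˣ) : K')) ≤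
        kr ℂ (algebraMap K K' '' (Set.range fun i => ((z i : Kˣ) : K)) ∪
          Set.range fun i => ((η (Sum.inr (Sum.inl i)) : K'ˣ) : K')) := by
      apply kr_le_of_isAlgebraic
      have hx : ∀ i, ((η (Sum.inl i) : K'ˣ) : K') ∈ Algebra.adjoin ℂ
          (algebraMap K K' '' (Set.range fun i => ((z i : Kˣ) : K)) ∪
            Set.range fun i => ((η (Sum.inr (Sum.inl i)) : K'ˣ) : K')) := by
        intro i
        apply Algebra.subset_adjoin
        left
        rw [← himg]
        exact ⟨i, trivial, rfl⟩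
      have hy : ∀ i, ((η (Sum.inr (Sum.inl i)) : K'ˣ) : K') ∈ Algebra.adjoin ℂ
          (algebraMap K K' '' (Set.range fun i => ((z i : Kˣ) : K)) ∪
            Set.range fun i => ((η (Sum.inr (Sum.inl i)) : K'ˣ) : K')) :=
        fun i => Algebra.subset_adjoin (Or.inr ⟨i, rfl⟩)
      rintro _ ⟨j, rfl⟩
      have hmem : ((η j : K'ˣ) : K') ∈ Algebra.adjoin ℂ
          (algebraMap K K' '' (Set.range fun i => ((z i : Kˣ) : K)) ∪
            Set.range fun i => ((η (Sum.inr (Sum.inl i)) : K'ˣ) : K')) := by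
        rcases j with i | i | i
        · exact hx i
        · exact hy i
        · rw [h3 i]
          apply add_mem (hy i)
          rcases g i with l | c
          · exact hx l
          · exact algebraMap_mem _ _
      exact isAlgebraic_algebraMap (⟨_, hmem⟩ : Algebra.adjoin ℂ
          (algebraMap K K' '' (Set.range fun i => ((z i : Kˣ) : K)) ∪
            Set.range fun i => ((η (Sum.inr (Sum.inl i)) : K'ˣ) : K')))
    refine h9.trans ((kr_union_le _ _).trans ?_)
    gcongr
    · rw [← h5]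
      exact kr_map_le (IsScalarTower.toAlgHom ℂ K K') _
    · exact (kr_le_encard _).trans (encard_range_le _)
  have h9 : Fintype.card κ + dm V ≤ dm (linesOver V g) := by exact_mod_cast h7
  have h10 : dm (linesOver V g) ≤ dm V + Fintype.card κ := by exact_mod_cast h8
  omega

end LinesOver

end Pool.Agent.Helper10
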