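import Pool.Agent.Helper10.UV.Psi
import Pool.Agent.Helper10.MG4

/-!
Torsion cosets of the source and the target, and the comparison of dimensions.
-/

namespace Pool.Agent.Helper10

open MvPolynomial

section Cosets

variable {ν : Type} [Fintype ν]

/-- exponents supported at one coordinate -/
def coordLat (o : ν) : Submodule ℤ (ν → ℤ) where
  carrier := {m | ∀ j, j ≠ o → m j = 0}
  add_mem' := by
    intro a b ha hb j hj
    rw [Pi.add_apply, ha j hj, hb j hj, add_zero]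
  zero_mem' := fun _ _ => rfl
  smul_mem' := by
    intro r a ha j hj
    rw [Pi.smul_apply, ha j hj, smul_zero]

theorem finrank_coordLat (o : ν) : Module.finrank ℤ (coordLat o) = 1 := by
  classical
  let e : coordLat o ≃ₗ[ℤ] ℤ :=
    { toFun := fun m => m.1 o
      map_add' := fun _ _ => rfl
      map_smul' := fun _ _ => rfl
      invFun := fun k => ⟨(Pi.single o k : ν → ℤ), by
        intro j hj
        rw [Pi.single_eq_of_ne hj]⟩
      left_inv := by
        rintro ⟨m, hm⟩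
        apply Subtype.ext
        funext j
        change (Pi.single o (m o) : ν → ℤ) j = m j
        by_cases hj : j = o
        · subst hj
          exact Pi.single_eq_same _ _
        · rw [Pi.single_eq_of_ne hj, hm j hj]
      right_inv := by
        intro k
        change (Pi.single o k : ν → ℤ) o = k
        exact Pi.single_eq_same _ _ }
  rw [e.finrank_eq, Module.finrank_self]

theorem chr_of_coordLat {o : ν} {m : ν → ℤ} (hm : m ∈ coordLat o) (x : Torus ν) :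
    chr m x = x o ^ m o := by
  classical
  have h : m = Pi.single o (m o) := by
    funext j
    by_cases hj : j = o
    · subst hj
      rw [Pi.single_eq_same]
    · rw [Pi.single_eq_of_ne hj, hm j hj]
  conv_lhs => rw [h]
  rw [chr_single]

theorem coordCoset_properties (o : ν) :
    IsTorsionCoset {w : Torus ν | w o = -1} ∧
      dm {w : Torus ν | w o = -1} + 1 = Fintype.card ν := by
  classical
  have hsat : Sat (coordLat o) := by
    intro k m hk h j hj
    have h1 := h j hj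
    rw [Pi.smul_apply, smul_eq_mul, mul_eq_zero] at h1
    exact h1.resolve_left hk
  have h := cosetOf_properties hsat (a := fun _ => -1) (by
    intro m hm
    refine ⟨2, by norm_num, ?_⟩
    rw [chr_of_coordLat hm, ← zpow_natCast, ← zpow_mul, mul_comm, zpow_mul]
    simp)
  have heq : cosetOf (coordLat o) (fun _ => -1) = {w : Torus ν | w o = -1} := by
    ext x
    rw [mem_cosetOf]
    constructor
    · intro hx
      have h1 := hx (Pi.single o 1) (fun j hj => Pi.single_eq_of_ne hj 1)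
      rw [chr_single, chr_single, zpow_one, zpow_one] at h1
      exact h1
    · intro hx m hm
      rw [chr_of_coordLat hm, chr_of_coordLat hm]
      have hx' : x o = -1 := hx
      rw [hx']
  rw [heq, finrank_coordLat] at h
  exact ⟨h.1, h.2.2.1⟩

variable {ι κ : Type} [Fintype ι] [Fintype κ]

/-- the projection as a homomorphism -/
def prrHom (ι κ : Type) : Torus (ι ⊕ κ) →* Torus κ where
  toFun := prr
  map_one' := rfl
  map_mul' := fun _ _ => rfl

theorem prodCoset_properties {S : Set (Torus κ)} (hS : IsTorsionCoset S) :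
    IsTorsionCoset {z : Torus (ι ⊕ κ) | prr z ∈ S} ∧
      dm {z : Torus (ι ⊕ κ) | prr z ∈ S} = Fintype.card ι + dm S := by
  have hSv := hS.isSubvariety
  have h0 : {z : Torus (ι ⊕ κ) | prr z ∈ S} =
      {z | prl z ∈ (Set.univ : Set (Torus ι)) ∧ prr z ∈ S} := by
    ext z
    exact ⟨fun h => ⟨trivial, h⟩, fun h => h.2⟩
  constructor
  · obtain ⟨H, ζ, hcl, hconn, hζ, rfl⟩ := hS
    have hH : IsTorsionCoset (H : Set (Torus κ)) :=
      ⟨H, 1, hcl, hconn, IsOfFinOrder.one, by simp⟩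
    refine ⟨H.comap (prrHom ι κ), pair 1 ζ, ?_, ?_, ?_, ?_⟩
    · exact hcl.preimage continuous_prr
    · have h1 := isIrreducible_prod (isIrreducible_univ (ι := ι)) hH.isSubvariety.2
      have h2 : ((H.comap (prrHom ι κ) : Subgroup (Torus (ι ⊕ κ))) : Set (Torus (ι ⊕ κ))) =
          {z | prl z ∈ (Set.univ : Set (Torus ι)) ∧ prr z ∈ (H : Set (Torus κ))} := by
        ext z
        exact ⟨fun h => ⟨trivial, h⟩, fun h => h.2⟩
      rw [h2]
      exact ⟨h1.1, h1.2.isPreconnected⟩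
    · rw [isOfFinOrder_iff_pow_eq_one] at hζ ⊢
      obtain ⟨N, hN, h1⟩ := hζ
      refine ⟨N, hN, ?_⟩
      funext j
      rcases j with j | j
      · exact one_pow N
      · exact congrFun h1 j
    · ext z
      constructor
      · rintro ⟨h, hh, he⟩
        refine ⟨pair (prl z) h, hh, ?_⟩
        funext j
        rcases j with j | j
        · exact one_mul _
        · exact congrFun he j
      · rintro ⟨y, hy, rfl⟩
        exact ⟨prr y, hy, rfl⟩
  · rw [h0]
    apply le_antisymm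
    · have h1 := isIrreducible_prod (isIrreducible_univ (ι := ι)) hSv.2
      have h2 := dm_le_of_proj h1 (A := Set.univ) (B := S) (fun z hz => hz.1) (fun z hz => hz.2)
      rw [dm_univ] at h2
      exact h2
    · have h1 := dm_prod_ge (isSubvariety_univ (ι := ι)) hSv
      rw [dm_univ] at h1
      exact h1

end Cosets

section Main

variable {ι α β : Type} [Fintype ι] [Fintype α] [Fintype β] {q c t k : ℕ}
  [DecidableEq (Tau (ι ⊕ (α ⊕ β)) q c t)]

/-- the point of finite order in the image of the coset of the source -/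
noncomputable def zeta (χ : ℕ → (Om (ι ⊕ (α ⊕ β)) ⊕ Fin q →₀ ℕ))
    (e : Fin k → α ⊕ (Fin c × Fin (3 * t + 2))) : Torus ((ι ⊕ Fin k) ⊕ (ι ⊕ Fin k)) :=
  mono 1 (psiX χ e) (fun _ => -1 : Torus (Tau (ι ⊕ (α ⊕ β)) q c t))

theorem isOfFinOrder_zeta (χ : ℕ → (Om (ι ⊕ (α ⊕ β)) ⊕ Fin q →₀ ℕ))
    (e : Fin k → α ⊕ (Fin c × Fin (3 * t + 2))) : IsOfFinOrder (zeta χ e) := by
  rw [isOfFinOrder_iff_pow_eq_one]
  refine ⟨2, by norm_num, ?_⟩
  funext j
  change (1 * chr (psiX χ e j) (fun _ => -1 : Torus (Tau (ι ⊕ (α ⊕ β)) q c t))) ^ 2 = 1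
  rw [one_mul, ← chr_nsmul]
  unfold chr
  apply Finset.prod_eq_one
  intro i _
  change (-1 : ℂˣ) ^ ((2 : ℕ) • psiX χ e j) i = 1
  rw [Pi.smul_apply, nsmul_eq_mul, zpow_mul]
  simp

/-- if the fibre of the source set is mapped to a coset of a closed connected subgroup, this coset
is a torsion coset which contains the image of the coset of the source -/
theorem torsion_translate {χ : ℕ → (Om (ι ⊕ (α ⊕ β)) ⊕ Fin q →₀ ℕ)}
    {G : Fin q → MvPolynomial (ι ⊕ (α ⊕ β)) ℤ} (hχ : Encodes t χ G)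
    {v : ι ⊕ (α ⊕ β) → ℂˣ} (hv : ∀ j, aeval (fun s => ((v s : ℂˣ) : ℂ)) (G j) = 0)
    (e : Fin k → α ⊕ (Fin c × Fin (3 * t + 2)))
    {H : Subgroup (Torus ((ι ⊕ Fin k) ⊕ (ι ⊕ Fin k)))}
    (hcl : IsClosed (H : Set (Torus ((ι ⊕ Fin k) ⊕ (ι ⊕ Fin k)))))
    {g : Torus ((ι ⊕ Fin k) ⊕ (ι ⊕ Fin k))}
    (hg : ∀ w ∈ srcFib c t χ v, g⁻¹ * mono 1 (psiX χ e) w ∈ H) :
    (∀ h, g⁻¹ * h ∈ H ↔ (zeta χ e)⁻¹ * h ∈ H) ∧
      ∀ w : Torus (Tau (ι ⊕ (α ⊕ β)) q c t), w (Sum.inl (Sum.inl (Sum.inr ()))) = -1 →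
        (zeta χ e)⁻¹ * mono 1 (psiX χ e) w ∈ H := by
  set o : Tau (ι ⊕ (α ⊕ β)) q c t := Sum.inl (Sum.inl (Sum.inr ())) with ho
  have hchr : ∀ n : (ι ⊕ Fin k) ⊕ (ι ⊕ Fin k) → ℤ, (∀ h ∈ H, chr n h = 1) →
      ∑ j, n j • psiX χ e j ∈ coordLat o := by
    intro n hn
    have h1 : ∀ w ∈ srcFib c t χ v, chr (∑ j, n j • psiX χ e j) w = chr n g := by
      intro w hw
      have h2 := hn _ (hg w hw)
      have h3 : chr n (g⁻¹ * mono 1 (psiX χ e) w) =
          (chr n g)⁻¹ * chr n (mono 1 (psiX χ e) w) := by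
        have h4 := map_mul (chrHom n) g⁻¹ (mono 1 (psiX χ e) w)
        have h5 := map_inv (chrHom n) g
        change chr n (g⁻¹ * mono 1 (psiX χ e) w) = chr n g⁻¹ * chr n (mono 1 (psiX χ e) w) at h4
        change chr n g⁻¹ = (chr n g)⁻¹ at h5
        rw [h4, h5]
      rw [h3, inv_mul_eq_one, chr_mono, chr_one, one_mul] at h2
      exact h2.symm
    obtain ⟨h2, h3, h4⟩ := const_srcFib hχ hv h1
    rintro (((s | u) | r) | il) hj
    · exact h4 s
    · exact absurd rfl hj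
    · exact h3 r
    · exact h2 il
  have hdiff : ∀ w w' : Torus (Tau (ι ⊕ (α ⊕ β)) q c t), w o = -1 → w' o = -1 →
      (mono 1 (psiX χ e) w')⁻¹ * mono 1 (psiX χ e) w ∈ H := by
    intro w w' hw hw'
    rw [mem_subgroup_iff H hcl]
    intro n hn
    have h4 := map_mul (chrHom n) (mono 1 (psiX χ e) w')⁻¹ (mono 1 (psiX χ e) w)
    have h5 := map_inv (chrHom n) (mono 1 (psiX χ e) w')
    change chr n ((mono 1 (psiX χ e) w')⁻¹ * mono 1 (psiX χ e) w) =
      chr n (mono 1 (psiX χ e) w')⁻¹ * chr n (mono 1 (psiX χ e) w) at h4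
    change chr n (mono 1 (psiX χ e) w')⁻¹ = (chr n (mono 1 (psiX χ e) w'))⁻¹ at h5
    rw [h4, h5, inv_mul_eq_one, chr_mono, chr_mono, chr_one, one_mul, one_mul,
      chr_of_coordLat (hchr n hn), chr_of_coordLat (hchr n hn), hw, hw']
  let w₀ : Torus (Tau (ι ⊕ (α ⊕ β)) q c t) := fun _ => -1
  have hw₀ : w₀ o = -1 := rfl
  obtain ⟨w₁, hw₁⟩ := (isIrreducible_srcFib (c := c) hχ hv).nonempty
  have hw₁o : w₁ o = -1 := by
    apply Units.ext
    rw [Units.val_neg, Units.val_one]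
    exact hw₁.1.2
  have hgζ : g⁻¹ * zeta χ e ∈ H := by
    have h1 := mul_mem (hg w₁ hw₁) (hdiff w₀ w₁ hw₀ hw₁o)
    have h2 : g⁻¹ * mono 1 (psiX χ e) w₁ * ((mono 1 (psiX χ e) w₁)⁻¹ * mono 1 (psiX χ e) w₀) =
        g⁻¹ * mono 1 (psiX χ e) w₀ := by group
    rwa [h2] at h1
  refine ⟨?_, fun w hw => hdiff w w₀ hw hw₀⟩
  intro h
  constructor
  · intro h1
    have h2 := mul_mem (inv_mem hgζ) h1
    have h3 : (g⁻¹ * zeta χ e)⁻¹ * (g⁻¹ * h) = (zeta χ e)⁻¹ * h := by
      group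
    rwa [h3] at h2
  · intro h1
    have h2 := mul_mem hgζ h1
    have h3 : (g⁻¹ * zeta χ e) * ((zeta χ e)⁻¹ * h) = g⁻¹ * h := by
      group
    rwa [h3] at h2

/-- the source set is not mapped into an atypical subvariety -/
theorem not_mapsTo_of_atypical {χ : ℕ → (Om (ι ⊕ (α ⊕ β)) ⊕ Fin q →₀ ℕ)}
    {G : Fin q → MvPolynomial (ι ⊕ (α ⊕ β)) ℤ} (hχ : Encodes t χ G)
    {av : α → ℂˣ} {bv : β → ℂˣ} {D₀ : ℕ}
    (hG : ∀ (K : Type) [Field K] [Algebra ℂ K] (z : ι ⊕ (α ⊕ β) → K),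
      (∀ a, z (Sum.inr (Sum.inl a)) = algebraMap ℂ K ((av a : ℂˣ) : ℂ)) →
      (∀ j, aeval z (G j) = 0) →
      kr ℂ (Set.range fun j : ι ⊕ β => z (Sum.elim Sum.inl (fun b => Sum.inr (Sum.inr b)) j)) ≤ D₀)
    {T₀ V₀ : Set (Torus ι)} (hV₀ : IsIrreducible V₀) (hD : c + D₀ = dm T₀ + Fintype.card β)
    (hVG : ∀ x ∈ V₀, ∀ j, aeval (fun s => ((ev x (FF av bv s) : ℂˣ) : ℂ)) (G j) = 0)
    {e : Fin k → α ⊕ (Fin c × Fin (3 * t + 2))} (he : Function.Surjective e)
    (hk : k = Fintype.card α + c * (3 * t + 2))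
    {S : Set (Torus ((ι ⊕ Fin k) ⊕ (ι ⊕ Fin k)))} (hS : IsTorsionCoset S)
    (hoS : ∀ w : Torus (Tau (ι ⊕ (α ⊕ β)) q c t), w (Sum.inl (Sum.inl (Sum.inr ()))) = -1 →
      mono 1 (psiX χ e) w ∈ S)
    {B : Set (Torus (ι ⊕ ((ι ⊕ Fin k) ⊕ (ι ⊕ Fin k))))} (hB : IsSubvariety B)
    (hBW : B ⊆ linesOver T₀ (lineG (lineB av e))) (hBS : ∀ z ∈ B, prr z ∈ S)
    (hdim : dm T₀ + dm S < dm B + Fintype.card (ι ⊕ Fin k)) :
    ¬ ∀ x ∈ V₀, ∀ w ∈ srcFib c t χ (fun s => ev x (FF av bv s)),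
      pair x (mono 1 (psiX χ e) w) ∈ B := by
  classical
  intro hsub
  set o : Tau (ι ⊕ (α ⊕ β)) q c t := Sum.inl (Sum.inl (Sum.inr ())) with ho
  obtain ⟨h1, h2⟩ := coordCoset_properties o
  obtain ⟨h3, h4⟩ := prodCoset_properties (ι := ι) h1
  obtain ⟨h5, h6⟩ := prodCoset_properties (ι := ι) hS
  have hE := isIrreducible_srcTot (c := c) hχ (FF av bv) hV₀ hVG
  obtain ⟨Y, hY, hEY, hYT, hYB, hd⟩ := exists_preimage_component' 1 (PsiX χ e) h3 h5
    (by
      intro z hz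
      rw [mono_PsiX]
      exact hoS _ hz) hB hBS hE
    (by
      intro z hz
      change prr z o = -1
      apply Units.ext
      rw [Units.val_neg, Units.val_one]
      exact hz.2.1.2)
    (by
      intro z hz
      rw [mono_PsiX]
      exact hsub _ hz.1 _ hz.2)
  have hmem : ∀ v ∈ Y, pair (prl v) (mono 1 (psiX χ e) (prr v)) ∈
      linesOver T₀ (lineG (lineB av e)) := by
    intro v hv
    have h7 := hBW (hYB v hv)
    rwa [mono_PsiX] at h7
  have h7 := dm_le_of_lines hχ hG hD hY.2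
    (fun v hv => ((psiX_mem_iff χ he av T₀ _ _).mp (hmem v hv)).1)
    (fun v hv => ((psiX_mem_iff χ he av T₀ _ _).mp (hmem v hv)).2.1)
    (fun v hv => ((psiX_mem_iff χ he av T₀ _ _).mp (hmem v hv)).2.2.1)
    (fun v hv => by
      have h8 : prr v o = -1 := hYT hv
      have h9 := congrArg Units.val h8
      rw [Units.val_neg, Units.val_one] at h9
      exact h9)
    (fun v hv => ((psiX_mem_iff χ he av T₀ _ _).mp (hmem v hv)).2.2.2)
  have h8 : Fintype.card (Tau (ι ⊕ (α ⊕ β)) q c t) =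
    2 * Fintype.card (ι ⊕ (α ⊕ β)) + 1 + (c * q + 2) + c * (3 * t + 2) := card_Tau
  have h9 : Fintype.card (ι ⊕ (α ⊕ β)) = Fintype.card ι + (Fintype.card α + Fintype.card β) := by
    rw [Fintype.card_sum, Fintype.card_sum]
  rw [Fintype.card_sum, Fintype.card_fin] at hdim
  rw [h4, h6] at hd
  rw [h8] at h2
  omega

end Main

end Pool.Agent.Helper10
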