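import Pool.Agent.Helper10.UV.Defs
import Pool.Agent.Helper10.UV.Tgt
import Pool.Agent.Helper10.Forms
import Pool.Agent.Helper10.Universal

/-!
Special subvarieties of `X × 𝔾_m ^ κ` which contain a product with a generic base.
-/

namespace Pool.Agent.Helper10

open MvPolynomial

section Cosets

variable {κ : Type} [Finite κ]

theorem isTorsionCoset_translate {H : Subgroup (Torus κ)} (hcl : IsClosed (H : Set (Torus κ)))
    (hconn : IsConnected (H : Set (Torus κ))) {ζ : Torus κ} (hζ : IsOfFinOrder ζ) :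
    IsTorsionCoset {t : Torus κ | ζ⁻¹ * t ∈ H} := by
  refine ⟨H, ζ, hcl, hconn, hζ, ?_⟩
  ext t
  constructor
  · intro ht
    exact ⟨ζ⁻¹ * t, ht, by group⟩
  · rintro ⟨h, hh, rfl⟩
    change ζ⁻¹ * (ζ * h) ∈ H
    rwa [inv_mul_cancel_left]

theorem translate_eq_image (H : Subgroup (Torus κ)) (g : Torus κ) :
    {t : Torus κ | g⁻¹ * t ∈ H} = (fun h => g * h) '' (H : Set (Torus κ)) := by
  ext t
  constructor
  · intro ht
    exact ⟨g⁻¹ * t, ht, by group⟩
  · rintro ⟨h, hh, rfl⟩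
    change g⁻¹ * (g * h) ∈ H
    rwa [inv_mul_cancel_left]

theorem isClosedEmbedding_mulLeft (g : Torus κ) :
    Topology.IsClosedEmbedding (fun t : Torus κ => g * t) := by
  have := Fintype.ofFinite κ
  let e : Torus κ ≃ₜ Torus κ :=
    { toFun := fun t => g * t
      invFun := fun t => g⁻¹ * t
      left_inv := fun t => inv_mul_cancel_left g t
      right_inv := fun t => mul_inv_cancel_left g t
      continuous_toFun := continuous_mulLeft g
      continuous_invFun := continuous_mulLeft g⁻¹ }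
  exact e.isClosedEmbedding

theorem isSubvariety_subgroup {H : Subgroup (Torus κ)} (hcl : IsClosed (H : Set (Torus κ)))
    (hconn : IsConnected (H : Set (Torus κ))) : IsSubvariety (H : Set (Torus κ)) := by
  have := Fintype.ofFinite κ
  have h : IsTorsionCoset (H : Set (Torus κ)) :=
    ⟨H, 1, hcl, hconn, IsOfFinOrder.one, by simp⟩
  exact h.isSubvariety

theorem dm_translate {H : Subgroup (Torus κ)} (hcl : IsClosed (H : Set (Torus κ)))
    (hconn : IsConnected (H : Set (Torus κ))) (g : Torus κ) :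
    IsSubvariety {t : Torus κ | g⁻¹ * t ∈ H} ∧
      dm {t : Torus κ | g⁻¹ * t ∈ H} = dm (H : Set (Torus κ)) := by
  have := Fintype.ofFinite κ
  rw [translate_eq_image]
  have h1 := isSubvariety_subgroup hcl hconn
  exact ⟨IsSubvariety.image (isClosedEmbedding_mulLeft g) h1,
    dm_image (isClosedEmbedding_mulLeft g) h1⟩

end Cosets

section Spec

variable {X : Variety} {𝒮 : Set (Set X.Pt)} {κ : Type} [Finite κ]
  {𝒮' : Set (Set (X.prodTorus κ).Pt)}

/-- the image of a set in `X` -/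
def shadow (S' : Set (X.prodTorus κ).Pt) : Set X.Pt :=
  {x : X.Pt | ∃ t, ((x, t) : (X.prodTorus κ).Pt) ∈ S'}

theorem shadow_closure_subset {T : Set X.Pt} (hT : IsClosed T) {S' : Set (X.prodTorus κ).Pt}
    (h : ∀ p ∈ S', p.1 ∈ T) : closure (shadow S') ⊆ T := by
  apply closure_minimal _ hT
  rintro x ⟨t, ht⟩
  exact h _ ht

theorem subset_shadow {V : Set X.Pt} (hV : X.IsSubvariety V) {j : X.Idx}
    (hj : (V ∩ X.dom j).Nonempty) {S' : Set (X.prodTorus κ).Pt}
    (h : ∀ x ∈ V ∩ X.dom j, ∃ t, ((x, t) : (X.prodTorus κ).Pt) ∈ S') :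
    V ⊆ closure (shadow S') :=
  Variety.subset_of_inter_dom hV.2 hj isClosed_closure
    (fun x hx => subset_closure (h x hx))

theorem special_eq_prod (h𝒮 : IsSpecialStructure X 𝒮)
    (h𝒮' : IsSpecialStructure (X.prodTorus κ) 𝒮') (hext : IsTorusExtension X 𝒮 κ 𝒮')
    {T V : Set X.Pt} (hT : T ∈ 𝒮) (hV : X.IsSubvariety V) (hVT : V ⊆ T)
    (hgen : ∀ S ∈ 𝒮, V ⊆ S → S ⊆ T → S = T)
    {S' : Set (X.prodTorus κ).Pt} (hS' : S' ∈ 𝒮') (hS'T : ∀ p ∈ S', p.1 ∈ T)
    {j : X.Idx} (hj : (V ∩ X.dom j).Nonempty)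
    {H : Subgroup (Torus κ)} (hcl : IsClosed (H : Set (Torus κ)))
    (hconn : IsConnected (H : Set (Torus κ)))
    (hdim : (X.prodTorus κ).dim S' = X.dim (closure (shadow S')) + dim (H : Set (Torus κ)))
    {ζ : Torus κ} (hζ : IsOfFinOrder ζ)
    (hmem : ∀ x ∈ V ∩ X.dom j, ∀ t : Torus κ, ζ⁻¹ * t ∈ H →
      ((x, t) : (X.prodTorus κ).Pt) ∈ S') :
    S' = Variety.prodSet T {t : Torus κ | ζ⁻¹ * t ∈ H} := by
  have hTs := h𝒮.subvariety T hT
  have hS's := h𝒮'.subvariety S' hS'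
  set K : Set (Torus κ) := {t : Torus κ | ζ⁻¹ * t ∈ H} with hK
  have hKt : IsTorsionCoset K := isTorsionCoset_translate hcl hconn hζ
  obtain ⟨hKs, hKd⟩ := dm_translate hcl hconn ζ
  have hζK : ζ ∈ K := by
    change ζ⁻¹ * ζ ∈ H
    rw [inv_mul_cancel]
    exact H.one_mem
  -- the base of a special set
  have hbase : ∀ D ∈ 𝒮', (∀ p ∈ D, p.1 ∈ T) →
      (∀ x ∈ V ∩ X.dom j, ∃ t, ((x, t) : (X.prodTorus κ).Pt) ∈ D) → closure (shadow D) = T := by
    intro D hD hDT hDV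
    exact hgen _ (hext.fibre D hD).1 (subset_shadow hV hj hDV) (shadow_closure_subset hTs.1 hDT)
  have hS₁ : closure (shadow S') = T :=
    hbase S' hS' hS'T (fun x hx => ⟨ζ, hmem x hx ζ hζK⟩)
  have hdimS' : Variety.dm S' = Variety.dm T + dm (H : Set (Torus κ)) := by
    rw [hS₁, Variety.dim_eq hS's, Variety.dim_eq hTs,
      dim_eq_dm (isSubvariety_subgroup hcl hconn)] at hdim
    exact_mod_cast hdim
  -- the product
  have hTK : Variety.prodSet T K ∈ 𝒮' := hext.prod T hT K hKt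
  have hTKs : (X.prodTorus κ).IsSubvariety (Variety.prodSet T K) :=
    Variety.isSubvariety_prodSet hTs hKs
  have hVKi : IsIrreducible (Variety.prodSet V K) := Variety.isIrreducible_prodSet hV.2 hKs.2
  have hVKj : (Variety.prodSet V K ∩ (X.prodTorus κ).dom j).Nonempty := by
    obtain ⟨x, hx⟩ := hj
    exact ⟨((x, ζ) : (X.prodTorus κ).Pt), ⟨hx.1, hζK⟩, hx.2⟩
  have hVKS : Variety.prodSet V K ⊆ S' ∩ Variety.prodSet T K := by
    apply Set.subset_inter
    · apply Variety.subset_of_inter_dom hVKi hVKj hS's.1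
      rintro ⟨x, t⟩ ⟨⟨hx, ht⟩, hxj⟩
      exact hmem x ⟨hx, hxj⟩ t ht
    · rintro p ⟨hp1, hp2⟩
      exact ⟨hVT hp1, hp2⟩
  obtain ⟨D, hD, hVKD⟩ := Variety.exists_component (hS's.1.inter hTKs.1) hVKi hVKS
  have hD' : D ∈ 𝒮' := h𝒮'.component S' hS' _ hTK D hD
  have hDs := h𝒮'.subvariety D hD'
  have hDS : D ⊆ S' := hD.1.2.trans Set.inter_subset_left
  have hDT : D ⊆ Variety.prodSet T K := hD.1.2.trans Set.inter_subset_right
  have hS₂ : closure (shadow D) = T := by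
    apply hbase D hD' (fun p hp => (hDT hp).1)
    intro x hx
    exact ⟨ζ, hVKD ⟨hx.1, hζK⟩⟩
  obtain ⟨-, H', hcl', hconn', hdim', hfib⟩ := hext.fibre D hD'
  have hdimD : Variety.dm D = Variety.dm T + dm (H' : Set (Torus κ)) := by
    have h1 : (X.prodTorus κ).dim D = X.dim (closure (shadow D)) + dim (H' : Set (Torus κ)) :=
      hdim'
    rw [hS₂, Variety.dim_eq hDs, Variety.dim_eq hTs,
      dim_eq_dm (isSubvariety_subgroup hcl' hconn')] at h1
    exact_mod_cast h1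
  -- the dimension of `H'`
  have hHH' : dm (H : Set (Torus κ)) ≤ dm (H' : Set (Torus κ)) := by
    obtain ⟨x, hx⟩ := hj
    obtain ⟨C, hC, hfx⟩ := hfib x
    have h1 : K ⊆ ⋃₀ ((fun g => {t : Torus κ | g⁻¹ * t ∈ H'}) '' C) := by
      intro t ht
      have h2 : t ∈ {t : Torus κ | ((x, t) : (X.prodTorus κ).Pt) ∈ D} := hVKD ⟨hx.1, ht⟩
      rw [hfx] at h2
      obtain ⟨g, hg, htg⟩ := Set.mem_iUnion₂.mp h2
      exact ⟨_, ⟨g, hg, rfl⟩, htg⟩
    obtain ⟨B, ⟨g, hg, rfl⟩, hKB⟩ := exists_superset_of_finite hKs.2 (hC.image _) (by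
      rintro _ ⟨g, hg, rfl⟩
      exact (dm_translate hcl' hconn' g).1.1) h1
    rw [← hKd, ← (dm_translate hcl' hconn' g).2]
    exact dm_le_of_subset hKB
  have hDS' : D = S' := Variety.eq_of_subset_of_dm_le hDs hS's hDS (by omega)
  have hDT' : D = Variety.prodSet T K := by
    apply Variety.eq_of_subset_of_dm_le hDs hTKs hDT
    rw [Variety.dm_prodSet hTs hKs, hKd]
    omega
  rw [← hDS']
  exact hDT'

end Spec

end Pool.Agent.Helper10
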