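import Pool.Agent.Helper10.UV.Data
import Pool.Agent.Helper10.UV.Family
import Pool.Agent.Helper10.UV.Spec
import Pool.Agent.Helper10.UV.Lift
import Pool.Agent.Helper10.MG5

/-!
The Zilber-Pink statement for all subvarieties from that of the families of lines.
-/

namespace Pool.Agent.Helper10

open MvPolynomial

section Main

variable {X : Variety} {𝒮 : Set (Set X.Pt)} {j : X.Idx}

/-- the atypical subvarieties of the family of lines do not contain the source set -/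
theorem not_mapsTo_of_atypical_family [Fintype (X.Coord j)] {α β : Type} [Fintype α] [Fintype β]
    {q c t k : ℕ} [DecidableEq (Tau (X.Coord j ⊕ (α ⊕ β)) q c t)]
    {χ : ℕ → (Om (X.Coord j ⊕ (α ⊕ β)) ⊕ Fin q →₀ ℕ)}
    {G : Fin q → MvPolynomial (X.Coord j ⊕ (α ⊕ β)) ℤ} (hχ : Encodes t χ G)
    {av : α → ℂˣ} {bv : β → ℂˣ} {D₀ : ℕ}
    (hG : ∀ (K : Type) [Field K] [Algebra ℂ K] (z : X.Coord j ⊕ (α ⊕ β) → K),
      (∀ a, z (Sum.inr (Sum.inl a)) = algebraMap ℂ K ((av a : ℂˣ) : ℂ)) →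
      (∀ j, aeval z (G j) = 0) →
      kr ℂ (Set.range fun j : X.Coord j ⊕ β =>
        z (Sum.elim Sum.inl (fun b => Sum.inr (Sum.inr b)) j)) ≤ D₀)
    (h𝒮 : IsSpecialStructure X 𝒮)
    {e : Fin k → α ⊕ (Fin c × Fin (3 * t + 2))} (he : Function.Surjective e)
    (hk : k = Fintype.card α + c * (3 * t + 2))
    {𝒮' : Set (Set (X.prodTorus ((X.Coord j ⊕ Fin k) ⊕ (X.Coord j ⊕ Fin k))).Pt)}
    (h𝒮' : IsSpecialStructure (X.prodTorus ((X.Coord j ⊕ Fin k) ⊕ (X.Coord j ⊕ Fin k))) 𝒮')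
    (hext : IsTorusExtension X 𝒮 ((X.Coord j ⊕ Fin k) ⊕ (X.Coord j ⊕ Fin k)) 𝒮')
    {T V : Set X.Pt} (hT : T ∈ 𝒮) (hV : X.IsSubvariety V) (hVT : V ⊆ T)
    (hgen : ∀ S ∈ 𝒮, V ⊆ S → S ⊆ T → S = T) (hj : (V ∩ X.dom j).Nonempty)
    (hD : c + D₀ = Variety.dm T + Fintype.card β)
    (hVG : ∀ x ∈ Variety.img V j, ∀ j, aeval (fun s => ((ev x (FF av bv s) : ℂˣ) : ℂ)) (G j) = 0)
    {B : Set (X.prodTorus ((X.Coord j ⊕ Fin k) ⊕ (X.Coord j ⊕ Fin k))).Pt}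
    (hB : Atypical (X.prodTorus ((X.Coord j ⊕ Fin k) ⊕ (X.Coord j ⊕ Fin k))) 𝒮'
      (lineFamily X T j (lineB av e)) (Variety.prodSet T Set.univ) B) :
    ¬ ∀ x ∈ Variety.img V j, ∀ w ∈ srcFib c t χ (fun s => ev x (FF av bv s)),
      pair x (mono 1 (psiX χ e) w) ∈ Variety.img
        (X := X.prodTorus ((X.Coord j ⊕ Fin k) ⊕ (X.Coord j ⊕ Fin k))) B j := by
  classical
  intro hsub
  have hTs := h𝒮.subvariety T hT
  have hTj : (T ∩ X.dom j).Nonempty := hj.mono (Set.inter_subset_inter_left _ hVT)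
  obtain ⟨hW, hWT, hWimg, hWdm⟩ := lineFamily_properties hTs hTj (lineB av e)
  obtain ⟨S', hS'sp, hBc, hdim⟩ := hB
  have hTu : Variety.prodSet T (Set.univ : Set (Torus ((X.Coord j ⊕ Fin k) ⊕
      (X.Coord j ⊕ Fin k)))) ∈ 𝒮' := hext.prod T hT _ isTorsionCoset_univ
  obtain ⟨hS', hS'T⟩ := (specialIn_iff h𝒮' hTu).mp hS'sp
  have hS's := h𝒮'.subvariety S' hS'
  obtain ⟨-, H, hcl, hconn, hdimS', hfib⟩ := hext.fibre S' hS'
  set ζ := zeta χ e with hζ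
  -- the fibres of `S'`
  have hfx : ∀ x ∈ V ∩ X.dom j, (∀ t, ζ⁻¹ * t ∈ H →
      ((x, t) : (X.prodTorus ((X.Coord j ⊕ Fin k) ⊕ (X.Coord j ⊕ Fin k))).Pt) ∈ S') ∧
      ∀ w : Torus (Tau (X.Coord j ⊕ (α ⊕ β)) q c t), w (Sum.inl (Sum.inl (Sum.inr ()))) = -1 →
        ζ⁻¹ * mono 1 (psiX χ e) w ∈ H := by
    rintro x ⟨hxV, hxj⟩
    have hxi : X.chart j x ∈ Variety.img V j := (Variety.mem_img hxj).mpr hxV
    obtain ⟨C, hC, hfx⟩ := hfib x
    have hirr := isIrreducible_srcFib (c := c) hχ (hVG _ hxi)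
    have h1 : mono 1 (psiX χ e) '' srcFib c t χ (fun s => ev (X.chart j x) (FF av bv s)) ⊆
        ⋃₀ ((fun g => {t | g⁻¹ * t ∈ H}) '' C) := by
      rintro _ ⟨w, hw, rfl⟩
      have h2 := hsub _ hxi w hw
      have h3 := hBc.1.2 ((Variety.mem_img_prod hxj _).mp h2)
      have h4 : mono 1 (psiX χ e) w ∈ {t |
          ((x, t) : (X.prodTorus ((X.Coord j ⊕ Fin k) ⊕ (X.Coord j ⊕ Fin k))).Pt) ∈ S'} := h3.2
      rw [hfx] at h4
      obtain ⟨g, hg, htg⟩ := Set.mem_iUnion₂.mp h4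
      exact ⟨_, ⟨g, hg, rfl⟩, htg⟩
    obtain ⟨_, ⟨g, hg, rfl⟩, hgs⟩ := exists_superset_of_finite
      (hirr.image _ (continuous_mono _ _).continuousOn) (hC.image _) (by
      rintro _ ⟨g, hg, rfl⟩
      exact (dm_translate hcl hconn g).1.1) h1
    obtain ⟨h2, h3⟩ := torsion_translate hχ (hVG _ hxi) e hcl
      (fun w hw => hgs ⟨w, hw, rfl⟩)
    refine ⟨fun t ht => ?_, h3⟩
    have h4 : t ∈ ⋃ g ∈ C, {t | g⁻¹ * t ∈ H} := Set.mem_iUnion₂.mpr ⟨g, hg, (h2 t).mpr ht⟩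
    rw [← hfx] at h4
    exact h4
  have hζf : IsOfFinOrder ζ := isOfFinOrder_zeta χ e
  have hS'eq := special_eq_prod h𝒮 h𝒮' hext hT hV hVT hgen hS' (fun p hp => (hS'T hp).1) hj hcl
    hconn hdimS' hζf (fun x hx => (hfx x hx).1)
  obtain ⟨x₀, hx₀⟩ := hj
  have hoS := (hfx x₀ hx₀).2
  have hSt := isTorsionCoset_translate hcl hconn hζf
  obtain ⟨hSs, hSd⟩ := dm_translate hcl hconn ζ
  -- the set `B`
  have hBj : (B ∩ (X.prodTorus ((X.Coord j ⊕ Fin k) ⊕ (X.Coord j ⊕ Fin k))).dom j).Nonempty := by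
    have hxi : X.chart j x₀ ∈ Variety.img V j := (Variety.mem_img hx₀.2).mpr hx₀.1
    obtain ⟨w, hw⟩ := (isIrreducible_srcFib (c := c) hχ (hVG _ hxi)).nonempty
    obtain ⟨p, hp, -⟩ := hsub _ hxi w hw
    exact ⟨p, hp⟩
  have hBs := Variety.isSubvariety_img hBc.1.1 hBj
  refine not_mapsTo_of_atypical (T₀ := Variety.img T j) (V₀ := Variety.img V j) hχ hG
    (Variety.isIrreducible_img hV.2 ⟨x₀, hx₀⟩) ?_ hVG he hk hSt hoS hBs ?_ ?_ ?_ hsub
  · rw [hD, Variety.dm_eq hTs.2 hTj]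
  · rw [← hWimg]
    exact Variety.img_mono (hBc.1.2.trans Set.inter_subset_left) j
  · rintro _ ⟨p, ⟨hp, hpj⟩, rfl⟩
    have h1 := (hBc.1.2 hp).2
    rw [hS'eq] at h1
    exact h1.2
  · have h1 : Variety.dm S' = Variety.dm T + dm {t | ζ⁻¹ * t ∈ H} := by
      rw [hS'eq]
      exact Variety.dm_prodSet hTs hSs
    have h2 : Variety.dm (Variety.prodSet T (Set.univ : Set (Torus ((X.Coord j ⊕ Fin k) ⊕
      (X.Coord j ⊕ Fin k))))) = Variety.dm T + Fintype.card ((X.Coord j ⊕ Fin k) ⊕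
      (X.Coord j ⊕ Fin k)) := by
      rw [Variety.dm_prodSet hTs isSubvariety_univ, dm_univ]
    have h3 := h𝒮'.subvariety _ hTu
    rw [Variety.dim_eq hW, Variety.dim_eq hS's, Variety.dim_eq hBc.1.1, Variety.dim_eq h3] at hdim
    have h4 : Variety.dm (lineFamily X T j (lineB av e)) + Variety.dm S' <
        Variety.dm B + Variety.dm (Variety.prodSet T (Set.univ : Set (Torus
          ((X.Coord j ⊕ Fin k) ⊕ (X.Coord j ⊕ Fin k))))) := by
      exact_mod_cast hdim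
    have h5 : Fintype.card ((X.Coord j ⊕ Fin k) ⊕ (X.Coord j ⊕ Fin k)) =
      Fintype.card (X.Coord j ⊕ Fin k) + Fintype.card (X.Coord j ⊕ Fin k) := Fintype.card_sum
    have h6 : Nat.card (X.Coord j ⊕ Fin k) = Fintype.card (X.Coord j ⊕ Fin k) :=
      Nat.card_eq_fintype_card
    have h7 : Variety.dm B = dm (ι := X.Coord j ⊕ ((X.Coord j ⊕ Fin k) ⊕ (X.Coord j ⊕ Fin k)))
      (Variety.img (X := X.prodTorus ((X.Coord j ⊕ Fin k) ⊕ (X.Coord j ⊕ Fin k))) B j) :=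
      Variety.dm_eq hBc.1.1.2 hBj
    rw [← Variety.dm_eq hTs.2 hTj]
    omega

/-- the points of small special subvarieties lie in atypical subvarieties of the family -/
theorem exists_atypical_family [Fintype (X.Coord j)] {α β : Type} [Fintype α] [Fintype β]
    {q c t k : ℕ} [DecidableEq (Tau (X.Coord j ⊕ (α ⊕ β)) q c t)]
    (K : Type) [Field K] [Algebra K ℂ]
    {χ : ℕ → (Om (X.Coord j ⊕ (α ⊕ β)) ⊕ Fin q →₀ ℕ)}
    {G : Fin q → MvPolynomial (X.Coord j ⊕ (α ⊕ β)) ℤ} (hχ : Encodes t χ G)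
    {av : α → ℂˣ} {bv : β → ℂˣ} {D₀ : ℕ}
    (hav : ∀ a, ∃ r : K, algebraMap K ℂ r = ((av a : ℂˣ) : ℂ))
    (h𝒮 : IsSpecialStructure X 𝒮)
    (hdef : ∀ S ∈ 𝒮, ∃ F : Set (MvPolynomial (X.Coord j) K), Variety.img S j =
      {x | ∀ f ∈ F, value x (MvPolynomial.map (algebraMap K ℂ) f) = 0})
    {e : Fin k → α ⊕ (Fin c × Fin (3 * t + 2))} (he : Function.Surjective e)
    (hk : k = Fintype.card α + c * (3 * t + 2))
    {𝒮' : Set (Set (X.prodTorus ((X.Coord j ⊕ Fin k) ⊕ (X.Coord j ⊕ Fin k))).Pt)}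
    (h𝒮' : IsSpecialStructure (X.prodTorus ((X.Coord j ⊕ Fin k) ⊕ (X.Coord j ⊕ Fin k))) 𝒮')
    (hext : IsTorusExtension X 𝒮 ((X.Coord j ⊕ Fin k) ⊕ (X.Coord j ⊕ Fin k)) 𝒮')
    {T V : Set X.Pt} (hT : T ∈ 𝒮) (hV : X.IsSubvariety V) (hVT : V ⊆ T)
    (hj : (V ∩ X.dom j).Nonempty)
    (hD : c + D₀ = Variety.dm T + Fintype.card β)
    (hD₀ : (D₀ : ℕ∞) ≤ dm (Variety.img V j) + kr K (Set.range fun b => ((bv b : ℂˣ) : ℂ)))
    (hVG : ∀ x ∈ Variety.img V j, ∀ j, aeval (fun s => ((ev x (FF av bv s) : ℂˣ) : ℂ)) (G j) = 0)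
    {S : Set X.Pt} (hS : S ∈ 𝒮) (hST : S ⊆ T) (hSV : X.dim S + X.dim V < X.dim T)
    {x : X.Pt} (hxV : x ∈ V) (hxS : x ∈ S) (hxj : x ∈ X.dom j) :
    ∃ B, Atypical (X.prodTorus ((X.Coord j ⊕ Fin k) ⊕ (X.Coord j ⊕ Fin k))) 𝒮'
      (lineFamily X T j (lineB av e)) (Variety.prodSet T Set.univ) B ∧
      ∀ w ∈ srcFib c t χ (fun s => ev (X.chart j x) (FF av bv s)),
        pair (X.chart j x) (mono 1 (psiX χ e) w) ∈ Variety.img
          (X := X.prodTorus ((X.Coord j ⊕ Fin k) ⊕ (X.Coord j ⊕ Fin k))) B j := by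
  classical
  have hTs := h𝒮.subvariety T hT
  have hSs := h𝒮.subvariety S hS
  have hTj : (T ∩ X.dom j).Nonempty := hj.mono (Set.inter_subset_inter_left _ hVT)
  have hSj : (S ∩ X.dom j).Nonempty := ⟨x, hxS, hxj⟩
  obtain ⟨hW, hWT, hWimg, hWdm⟩ := lineFamily_properties hTs hTj (lineB av e)
  have hTu : Variety.prodSet T (Set.univ : Set (Torus ((X.Coord j ⊕ Fin k) ⊕
      (X.Coord j ⊕ Fin k)))) ∈ 𝒮' := hext.prod T hT _ isTorsionCoset_univ
  obtain ⟨F, hF⟩ := hdef S hS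
  have hS₀ : dm (Variety.img S j) + dm (Variety.img V j) < dm (Variety.img T j) := by
    rw [Variety.dim_eq hSs, Variety.dim_eq hV, Variety.dim_eq hTs] at hSV
    have h1 : Variety.dm S + Variety.dm V < Variety.dm T := by exact_mod_cast hSV
    rw [← Variety.dm_eq hSs.2 hSj, ← Variety.dm_eq hV.2 hj, ← Variety.dm_eq hTs.2 hTj]
    exact h1
  obtain ⟨C, B₁, hC, hB₁, hB₁W, hB₁C, hB₁w, hB₁d⟩ := exists_family_lift K hχ hav
    (T₀ := Variety.img T j) (by rw [hD, Variety.dm_eq hTs.2 hTj]) hD₀ he hk hF hS₀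
    (P := X.chart j x) ((Variety.mem_img hxj).mpr hxS)
    (hVG _ ((Variety.mem_img hxj).mpr hxV))
  -- the subvariety of the product
  obtain ⟨B₂, hB₂, hB₂j, hB₂img, hB₂sub⟩ := Variety.exists_of_chart
    (X := X.prodTorus ((X.Coord j ⊕ Fin k) ⊕ (X.Coord j ⊕ Fin k))) j hB₁ (by
      intro z hz
      obtain ⟨y, ⟨hyS, hyj⟩, hy⟩ := (hB₁W hz).1
      refine ⟨(y, prr z), hyj, ?_⟩
      change pair (X.chart j y) (prr z) = z
      rw [hy, pair_pr])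
  have hSC : Variety.prodSet S C ∈ 𝒮' := hext.prod S hS C hC
  have hSCs := h𝒮'.subvariety _ hSC
  have hmem : ∀ p : (X.prodTorus ((X.Coord j ⊕ Fin k) ⊕ (X.Coord j ⊕ Fin k))).Pt,
      p.1 ∈ X.dom j → pair (X.chart j p.1) p.2 ∈ B₁ →
      p ∈ lineFamily X T j (lineB av e) ∩ Variety.prodSet S C := by
    rintro ⟨y, s⟩ hyj hy
    have h1 := (hB₁W hy).1
    have h2 : y ∈ S := (Variety.mem_img hyj).mp h1
    refine ⟨?_, h2, hB₁C _ hy⟩
    have h3 : pair (X.chart j y) s ∈ Variety.img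
        (X := X.prodTorus ((X.Coord j ⊕ Fin k) ⊕ (X.Coord j ⊕ Fin k)))
        (lineFamily X T j (lineB av e)) j := by
      rw [hWimg]
      exact ⟨Variety.img_mono hST j h1, (hB₁W hy).2⟩
    exact (Variety.mem_img_prod hyj s).mp h3
  have hB₂W : B₂ ⊆ lineFamily X T j (lineB av e) ∩ Variety.prodSet S C := by
    apply hB₂sub _ (hW.1.inter hSCs.1)
    rintro p ⟨hpj, hp⟩
    exact hmem p hpj hp
  obtain ⟨B, hB, hB₂B⟩ := Variety.exists_component (hW.1.inter hSCs.1) hB₂.2 hB₂W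
  refine ⟨B, ⟨Variety.prodSet S C, (specialIn_iff h𝒮' hTu).mpr
    ⟨hSC, fun p hp => ⟨hST hp.1, trivial⟩⟩, hB, ?_⟩, ?_⟩
  · have h1 : Variety.dm (Variety.prodSet S C) = Variety.dm S + dm C :=
      Variety.dm_prodSet hSs hC.isSubvariety
    have h2 : Variety.dm (Variety.prodSet T (Set.univ : Set (Torus ((X.Coord j ⊕ Fin k) ⊕
      (X.Coord j ⊕ Fin k))))) = Variety.dm T + Fintype.card ((X.Coord j ⊕ Fin k) ⊕
      (X.Coord j ⊕ Fin k)) := by
      rw [Variety.dm_prodSet hTs isSubvariety_univ, dm_univ]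
    have h3 := h𝒮'.subvariety _ hTu
    have h5 : Fintype.card ((X.Coord j ⊕ Fin k) ⊕ (X.Coord j ⊕ Fin k)) =
      Fintype.card (X.Coord j ⊕ Fin k) + Fintype.card (X.Coord j ⊕ Fin k) := Fintype.card_sum
    have h6 : Nat.card (X.Coord j ⊕ Fin k) = Fintype.card (X.Coord j ⊕ Fin k) :=
      Nat.card_eq_fintype_card
    have h7 : Variety.dm B₂ = dm (ι := X.Coord j ⊕ ((X.Coord j ⊕ Fin k) ⊕ (X.Coord j ⊕ Fin k)))
      (Variety.img (X := X.prodTorus ((X.Coord j ⊕ Fin k) ⊕ (X.Coord j ⊕ Fin k))) B₂ j) :=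
      Variety.dm_eq hB₂.2 hB₂j
    have h8 : Variety.dm B₂ ≤ Variety.dm B := Variety.dm_mono hB₂.2 hB.1.1.2 hB₂B
    rw [hB₂img] at h7
    rw [← Variety.dm_eq hSs.2 hSj] at hB₁d
    rw [Variety.dim_eq hW, Variety.dim_eq hSCs, Variety.dim_eq hB.1.1, Variety.dim_eq h3]
    have h9 : Variety.dm (lineFamily X T j (lineB av e)) + Variety.dm (Variety.prodSet S C) <
        Variety.dm B + Variety.dm (Variety.prodSet T (Set.univ : Set (Torus
          ((X.Coord j ⊕ Fin k) ⊕ (X.Coord j ⊕ Fin k))))) := by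
      omega
    exact_mod_cast h9
  · intro w hw
    have h1 := hB₁w w hw
    rw [← hB₂img] at h1
    exact Variety.img_mono hB₂B j h1

/-- sets defined over a field, with coefficients in the algebraic closure -/
theorem IsDefinedOver.exists_polys {𝔞 : Set ℂˣ} {ι : Type} {Z : Set (Torus ι)}
    (h : IsDefinedOver 𝔞 Z) : ∃ F : Set (MvPolynomial ι (KK 𝔞)), Z =
      {x | ∀ f ∈ F, value x (MvPolynomial.map (algebraMap (KK 𝔞) ℂ) f) = 0} := by
  obtain ⟨F, rfl, hF⟩ := h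
  refine ⟨{g | MvPolynomial.map (algebraMap (KK 𝔞) ℂ) g ∈ F}, ?_⟩
  ext x
  constructor
  · intro hx g hg
    exact hx _ hg
  · intro hx f hf
    have h1 : f ∈ Set.range (MvPolynomial.map (algebraMap (KK 𝔞) ℂ) :
        MvPolynomial ι (KK 𝔞) →+* MvPolynomial ι ℂ) := by
      rw [mem_range_map_iff_coeffs_subset]
      intro a ha
      rw [Finset.mem_coe, mem_coeffs_iff] at ha
      obtain ⟨m, hm, rfl⟩ := ha
      exact ⟨⟨f.coeff m, mem_algebraicClosure_iff.mpr (hF f hf m)⟩, rfl⟩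
    obtain ⟨g, rfl⟩ := h1
    exact hx g hf

theorem pinkForm_of_lines {𝔞 : Set ℂˣ} (h1𝔞 : (1 : ℂˣ) ∈ 𝔞) (h𝒮 : IsSpecialStructure X 𝒮)
    (hdef : ∀ S ∈ 𝒮, IsDefinedOver 𝔞 (Variety.img S j)) {T V : Set X.Pt} (hT : T ∈ 𝒮)
    (hV : X.IsSubvariety V) (hVT : V ⊆ T) (hj : (V ∩ X.dom j).Nonempty)
    (hlines : ∀ (k : ℕ) (b : Fin k → ℂˣ), (∀ i, b i ∈ 𝔞) →
      ∃ 𝒮', IsSpecialStructure (X.prodTorus ((X.Coord j ⊕ Fin k) ⊕ (X.Coord j ⊕ Fin k))) 𝒮' ∧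
        IsTorusExtension X 𝒮 ((X.Coord j ⊕ Fin k) ⊕ (X.Coord j ⊕ Fin k)) 𝒮' ∧
        FiniteForm (X.prodTorus ((X.Coord j ⊕ Fin k) ⊕ (X.Coord j ⊕ Fin k))) 𝒮'
          (lineFamily X T j b) (Variety.prodSet T Set.univ)) :
    PinkForm X 𝒮 V T := by
  classical
  have := Fintype.ofFinite (X.Coord j)
  intro hgen' hdense
  have hgen : ∀ S ∈ 𝒮, V ⊆ S → S ⊆ T → S = T := fun S hS hVS hST =>
    hgen' S ((specialIn_iff h𝒮 hT).mpr ⟨hS, hST⟩) hVS
  have hTs := h𝒮.subvariety T hT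
  have hTj : (T ∩ X.dom j).Nonempty := hj.mono (Set.inter_subset_inter_left _ hVT)
  have hV₀ := Variety.isSubvariety_img hV hj
  obtain ⟨α, β, _, _, av, bv, D₀, q, G, hav, hVG, hG, hD₀⟩ := exists_data 𝔞 hV₀
  obtain ⟨c, hD⟩ : ∃ c, c + D₀ = Variety.dm T + Fintype.card β := by
    have h1 : (D₀ : ℕ∞) ≤ dm (Variety.img V j) + Fintype.card β := by
      refine hD₀.trans ?_
      gcongr
      exact (kr_le_encard _).trans (encard_range_le _)
    have h2 : D₀ ≤ dm (Variety.img V j) + Fintype.card β := by exact_mod_cast h1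
    have h3 : Variety.dm V ≤ Variety.dm T := Variety.dm_mono hV.2 hTs.2 hVT
    rw [Variety.dm_eq hV.2 hj] at h3
    exact ⟨Variety.dm T + Fintype.card β - D₀, by omega⟩
  obtain ⟨t, χ, hχ⟩ := exists_encodes G
  obtain ⟨k, hk⟩ : ∃ k, k = Fintype.card α + c * (3 * t + 2) := ⟨_, rfl⟩
  have hcard : Fintype.card (α ⊕ (Fin c × Fin (3 * t + 2))) = k := by
    rw [Fintype.card_sum, Fintype.card_prod, Fintype.card_fin, Fintype.card_fin, hk]
  let e : Fin k → α ⊕ (Fin c × Fin (3 * t + 2)) := (Fintype.equivFinOfCardEq hcard).symm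
  have he : Function.Surjective e := (Fintype.equivFinOfCardEq hcard).symm.surjective
  have hb : ∀ i, lineB av e i ∈ 𝔞 := by
    intro i
    unfold lineB
    rcases e i with a | il
    · exact hav a
    · exact h1𝔞
  obtain ⟨𝒮', h𝒮', hext, 𝓕, hfin, hatyp, hunion⟩ := hlines k (lineB av e) hb
  obtain ⟨hW, hWT, hWimg, hWdm⟩ := lineFamily_properties hTs hTj (lineB av e)
  have hBs : ∀ B ∈ 𝓕, (X.prodTorus ((X.Coord j ⊕ Fin k) ⊕ (X.Coord j ⊕ Fin k))).IsSubvariety B := by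
    intro B hB
    obtain ⟨S, -, h1, -⟩ := hatyp B hB
    exact h1.1.1
  have hsec : ∀ B ∈ 𝓕, ∃ f : MvPolynomial (X.Coord j) ℂ, (∃ x ∈ Variety.img V j, value x f ≠ 0) ∧
      ∀ x ∈ Variety.img V j, value x f ≠ 0 →
        ∃ w ∈ srcFib c t χ (fun s => ev x (FF av bv s)),
          pair x (mono 1 (psiX χ e) w) ∉ Variety.img
            (X := X.prodTorus ((X.Coord j ⊕ Fin k) ⊕ (X.Coord j ⊕ Fin k))) B j := by
    intro B hB
    have h1 := not_mapsTo_of_atypical_family hχ hG h𝒮 he hk h𝒮' hext hT hV hVT hgen hj hD hVG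
      (hatyp B hB)
    have h2' : IsClosed (Variety.img
      (X := X.prodTorus ((X.Coord j ⊕ Fin k) ⊕ (X.Coord j ⊕ Fin k))) B j :
        Set (Torus (X.Coord j ⊕ ((X.Coord j ⊕ Fin k) ⊕ (X.Coord j ⊕ Fin k))))) :=
      Variety.isClosed_img (hBs B hB).1 j
    have h2 := h2'.preimage (continuous_mono 1 (PsiX (t := t) χ e))
    obtain ⟨f, hf1, hf2⟩ := exists_section (c := c) hχ (FF av bv) hVG h2 (by
      intro hsub
      apply h1
      intro x hx w hw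
      have h3 : pair x w ∈ srcTot c t χ (FF av bv) (Variety.img V j) := ⟨hx, hw⟩
      have h4 := hsub h3
      rw [Set.mem_preimage, mono_PsiX] at h4
      exact h4)
    refine ⟨f, hf1, fun x hx hfx => ?_⟩
    obtain ⟨w, hw, hwC⟩ := hf2 x hx hfx
    refine ⟨w, hw, fun h3 => hwC ?_⟩
    rw [Set.mem_preimage, mono_PsiX]
    exact h3
  choose! f hf1 hf2 using hsec
  set Φ : MvPolynomial (X.Coord j) ℂ := ∏ B ∈ hfin.toFinset, f B with hΦ
  have hΦV : Φ ∉ vI (Variety.img V j) := by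
    intro h
    have hp := hV₀.isPrime
    rw [hΦ, Ideal.IsPrime.prod_mem_iff] at h
    obtain ⟨B, hB, h1⟩ := h
    obtain ⟨x, hx, h2⟩ := hf1 B (hfin.mem_toFinset.mp hB)
    exact h2 (h1 x hx)
  have hcl := Variety.isClosed_zero_locus (X := X) j Φ
  have hsub : V ∩ ⋃₀ {S | SpecialIn X 𝒮 T S ∧ X.dim S + X.dim V < X.dim T} ⊆
      {x | x ∈ X.dom j ∧ value (X.chart j x) Φ = 0} ∪ (X.dom j)ᶜ := by
    rintro x ⟨hxV, S, ⟨hSsp, hSV⟩, hxS⟩
    by_cases hxj : x ∈ X.dom j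
    · left
      refine ⟨hxj, ?_⟩
      obtain ⟨hS, hST⟩ := (specialIn_iff h𝒮 hT).mp hSsp
      obtain ⟨B, hB, hBw⟩ := exists_atypical_family (KK 𝔞) hχ (fun a =>
        ⟨⟨((av a : ℂˣ) : ℂ), mem_algebraicClosure_iff.mpr (isAlgebraic_algebraMap
          (⟨((av a : ℂˣ) : ℂ), IntermediateField.subset_adjoin ℚ _ ⟨_, hav a, rfl⟩⟩ :
            IntermediateField.adjoin ℚ ((fun a : ℂˣ => (a : ℂ)) '' 𝔞)))⟩, rfl⟩) h𝒮
        (fun S hS => (hdef S hS).exists_polys) he hk h𝒮' hext hT hV hVT hj hD hD₀ hVG hS hST hSV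
        hxV hxS hxj
      have hBs' : (X.prodTorus ((X.Coord j ⊕ Fin k) ⊕ (X.Coord j ⊕ Fin k))).IsSubvariety B := by
        obtain ⟨S, -, h1, -⟩ := hB
        exact h1.1.1
      have h1 : B ⊆ ⋃₀ 𝓕 := by
        rw [← hunion]
        intro p hp
        exact ⟨B, hB, hp⟩
      obtain ⟨B', hB', hBB'⟩ := exists_superset_of_finite hBs'.2 hfin (fun B hB => (hBs B hB).1) h1
      have hxi : X.chart j x ∈ Variety.img V j := (Variety.mem_img hxj).mpr hxV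
      rw [hΦ, value_prod]
      apply Finset.prod_eq_zero (hfin.mem_toFinset.mpr hB')
      by_contra hne
      obtain ⟨w, hw, hwn⟩ := hf2 B' hB' _ hxi hne
      exact hwn (Variety.img_mono hBB' j (hBw w hw))
    · right
      exact hxj
  have hVsub := hdense.trans (closure_minimal hsub hcl)
  apply hΦV
  rintro _ ⟨x, ⟨hxV, hxj⟩, rfl⟩
  rcases hVsub hxV with h | h
  · exact h.2
  · exact absurd hxj h

end Main

end Pool.Agent.Helper10
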