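import Pool.Agent.Helper10.UV.Section

/-!
The monomial map from the source torus to the torus of the pairs of coordinates of the lines.
-/

namespace Pool.Agent.Helper10

open MvPolynomial

section Psi

variable {ι α β : Type} [Fintype ι] [Fintype α] [Fintype β] {q c t k : ℕ}

/-- the lines of the target -/
def lineG (b : Fin k → ℂˣ) (i : ι ⊕ Fin k) : ι ⊕ ℂˣ :=
  Sum.elim Sum.inl (fun m => Sum.inr (b m)) i

/-- the constants of the lines of the target -/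
def lineB (av : α → ℂˣ) (e : Fin k → α ⊕ (Fin c × Fin (3 * t + 2))) (m : Fin k) : ℂˣ :=
  Sum.elim av (fun _ => 1) (e m)

/-- the exponents of the map to the target, on the fibres -/
noncomputable def psiX [DecidableEq (Tau (ι ⊕ (α ⊕ β)) q c t)]
    (χ : ℕ → (Om (ι ⊕ (α ⊕ β)) ⊕ Fin q →₀ ℕ)) (e : Fin k → α ⊕ (Fin c × Fin (3 * t + 2)))
    (j : (ι ⊕ Fin k) ⊕ (ι ⊕ Fin k)) : Tau (ι ⊕ (α ⊕ β)) q c t → ℤ :=
  Sum.elim
    (Sum.elim (fun i => Pi.single (Sum.inl (Sum.inl (Sum.inl (Sum.inl (Sum.inl i))))) 1)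
      (fun m => Sum.elim
        (fun a => Pi.single (Sum.inl (Sum.inl (Sum.inl (Sum.inl (Sum.inr (Sum.inl a)))))) 1)
        (fun il => ext0 (Fin c × Fin (3 * t + 2))
          (fun a => (gE t (Sum.inr ()) χ il.1 il.2 a : ℤ)) - Pi.single (Sum.inr il) 1) (e m)))
    (Sum.elim (fun i => Pi.single (Sum.inl (Sum.inl (Sum.inl (Sum.inr (Sum.inl i))))) 1)
      (fun m => Sum.elim
        (fun a => Pi.single (Sum.inl (Sum.inl (Sum.inl (Sum.inr (Sum.inr (Sum.inl a)))))) 1)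
        (fun il => Pi.single (Sum.inr (il.1, nxt il.2)) 1 - Pi.single (Sum.inr il) 1) (e m))) j

variable [DecidableEq (Tau (ι ⊕ (α ⊕ β)) q c t)]

theorem psiX_yi (χ : ℕ → (Om (ι ⊕ (α ⊕ β)) ⊕ Fin q →₀ ℕ))
    (e : Fin k → α ⊕ (Fin c × Fin (3 * t + 2))) (w : Torus (Tau (ι ⊕ (α ⊕ β)) q c t)) (i : ι) :
    mono 1 (psiX χ e) w (Sum.inl (Sum.inl i)) =
      w (Sum.inl (Sum.inl (Sum.inl (Sum.inl (Sum.inl i))))) := by
  change 1 * chr (Pi.single _ 1) w = _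
  rw [one_mul, chr_single, zpow_one]

theorem psiX_ui (χ : ℕ → (Om (ι ⊕ (α ⊕ β)) ⊕ Fin q →₀ ℕ))
    (e : Fin k → α ⊕ (Fin c × Fin (3 * t + 2))) (w : Torus (Tau (ι ⊕ (α ⊕ β)) q c t)) (i : ι) :
    mono 1 (psiX χ e) w (Sum.inr (Sum.inl i)) =
      w (Sum.inl (Sum.inl (Sum.inl (Sum.inr (Sum.inl i))))) := by
  change 1 * chr (Pi.single _ 1) w = _
  rw [one_mul, chr_single, zpow_one]

theorem psiX_ya (χ : ℕ → (Om (ι ⊕ (α ⊕ β)) ⊕ Fin q →₀ ℕ))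
    (e : Fin k → α ⊕ (Fin c × Fin (3 * t + 2))) (w : Torus (Tau (ι ⊕ (α ⊕ β)) q c t)) (m : Fin k)
    (a : α) (hm : e m = Sum.inl a) :
    mono 1 (psiX χ e) w (Sum.inl (Sum.inr m)) =
      w (Sum.inl (Sum.inl (Sum.inl (Sum.inl (Sum.inr (Sum.inl a)))))) := by
  have h : psiX χ e (Sum.inl (Sum.inr m)) =
      Pi.single (Sum.inl (Sum.inl (Sum.inl (Sum.inl (Sum.inr (Sum.inl a)))))) 1 := by
    change Sum.elim _ _ (e m) = _
    rw [hm]
    rfl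
  change 1 * chr (psiX χ e (Sum.inl (Sum.inr m))) w = _
  rw [h, one_mul, chr_single, zpow_one]

theorem psiX_ua (χ : ℕ → (Om (ι ⊕ (α ⊕ β)) ⊕ Fin q →₀ ℕ))
    (e : Fin k → α ⊕ (Fin c × Fin (3 * t + 2))) (w : Torus (Tau (ι ⊕ (α ⊕ β)) q c t)) (m : Fin k)
    (a : α) (hm : e m = Sum.inl a) :
    mono 1 (psiX χ e) w (Sum.inr (Sum.inr m)) =
      w (Sum.inl (Sum.inl (Sum.inl (Sum.inr (Sum.inr (Sum.inl a)))))) := by
  have h : psiX χ e (Sum.inr (Sum.inr m)) =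
      Pi.single (Sum.inl (Sum.inl (Sum.inl (Sum.inr (Sum.inr (Sum.inl a)))))) 1 := by
    change Sum.elim _ _ (e m) = _
    rw [hm]
    rfl
  change 1 * chr (psiX χ e (Sum.inr (Sum.inr m))) w = _
  rw [h, one_mul, chr_single, zpow_one]

theorem psiX_yl (χ : ℕ → (Om (ι ⊕ (α ⊕ β)) ⊕ Fin q →₀ ℕ))
    (e : Fin k → α ⊕ (Fin c × Fin (3 * t + 2))) (w : Torus (Tau (ι ⊕ (α ⊕ β)) q c t)) (m : Fin k)
    (il : Fin c × Fin (3 * t + 2)) (hm : e m = Sum.inr il) :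
    ((mono 1 (psiX χ e) w (Sum.inl (Sum.inr m)) : ℂˣ) : ℂ) =
      value (prl w) (monomial (gE t (Sum.inr ()) χ il.1 il.2) 1) / ((w (Sum.inr il) : ℂˣ) : ℂ) := by
  have h : psiX χ e (Sum.inl (Sum.inr m)) = ext0 (Fin c × Fin (3 * t + 2))
      (fun a => (gE t (Sum.inr ()) χ il.1 il.2 a : ℤ)) - Pi.single (Sum.inr il) 1 := by
    change Sum.elim _ _ (e m) = _
    rw [hm]
    rfl
  change ((1 * chr (psiX χ e (Sum.inl (Sum.inr m))) w : ℂˣ) : ℂ) = _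
  rw [h, one_mul, chr_sub, chr_single, zpow_one, chr_ext0, value_monomial, one_mul,
    Units.val_div_eq_div_val]

theorem psiX_ul (χ : ℕ → (Om (ι ⊕ (α ⊕ β)) ⊕ Fin q →₀ ℕ))
    (e : Fin k → α ⊕ (Fin c × Fin (3 * t + 2))) (w : Torus (Tau (ι ⊕ (α ⊕ β)) q c t)) (m : Fin k)
    (il : Fin c × Fin (3 * t + 2)) (hm : e m = Sum.inr il) :
    ((mono 1 (psiX χ e) w (Sum.inr (Sum.inr m)) : ℂˣ) : ℂ) =
      ((w (Sum.inr (il.1, nxt il.2)) : ℂˣ) : ℂ) / ((w (Sum.inr il) : ℂˣ) : ℂ) := by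
  have h : psiX χ e (Sum.inr (Sum.inr m)) =
      Pi.single (Sum.inr (il.1, nxt il.2)) 1 - Pi.single (Sum.inr il) 1 := by
    change Sum.elim _ _ (e m) = _
    rw [hm]
    rfl
  change ((1 * chr (psiX χ e (Sum.inr (Sum.inr m))) w : ℂˣ) : ℂ) = _
  rw [h, one_mul, chr_sub, chr_single, chr_single, zpow_one, zpow_one, Units.val_div_eq_div_val]

/-- membership in the families of lines, in terms of the coordinates of the source -/
theorem psiX_mem_iff (χ : ℕ → (Om (ι ⊕ (α ⊕ β)) ⊕ Fin q →₀ ℕ))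
    {e : Fin k → α ⊕ (Fin c × Fin (3 * t + 2))} (he : Function.Surjective e) (av : α → ℂˣ)
    (T₀ : Set (Torus ι)) (x : Torus ι) (w : Torus (Tau (ι ⊕ (α ⊕ β)) q c t)) :
    pair x (mono 1 (psiX χ e) w) ∈ linesOver T₀ (lineG (lineB av e)) ↔ x ∈ T₀ ∧
      (∀ i : ι, ((w (Sum.inl (Sum.inl (Sum.inl (Sum.inr (Sum.inl i))))) : ℂˣ) : ℂ) =
        ((w (Sum.inl (Sum.inl (Sum.inl (Sum.inl (Sum.inl i))))) : ℂˣ) : ℂ) + ((x i : ℂˣ) : ℂ)) ∧
      (∀ a : α, ((w (Sum.inl (Sum.inl (Sum.inl (Sum.inr (Sum.inr (Sum.inl a)))))) : ℂˣ) : ℂ) =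
        ((w (Sum.inl (Sum.inl (Sum.inl (Sum.inl (Sum.inr (Sum.inl a)))))) : ℂˣ) : ℂ) +
          ((av a : ℂˣ) : ℂ)) ∧
      ∀ (i : Fin c) (l : Fin (3 * t + 2)), ((w (Sum.inr (i, l)) : ℂˣ) : ℂ) +
        value (prl w) (monomial (gE t (Sum.inr ()) χ i l) 1) =
          ((w (Sum.inr (i, nxt l)) : ℂˣ) : ℂ) := by
  have key : ∀ il : Fin c × Fin (3 * t + 2),
      (((w (Sum.inr (il.1, nxt il.2)) : ℂˣ) : ℂ) / ((w (Sum.inr il) : ℂˣ) : ℂ) =
      value (prl w) (monomial (gE t (Sum.inr ()) χ il.1 il.2) 1) / ((w (Sum.inr il) : ℂˣ) : ℂ) +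
        ((1 : ℂˣ) : ℂ)) ↔ ((w (Sum.inr il) : ℂˣ) : ℂ) +
        value (prl w) (monomial (gE t (Sum.inr ()) χ il.1 il.2) 1) =
          ((w (Sum.inr (il.1, nxt il.2)) : ℂˣ) : ℂ) := by
    intro il
    have h0 : ((w (Sum.inr il) : ℂˣ) : ℂ) ≠ 0 := Units.ne_zero _
    rw [Units.val_one, div_add_one h0, div_left_inj' h0]
    constructor
    · intro h
      rw [h]
      ring
    · intro h
      rw [← h]
      ring
  constructor
  · rintro ⟨h1, h2⟩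
    refine ⟨h1, ?_, ?_, ?_⟩
    · intro i
      have h3 := h2 (Sum.inl i)
      change ((mono 1 (psiX χ e) w (Sum.inr (Sum.inl i)) : ℂˣ) : ℂ) =
        ((mono 1 (psiX χ e) w (Sum.inl (Sum.inl i)) : ℂˣ) : ℂ) + ((x i : ℂˣ) : ℂ) at h3
      rw [psiX_ui, psiX_yi] at h3
      exact h3
    · intro a
      obtain ⟨m, hm⟩ := he (Sum.inl a)
      have h3 := h2 (Sum.inr m)
      change ((mono 1 (psiX χ e) w (Sum.inr (Sum.inr m)) : ℂˣ) : ℂ) =
        ((mono 1 (psiX χ e) w (Sum.inl (Sum.inr m)) : ℂˣ) : ℂ) + ((lineB av e m : ℂˣ) : ℂ) at h3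
      rw [psiX_ua χ e w m a hm, psiX_ya χ e w m a hm] at h3
      have h4 : lineB av e m = av a := by
        unfold lineB
        rw [hm]
        rfl
      rw [h4] at h3
      exact h3
    · intro i l
      obtain ⟨m, hm⟩ := he (Sum.inr (i, l))
      have h3 := h2 (Sum.inr m)
      change ((mono 1 (psiX χ e) w (Sum.inr (Sum.inr m)) : ℂˣ) : ℂ) =
        ((mono 1 (psiX χ e) w (Sum.inl (Sum.inr m)) : ℂˣ) : ℂ) + ((lineB av e m : ℂˣ) : ℂ) at h3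
      rw [psiX_ul χ e w m (i, l) hm, psiX_yl χ e w m (i, l) hm] at h3
      have h4 : lineB av e m = 1 := by
        unfold lineB
        rw [hm]
        rfl
      rw [h4] at h3
      exact (key (i, l)).mp h3
  · rintro ⟨h1, h2, h3, h4⟩
    refine ⟨h1, ?_⟩
    rintro (i | m)
    · change ((mono 1 (psiX χ e) w (Sum.inr (Sum.inl i)) : ℂˣ) : ℂ) =
        ((mono 1 (psiX χ e) w (Sum.inl (Sum.inl i)) : ℂˣ) : ℂ) + ((x i : ℂˣ) : ℂ)
      rw [psiX_ui, psiX_yi]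
      exact h2 i
    · change ((mono 1 (psiX χ e) w (Sum.inr (Sum.inr m)) : ℂˣ) : ℂ) =
        ((mono 1 (psiX χ e) w (Sum.inl (Sum.inr m)) : ℂˣ) : ℂ) + ((lineB av e m : ℂˣ) : ℂ)
      rcases hm : e m with a | ⟨i, l⟩
      · rw [psiX_ua χ e w m a hm, psiX_ya χ e w m a hm]
        have h5 : lineB av e m = av a := by
          unfold lineB
          rw [hm]
          rfl
        rw [h5]
        exact h3 a
      · rw [psiX_ul χ e w m (i, l) hm, psiX_yl χ e w m (i, l) hm]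
        have h5 : lineB av e m = 1 := by
          unfold lineB
          rw [hm]
          rfl
        rw [h5]
        exact (key (i, l)).mpr (h4 i l)

/-- the points of the source sets are mapped to the families of lines -/
theorem psiX_mem_of_srcFib {χ : ℕ → (Om (ι ⊕ (α ⊕ β)) ⊕ Fin q →₀ ℕ)}
    {e : Fin k → α ⊕ (Fin c × Fin (3 * t + 2))} (he : Function.Surjective e) (av : α → ℂˣ)
    (bv : β → ℂˣ) {T₀ : Set (Torus ι)} {x : Torus ι} (hx : x ∈ T₀)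
    {w : Torus (Tau (ι ⊕ (α ⊕ β)) q c t)}
    (hw : w ∈ srcFib c t χ (fun s => ev x (FF av bv s))) :
    pair x (mono 1 (psiX χ e) w) ∈ linesOver T₀ (lineG (lineB av e)) := by
  rw [psiX_mem_iff χ he]
  exact ⟨hx, fun i => hw.1.1 (Sum.inl i), fun a => hw.1.1 (Sum.inr (Sum.inl a)), fun i l => hw.2 i l⟩

/-- the exponents of the map to the target -/
noncomputable def PsiX [DecidableEq (ι ⊕ Tau (ι ⊕ (α ⊕ β)) q c t)]
    (χ : ℕ → (Om (ι ⊕ (α ⊕ β)) ⊕ Fin q →₀ ℕ))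
    (e : Fin k → α ⊕ (Fin c × Fin (3 * t + 2)))
    (j : ι ⊕ ((ι ⊕ Fin k) ⊕ (ι ⊕ Fin k))) : ι ⊕ Tau (ι ⊕ (α ⊕ β)) q c t → ℤ :=
  Sum.elim (fun i => Pi.single (Sum.inl i) 1)
    (fun a b => Sum.elim (fun _ => 0) (psiX χ e a) b) j

theorem mono_PsiX [DecidableEq (ι ⊕ Tau (ι ⊕ (α ⊕ β)) q c t)]
    (χ : ℕ → (Om (ι ⊕ (α ⊕ β)) ⊕ Fin q →₀ ℕ))
    (e : Fin k → α ⊕ (Fin c × Fin (3 * t + 2))) (z : Torus (ι ⊕ Tau (ι ⊕ (α ⊕ β)) q c t)) :
    mono 1 (PsiX χ e) z = pair (prl z) (mono 1 (psiX χ e) (prr z)) := by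
  funext j
  rcases j with j | j
  · change 1 * chr (Pi.single (Sum.inl j) 1) z = z (Sum.inl j)
    rw [one_mul, chr_single, zpow_one]
  · change 1 * chr (PsiX χ e (Sum.inr j)) z = 1 * chr (psiX χ e j) (prr z)
    rw [chr_split]
    have h1 : (fun a => PsiX χ e (Sum.inr j) (Sum.inl a)) = (0 : ι → ℤ) := rfl
    have h2 : (fun a => PsiX χ e (Sum.inr j) (Sum.inr a)) = psiX χ e j := rfl
    rw [h1, h2, chr_zero, one_mul]

end Psi

end Pool.Agent.Helper10
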