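import Pool.Agent.Helper10.UV.Upper

/-!
Sections of the source sets.
-/

namespace Pool.Agent.Helper10

open MvPolynomial

theorem value_aeval_poly {ν ι : Type} (G : ν → MvPolynomial ι ℂ) (x : Torus ι)
    (p : MvPolynomial ν ℂ) : value x (aeval G p) = aeval (fun j => value x (G j)) p := by
  rw [value_eq_aeval, ← AlgHom.comp_apply]
  congr 1
  apply algHom_ext
  intro j
  rw [aeval_X, AlgHom.comp_apply, aeval_X, value_eq_aeval]

section Slice

variable {ι σ : Type} [Fintype σ] {q c t : ℕ}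

theorem exists_section {χ : ℕ → (Om σ ⊕ Fin q →₀ ℕ)} {G : Fin q → MvPolynomial σ ℤ}
    (hχ : Encodes t χ G) (F : σ → ι ⊕ ℂˣ) {V : Set (Torus ι)}
    (hVG : ∀ x ∈ V, ∀ j, aeval (fun s => ((ev x (F s) : ℂˣ) : ℂ)) (G j) = 0)
    {C' : Set (Torus (ι ⊕ Tau σ q c t))} (hC' : IsClosed C')
    (h : ¬ srcTot c t χ F V ⊆ C') :
    ∃ f : MvPolynomial ι ℂ, (∃ x ∈ V, value x f ≠ 0) ∧
      ∀ x ∈ V, value x f ≠ 0 → ∃ w ∈ srcFib c t χ (fun s => ev x (F s)), pair x w ∉ C' := by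
  classical
  obtain ⟨v₀, hv₀, hv₀C⟩ := Set.not_subset.mp h
  obtain ⟨Fs, rfl⟩ := isClosed_iff.mp hC'
  obtain ⟨f, hfF, hf⟩ : ∃ f ∈ Fs, value v₀ f ≠ 0 := by
    by_contra hcon
    push Not at hcon
    exact hv₀C hcon
  set x₀ : Torus ι := prl v₀ with hx₀
  set y₀ : σ → ℂ := fun s => ((v₀ (Sum.inr (Sum.inl (Sum.inl (Sum.inl (Sum.inl s))))) : ℂˣ) : ℂ)
    with hy₀
  set π₀ : Torus ((Fin c × Fin q) ⊕ Fin 2) := fun r => v₀ (Sum.inr (Sum.inl (Sum.inr r))) with hπ₀
  set s₀ : Fin c → ℂ := fun i => ((v₀ (Sum.inr (Sum.inr (i, 0))) : ℂˣ) : ℂ) with hs₀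
  set E : Fin c → ℕ → ((Om σ ⊕ ((Fin c × Fin q) ⊕ Fin 2)) →₀ ℕ) := gE t (Sum.inr ()) χ with hE
  let up : σ → MvPolynomial ι ℂ := fun s => C (y₀ s) + evP id (F s)
  let G₁ : Om σ ⊕ ((Fin c × Fin q) ⊕ Fin 2) → MvPolynomial ι ℂ :=
    Sum.elim (Sum.elim (Sum.elim (fun s => C (y₀ s)) up) (fun _ => C (-1)))
      (fun r => C ((π₀ r : ℂˣ) : ℂ))
  have hup : ∀ (x : Torus ι) s, value x (up s) = y₀ s + ((ev x (F s) : ℂˣ) : ℂ) := by
    intro x s
    change value x (C (y₀ s) + evP id (F s)) = _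
    rw [value_add, value_C, value_evP]
    rfl
  let g : Fin c × Fin (3 * t + 2) → MvPolynomial ι ℂ :=
    fun il => C (s₀ il.1) + aeval G₁ (psum E il.1 il.2)
  let H : ι ⊕ Tau σ q c t → MvPolynomial ι ℂ :=
    Sum.elim (fun i => X i) (Sum.elim G₁ g)
  -- the base point over `x`
  have hy0 : ∀ s, y₀ s ≠ 0 := fun s => Units.ne_zero _
  let bw : (x : Torus ι) → (∀ s, value x (up s) ≠ 0) → Torus (Om σ ⊕ ((Fin c × Fin q) ⊕ Fin 2)) :=
    fun x hx => pair (bpt (fun s => ev x (F s)) y₀ hy0 (fun s => by rw [← hup]; exact hx s)) π₀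
  have hG₁ : ∀ (x : Torus ι) (hx : ∀ s, value x (up s) ≠ 0) j,
      value x (G₁ j) = ((bw x hx j : ℂˣ) : ℂ) := by
    intro x hx j
    rcases j with ((j | j) | j) | j
    · exact value_C x _
    · exact hup x j
    · change value x (C (-1)) = ((-1 : ℂˣ) : ℂ)
      rw [value_C, Units.val_neg, Units.val_one]
    · exact value_C x _
  have hg : ∀ (x : Torus ι) (hx : ∀ s, value x (up s) ≠ 0) il,
      value x (g il) = s₀ il.1 + value (bw x hx) (psum E il.1 il.2) := by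
    intro x hx il
    change value x (C (s₀ il.1) + aeval G₁ (psum E il.1 il.2)) = _
    rw [value_add, value_C, value_aeval_poly]
    congr 1
    rw [value_eq_aeval]
    congr 2
    funext j
    exact hG₁ x hx j
  -- the situation at `v₀`
  have hup₀ : ∀ s, value x₀ (up s) =
      ((v₀ (Sum.inr (Sum.inl (Sum.inl (Sum.inl (Sum.inr s))))) : ℂˣ) : ℂ) := by
    intro s
    rw [hup]
    exact (hv₀.2.1.1 s).symm
  have hux₀ : ∀ s, value x₀ (up s) ≠ 0 := by
    intro s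
    rw [hup₀]
    exact Units.ne_zero _
  have hbw₀ : bw x₀ hux₀ = prl (prr v₀) := by
    funext j
    apply Units.ext
    rw [← hG₁ x₀ hux₀ j]
    rcases j with ((j | j) | j) | j
    · exact value_C x₀ _
    · exact hup₀ j
    · change value x₀ (C (-1)) = _
      rw [value_C]
      exact hv₀.2.1.2.symm
    · exact value_C x₀ _
  have hg₀ : ∀ il, value x₀ (g il) = ((v₀ (Sum.inr (Sum.inr il)) : ℂˣ) : ℂ) := by
    rintro ⟨i, l⟩
    rw [hg x₀ hux₀, hbw₀]
    exact ((chainSet_solve hv₀.2 i).1 l).symm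
  have hH₀ : ∀ j, value x₀ (H j) = ((v₀ j : ℂˣ) : ℂ) := by
    rintro (j | j | j)
    · exact value_X x₀ _
    · change value x₀ (G₁ j) = _
      rw [hG₁ x₀ hux₀ j, hbw₀]
      rfl
    · exact hg₀ j
  refine ⟨((∏ s, up s) * ∏ il, g il) * aeval H f, ⟨x₀, hv₀.1, ?_⟩, ?_⟩
  · rw [value_mul, value_mul, value_prod, value_prod, value_aeval_poly]
    refine mul_ne_zero (mul_ne_zero ?_ ?_) ?_
    · exact Finset.prod_ne_zero_iff.mpr fun s _ => hux₀ s
    · refine Finset.prod_ne_zero_iff.mpr fun il _ => ?_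
      rw [hg₀]
      exact Units.ne_zero _
    · intro h0
      apply hf
      rw [value_eq_aeval, ← h0]
      congr 2
      funext j
      exact (hH₀ j).symm
  · intro x hxV hx
    rw [value_mul, value_mul, value_prod, value_prod] at hx
    have hux : ∀ s, value x (up s) ≠ 0 := fun s => Finset.prod_ne_zero_iff.mp
      (left_ne_zero_of_mul (left_ne_zero_of_mul hx)) s (Finset.mem_univ _)
    have hgx : ∀ il, value x (g il) ≠ 0 := fun il => Finset.prod_ne_zero_iff.mp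
      (right_ne_zero_of_mul (left_ne_zero_of_mul hx)) il (Finset.mem_univ _)
    have hfx := right_ne_zero_of_mul hx
    have h4 : ∀ i (l : Fin (3 * t + 2)), s₀ i + value (bw x hux) (psum E i l) ≠ 0 := by
      intro i l
      have h5 := hgx (i, l)
      rw [hg x hux] at h5
      exact h5
    have hbase : bw x hux ∈ {w : Torus (Om σ ⊕ ((Fin c × Fin q) ⊕ Fin 2)) |
        prl w ∈ baseFib (fun s => ev x (F s))} :=
      bpt_mem (fun s => ev x (F s)) y₀ hy0 (fun s => by rw [← hup]; exact hux s)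
    refine ⟨cpt (3 * t + 2) E (bw x hux) s₀ h4, cpt_mem hbase
      (psum_eq_zero (c := c) hχ (hVG x hxV) _ hbase) s₀ h4, ?_⟩
    intro hmem
    apply hfx
    rw [value_aeval_poly, ← hmem f hfF, value_eq_aeval]
    congr 2
    funext j
    rcases j with j | j | j
    · exact value_X x _
    · exact hG₁ x hux j
    · exact hg x hux j

end Slice

end Pool.Agent.Helper10
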