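import Pool.Agent.Helper10.UV.Fib

/-!
The source sets: pairs `(y, u)` with `u - y` given, and cyclic chains of lines.
-/

namespace Pool.Agent.Helper10

open MvPolynomial

/-- the index set of the wires of the base -/
abbrev Om (σ : Type) : Type := (σ ⊕ σ) ⊕ Unit

/-- the index set of the source torus -/
abbrev Tau (σ : Type) (q c t : ℕ) : Type :=
  (Om σ ⊕ ((Fin c × Fin q) ⊕ Fin 2)) ⊕ (Fin c × Fin (3 * t + 2))

section Fibre

variable {σ : Type} {q : ℕ}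

/-- the polynomial `G (u - y)` -/
noncomputable def diffPoly (G : MvPolynomial σ ℤ) : MvPolynomial (Om σ) ℤ :=
  aeval (fun s => X (Sum.inl (Sum.inr s)) - X (Sum.inl (Sum.inl s))) G

theorem aeval_diffPoly {R : Type} [CommRing R] (G : MvPolynomial σ ℤ) (z : Om σ → R) :
    aeval z (diffPoly G) = aeval (fun s => z (Sum.inl (Sum.inr s)) - z (Sum.inl (Sum.inl s))) G := by
  unfold diffPoly
  rw [← AlgHom.comp_apply]
  congr 1
  apply algHom_ext
  intro s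
  rw [aeval_X, AlgHom.comp_apply, aeval_X, map_sub, aeval_X, aeval_X]

/-- the property of the sequence of monomials -/
def Encodes (t : ℕ) (χ : ℕ → (Om σ ⊕ Fin q →₀ ℕ)) (G : Fin q → MvPolynomial σ ℤ) : Prop :=
  ∀ (R : Type) [CommRing R] (z : Om σ ⊕ Fin q → R), z (Sum.inl (Sum.inr ())) = -1 →
    ∑ l ∈ Finset.range t, mval z (χ l) =
      ∑ j, z (Sum.inr j) * aeval (fun s => z (Sum.inl s)) (diffPoly (G j))

theorem exists_encodes (G : Fin q → MvPolynomial σ ℤ) :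
    ∃ (t : ℕ) (χ : ℕ → (Om σ ⊕ Fin q →₀ ℕ)), Encodes t χ G :=
  exists_encoding (Sum.inr ()) (fun j => diffPoly (G j))

variable [Fintype σ] {c t : ℕ}

/-- the fibre of the source set -/
def srcFib (c t : ℕ) (χ : ℕ → (Om σ ⊕ Fin q →₀ ℕ)) (v : σ → ℂˣ) : Set (Torus (Tau σ q c t)) :=
  chainSet (3 * t + 2) (gE t (Sum.inr ()) χ) {w | prl w ∈ baseFib v}

theorem psum_eq_zero {χ : ℕ → (Om σ ⊕ Fin q →₀ ℕ)} {G : Fin q → MvPolynomial σ ℤ}
    (hχ : Encodes t χ G) {v : σ → ℂˣ} (hv : ∀ j, aeval (fun s => ((v s : ℂˣ) : ℂ)) (G j) = 0) :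
    ∀ w ∈ {w : Torus (Om σ ⊕ ((Fin c × Fin q) ⊕ Fin 2)) | prl w ∈ baseFib v}, ∀ i,
      value w (psum (gE t (Sum.inr ()) χ) i (3 * t + 2)) = 0 := by
  intro w hw i
  have ho : ((w (Sum.inl (Sum.inr ())) : ℂˣ) : ℂ) = -1 := hw.2
  rw [value_eq_aeval, aeval_psum_last hχ i _ ho]
  apply Finset.sum_eq_zero
  intro j _
  rw [aeval_diffPoly]
  have h1 : (fun s => ((w (Sum.inl (Sum.inl (Sum.inr s))) : ℂˣ) : ℂ) -
      ((w (Sum.inl (Sum.inl (Sum.inl s))) : ℂˣ) : ℂ)) = fun s => ((v s : ℂˣ) : ℂ) := by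
    funext s
    have h2 : ((w (Sum.inl (Sum.inl (Sum.inr s))) : ℂˣ) : ℂ) =
      ((w (Sum.inl (Sum.inl (Sum.inl s))) : ℂˣ) : ℂ) + ((v s : ℂˣ) : ℂ) := hw.1 s
    rw [h2]
    ring
  rw [h1, hv j, mul_zero]

theorem isIrreducible_srcFib {χ : ℕ → (Om σ ⊕ Fin q →₀ ℕ)} {G : Fin q → MvPolynomial σ ℤ}
    (hχ : Encodes t χ G) {v : σ → ℂˣ} (hv : ∀ j, aeval (fun s => ((v s : ℂˣ) : ℂ)) (G j) = 0) :
    IsIrreducible (srcFib c t χ v) := by
  apply chainSet_irreducible (psum_eq_zero hχ hv)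
  have h1 := isIrreducible_prod (isIrreducible_baseFib v)
    (isIrreducible_univ (ι := (Fin c × Fin q) ⊕ Fin 2))
  have h2 : {w : Torus (Om σ ⊕ ((Fin c × Fin q) ⊕ Fin 2)) | prl w ∈ baseFib v} =
      {x | prl x ∈ baseFib v ∧ prr x ∈ (Set.univ : Set (Torus ((Fin c × Fin q) ⊕ Fin 2)))} := by
    ext w
    exact ⟨fun h => ⟨h, Set.mem_univ _⟩, fun h => h.1⟩
  rw [h2]
  exact h1

/-- characters which are constant on the fibre -/
theorem const_srcFib {χ : ℕ → (Om σ ⊕ Fin q →₀ ℕ)} {G : Fin q → MvPolynomial σ ℤ}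
    (hχ : Encodes t χ G) {v : σ → ℂˣ} (hv : ∀ j, aeval (fun s => ((v s : ℂˣ) : ℂ)) (G j) = 0)
    {m : Tau σ q c t → ℤ} {a : ℂˣ} (hm : ∀ w ∈ srcFib c t χ v, chr m w = a) :
    (∀ i, m (Sum.inr i) = 0) ∧ (∀ i, m (Sum.inl (Sum.inr i)) = 0) ∧
      ∀ s, m (Sum.inl (Sum.inl (Sum.inl s))) = 0 := by
  have hd : ∀ i : Fin c, ∃ x ∈ {w : Torus (Om σ ⊕ ((Fin c × Fin q) ⊕ Fin 2)) |
      prl w ∈ baseFib v}, Function.Injective
      fun l : Fin (3 * t + 2) => value x (psum (gE t (Sum.inr ()) χ) i l) := by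
    intro i
    obtain ⟨x₁, hx₁⟩ := baseFib_nonempty v
    obtain ⟨w, hw, hinj⟩ := exists_distinct t (Sum.inr ()) χ i x₁ hx₁.2
    refine ⟨w, (by
      change prl w ∈ baseFib v
      rw [hw]
      exact hx₁), ?_⟩
    intro l l' hll
    by_contra hne
    rcases Nat.lt_or_gt_of_ne (fun h => hne (Fin.ext h)) with hlt | hlt
    · exact hinj l l' hlt l'.2 hll
    · exact hinj l' l hlt l.2 hll.symm
  obtain ⟨h1, h2⟩ := const_chainSet (psum_eq_zero hχ hv) hd hm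
  obtain ⟨h3, h4⟩ := const_prodFull (baseFib_nonempty v) h1
  exact ⟨h2, h4, const_baseFib h3⟩

theorem dk_srcFib_ge (k : Type) [Field k] [Algebra k ℂ] {χ : ℕ → (Om σ ⊕ Fin q →₀ ℕ)}
    {G : Fin q → MvPolynomial σ ℤ}
    (hχ : Encodes t χ G) {v : σ → ℂˣ} (hv : ∀ j, aeval (fun s => ((v s : ℂˣ) : ℂ)) (G j) = 0) :
    (Fintype.card σ : ℕ∞) + kr k (Set.range fun s => ((v s : ℂˣ) : ℂ)) + (c * q + 2 + c : ℕ) ≤
      dk k (srcFib c t χ v) := by
  have h1 := dk_baseFib_ge k v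
  have h2 := dk_prodFull_ge' k (θ := (Fin c × Fin q) ⊕ Fin 2) (isIrreducible_baseFib v)
  have h3 : IsIrreducible {w : Torus (Om σ ⊕ ((Fin c × Fin q) ⊕ Fin 2)) | prl w ∈ baseFib v} := by
    have h1 := isIrreducible_prod (isIrreducible_baseFib v)
      (isIrreducible_univ (ι := (Fin c × Fin q) ⊕ Fin 2))
    have h2 : {w : Torus (Om σ ⊕ ((Fin c × Fin q) ⊕ Fin 2)) | prl w ∈ baseFib v} =
        {x | prl x ∈ baseFib v ∧ prr x ∈ (Set.univ : Set (Torus ((Fin c × Fin q) ⊕ Fin 2)))} := by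
      ext w
      exact ⟨fun h => ⟨h, Set.mem_univ _⟩, fun h => h.1⟩
    rw [h2]
    exact h1
  have h4 := dk_chainSet_ge' (N := 3 * t + 2) k (psum_eq_zero hχ hv) h3
  rw [Fintype.card_sum, Fintype.card_prod, Fintype.card_fin, Fintype.card_fin,
    Fintype.card_fin] at h2
  have h5 : dk k (baseFib v) + (c * q + 2 + c) ≤ dk k (srcFib c t χ v) := by
    have h6 : dk k {w : Torus (Om σ ⊕ ((Fin c × Fin q) ⊕ Fin 2)) | prl w ∈ baseFib v} + c ≤
      dk k (srcFib c t χ v) := h4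
    have h7 : dk k (baseFib v) + (c * q + 2) ≤
      dk k {w : Torus (Om σ ⊕ ((Fin c × Fin q) ⊕ Fin 2)) | prl w ∈ baseFib v} := h2
    omega
  calc (Fintype.card σ : ℕ∞) + kr k (Set.range fun s => ((v s : ℂˣ) : ℂ)) + (c * q + 2 + c : ℕ)
      ≤ dk k (baseFib v) + (c * q + 2 + c : ℕ) := by gcongr
    _ ≤ dk k (srcFib c t χ v) := by exact_mod_cast h5

theorem dm_hull_srcFib_le {χ : ℕ → (Om σ ⊕ Fin q →₀ ℕ)} {G : Fin q → MvPolynomial σ ℤ}
    (hχ : Encodes t χ G) {v : σ → ℂˣ} (hv : ∀ j, aeval (fun s => ((v s : ℂˣ) : ℂ)) (G j) = 0) :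
    dm (hull (srcFib c t χ v)) + 1 ≤ Fintype.card (Tau σ q c t) := by
  classical
  have hirr := isIrreducible_srcFib (c := c) hχ hv
  have h1 := (hull_properties hirr).2.1
  have h2 : 1 ≤ Module.finrank ℤ (rel (srcFib c t χ v)) := by
    let m : Tau σ q c t → ℤ := Pi.single (Sum.inl (Sum.inl (Sum.inr ()))) 1
    have hm : m ∈ rel (srcFib c t χ v) := by
      refine ⟨2, by norm_num, fun x hx => ?_⟩
      rw [chr_single, zpow_one]
      apply Units.ext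
      rw [Units.val_pow_eq_pow_val]
      have h3 : ((x (Sum.inl (Sum.inl (Sum.inr ()))) : ℂˣ) : ℂ) = -1 := hx.1.2
      rw [h3]
      norm_num
    have hm0 : (⟨m, hm⟩ : rel (srcFib c t χ v)) ≠ 0 := by
      intro h
      have h4 := congrFun (congrArg Subtype.val h) (Sum.inl (Sum.inl (Sum.inr ())))
      change (Pi.single (Sum.inl (Sum.inl (Sum.inr ()))) 1 : Tau σ q c t → ℤ)
        (Sum.inl (Sum.inl (Sum.inr ()))) = 0 at h4
      rw [Pi.single_eq_same] at h4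
      exact one_ne_zero h4
    have : Nontrivial (rel (srcFib c t χ v)) := ⟨⟨_, _, hm0⟩⟩
    exact Nat.one_le_iff_ne_zero.mpr (Module.finrank_pos (R := ℤ)).ne'
  omega

theorem card_Tau : Fintype.card (Tau σ q c t) =
    2 * Fintype.card σ + 1 + (c * q + 2) + c * (3 * t + 2) := by
  simp only [Fintype.card_sum, Fintype.card_prod, Fintype.card_fin, Fintype.card_unit]
  ring

end Fibre

section Total

variable {ι σ : Type} [Fintype ι] [Fintype σ] {q c t : ℕ}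

/-- the source set over `V` -/
def srcTot (c t : ℕ) (χ : ℕ → (Om σ ⊕ Fin q →₀ ℕ)) (F : σ → ι ⊕ ℂˣ) (V : Set (Torus ι)) :
    Set (Torus (ι ⊕ Tau σ q c t)) :=
  {z | prl z ∈ V ∧ prr z ∈ srcFib c t χ (fun s => ev (prl z) (F s))}

/-- the base of the source set -/
def baseTot (F : σ → ι ⊕ ℂˣ) (V : Set (Torus ι)) : Set (Torus (ι ⊕ Om σ)) :=
  {z | prl z ∈ V ∧ prr z ∈ baseFib (fun s => ev (prl z) (F s))}

omit [Fintype ι] [Fintype σ] in
theorem baseTot_eq [DecidableEq ι] [DecidableEq σ] (F : σ → ι ⊕ ℂˣ) (V : Set (Torus ι)) :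
    baseTot F V = (fun z : Torus (ι ⊕ (σ ⊕ σ)) => (pair (prl z) (pair (prr z) (fun _ => -1)) :
      Torus (ι ⊕ Om σ))) '' linesOver V F := by
  ext z
  constructor
  · rintro ⟨h1, h2, h3⟩
    refine ⟨pair (prl z) (prl (prr z)), ⟨h1, h2⟩, ?_⟩
    funext j
    rcases j with j | j | j
    · rfl
    · rfl
    · have h4 : ((prr z (Sum.inr ()) : ℂˣ) : ℂ) = ((-1 : ℂˣ) : ℂ) := by
        rw [h3, Units.val_neg, Units.val_one]
      exact (Units.ext h4).symm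
  · rintro ⟨w, ⟨h1, h2⟩, rfl⟩
    refine ⟨h1, h2, ?_⟩
    change ((-1 : ℂˣ) : ℂ) = -1
    rw [Units.val_neg, Units.val_one]

theorem isIrreducible_baseTot (F : σ → ι ⊕ ℂˣ) {V : Set (Torus ι)} (hV : IsIrreducible V) :
    IsIrreducible (baseTot F V) := by
  classical
  rw [baseTot_eq]
  refine (isIrreducible_linesOver hV F).image _ (Continuous.continuousOn ?_)
  have h : (fun z : Torus (ι ⊕ (σ ⊕ σ)) => (pair (prl z) (pair (prr z) (fun _ => -1)) :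
      Torus (ι ⊕ Om σ))) =
      mono (pair 1 (pair 1 (fun _ => -1))) (fun j : ι ⊕ Om σ =>
        Sum.elim (fun i => Pi.single (Sum.inl i) (1 : ℤ)) (Sum.elim
          (fun s => Pi.single (Sum.inr s) (1 : ℤ)) (fun _ => 0)) j) := by
    funext z j
    rcases j with j | j | j
    · change z (Sum.inl j) = 1 * chr (Pi.single (Sum.inl j) 1) z
      rw [chr_single, zpow_one, one_mul]
    · change z (Sum.inr j) = 1 * chr (Pi.single (Sum.inr j) 1) z
      rw [chr_single, zpow_one, one_mul]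
    · change (-1 : ℂˣ) = -1 * chr (0 : ι ⊕ (σ ⊕ σ) → ℤ) z
      rw [chr_zero, mul_one]
  rw [h]
  exact continuous_mono _ _

/-- the reindexing -/
def reidx (j : ι ⊕ Tau σ q c t) :
    ((ι ⊕ Om σ) ⊕ ((Fin c × Fin q) ⊕ Fin 2)) ⊕ (Fin c × Fin (3 * t + 2)) :=
  Sum.elim (fun i => Sum.inl (Sum.inl (Sum.inl i)))
    (Sum.elim (Sum.elim (fun a => Sum.inl (Sum.inl (Sum.inr a))) (fun p => Sum.inl (Sum.inr p)))
      (fun l => Sum.inr l)) j

omit [Fintype ι] [Fintype σ] in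
theorem gE_inr (χ : ℕ → (Om σ ⊕ Fin q →₀ ℕ)) (i : Fin c) (n : ℕ) :
    gE t (Sum.inr (Sum.inr ()) : ι ⊕ Om σ)
      (fun l => Finsupp.mapDomain (Sum.map Sum.inr id : Om σ ⊕ Fin q → (ι ⊕ Om σ) ⊕ Fin q) (χ l))
      i n = Finsupp.mapDomain (Sum.map Sum.inr id :
        Om σ ⊕ ((Fin c × Fin q) ⊕ Fin 2) → (ι ⊕ Om σ) ⊕ ((Fin c × Fin q) ⊕ Fin 2))
        (gE t (Sum.inr ()) χ i n) := by
  unfold gE
  split_ifs
  · rw [← Finsupp.mapDomain_comp, ← Finsupp.mapDomain_comp]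
    congr 1
    funext r
    rcases r with r | r <;> rfl
  · rw [Finsupp.mapDomain_single]
    rfl
  · rw [Finsupp.mapDomain_single]
    rfl
  · rw [Finsupp.mapDomain_add, Finsupp.mapDomain_single, Finsupp.mapDomain_single]
    rfl
  · rw [Finsupp.mapDomain_add, Finsupp.mapDomain_single, Finsupp.mapDomain_single]
    rfl

omit [Fintype ι] [Fintype σ] in
theorem value_monomial_mapDomain {ρ ρ' : Type} (φ : ρ → ρ') (w : Torus ρ') (α : ρ →₀ ℕ) :
    value w (monomial (Finsupp.mapDomain φ α) 1) =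
      value ((fun r => w (φ r)) : Torus ρ) (monomial α 1) := by
  rw [value_eq_aeval, value_eq_aeval, aeval_monomial_one, aeval_monomial_one, mval_mapDomain]

omit [Fintype ι] in
theorem srcTot_eq (χ : ℕ → (Om σ ⊕ Fin q →₀ ℕ)) (F : σ → ι ⊕ ℂˣ) (V : Set (Torus ι)) :
    srcTot c t χ F V = (fun z : Torus (((ι ⊕ Om σ) ⊕ ((Fin c × Fin q) ⊕ Fin 2)) ⊕
      (Fin c × Fin (3 * t + 2))) => ((fun j => z (reidx j)) : Torus (ι ⊕ Tau σ q c t))) ''
      chainSet (3 * t + 2) (gE t (Sum.inr (Sum.inr ()) : ι ⊕ Om σ)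
        (fun l => Finsupp.mapDomain (Sum.map Sum.inr id : Om σ ⊕ Fin q → (ι ⊕ Om σ) ⊕ Fin q)
          (χ l))) {w | prl w ∈ baseTot F V} := by
  ext z
  constructor
  · rintro ⟨h1, h2⟩
    let w : Torus (((ι ⊕ Om σ) ⊕ ((Fin c × Fin q) ⊕ Fin 2)) ⊕ (Fin c × Fin (3 * t + 2))) :=
      Sum.elim (Sum.elim (Sum.elim (fun i => z (Sum.inl i))
        (fun a => z (Sum.inr (Sum.inl (Sum.inl a))))) (fun p => z (Sum.inr (Sum.inl (Sum.inr p)))))
        (fun l => z (Sum.inr (Sum.inr l)))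
    refine ⟨w, ⟨⟨h1, h2.1⟩, fun i l => ?_⟩, ?_⟩
    · rw [gE_inr, value_monomial_mapDomain]
      have h3 := h2.2 i l
      have h4 : ((fun r => prl w ((Sum.map Sum.inr id : Om σ ⊕ ((Fin c × Fin q) ⊕ Fin 2) →
          (ι ⊕ Om σ) ⊕ ((Fin c × Fin q) ⊕ Fin 2)) r)) :
          Torus (Om σ ⊕ ((Fin c × Fin q) ⊕ Fin 2))) = prl (prr z) := by
        funext r
        rcases r with r | r <;> rfl
      rw [h4]
      exact h3
    · funext j
      rcases j with j | (j | j) | j <;> rfl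
  · rintro ⟨w, ⟨h1, h2⟩, rfl⟩
    refine ⟨h1.1, h1.2, fun i l => ?_⟩
    have h3 := h2 i l
    rw [gE_inr, value_monomial_mapDomain] at h3
    have h4 : ((fun r => prl w ((Sum.map Sum.inr id : Om σ ⊕ ((Fin c × Fin q) ⊕ Fin 2) →
          (ι ⊕ Om σ) ⊕ ((Fin c × Fin q) ⊕ Fin 2)) r)) :
          Torus (Om σ ⊕ ((Fin c × Fin q) ⊕ Fin 2))) =
          prl (prr ((fun j => w (reidx j)) : Torus (ι ⊕ Tau σ q c t))) := by
      funext r
      rcases r with r | r <;> rfl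
    rw [h4] at h3
    exact h3

theorem isIrreducible_srcTot {χ : ℕ → (Om σ ⊕ Fin q →₀ ℕ)} {G : Fin q → MvPolynomial σ ℤ}
    (hχ : Encodes t χ G) (F : σ → ι ⊕ ℂˣ) {V : Set (Torus ι)} (hV : IsIrreducible V)
    (hVG : ∀ x ∈ V, ∀ j, aeval (fun s => ((ev x (F s) : ℂˣ) : ℂ)) (G j) = 0) :
    IsIrreducible (srcTot c t χ F V) := by
  rw [srcTot_eq]
  have h1 : IsIrreducible {w : Torus ((ι ⊕ Om σ) ⊕ ((Fin c × Fin q) ⊕ Fin 2)) |
      prl w ∈ baseTot F V} := by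
    have h1 := isIrreducible_prod (isIrreducible_baseTot F hV)
      (isIrreducible_univ (ι := (Fin c × Fin q) ⊕ Fin 2))
    have h2 : {w : Torus ((ι ⊕ Om σ) ⊕ ((Fin c × Fin q) ⊕ Fin 2)) | prl w ∈ baseTot F V} =
        {x | prl x ∈ baseTot F V ∧ prr x ∈ (Set.univ : Set (Torus ((Fin c × Fin q) ⊕ Fin 2)))} := by
      ext w
      exact ⟨fun h => ⟨h, Set.mem_univ _⟩, fun h => h.1⟩
    rw [h2]
    exact h1
  have h2 : ∀ w ∈ {w : Torus ((ι ⊕ Om σ) ⊕ ((Fin c × Fin q) ⊕ Fin 2)) | prl w ∈ baseTot F V},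
      ∀ i, value w (psum (gE t (Sum.inr (Sum.inr ()) : ι ⊕ Om σ)
        (fun l => Finsupp.mapDomain (Sum.map Sum.inr id : Om σ ⊕ Fin q → (ι ⊕ Om σ) ⊕ Fin q)
          (χ l))) i (3 * t + 2)) = 0 := by
    intro w hw i
    have h3 := psum_eq_zero (c := c) hχ (hVG (prl (prl w)) hw.1)
      ((fun r => w ((Sum.map Sum.inr id : Om σ ⊕ ((Fin c × Fin q) ⊕ Fin 2) →
          (ι ⊕ Om σ) ⊕ ((Fin c × Fin q) ⊕ Fin 2)) r)) :
          Torus (Om σ ⊕ ((Fin c × Fin q) ⊕ Fin 2))) hw.2 i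
    rw [value_psum] at h3 ⊢
    rw [← h3]
    refine Finset.sum_congr rfl fun n _ => ?_
    rw [gE_inr, value_monomial_mapDomain]
  have h3 := chainSet_irreducible (N := 3 * t + 2) h2 h1
  obtain ⟨K, _, _, z, hz⟩ := exists_isGeneric h3
  exact (hz.proj reidx).isIrreducible

end Total

end Pool.Agent.Helper10
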