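import Pool.Agent.Helper10.UV.Src

/-!
The upper bound for the dimension of sets defined by the equations of the lines.
-/

namespace Pool.Agent.Helper10

open MvPolynomial

section Upper

variable {ι α β : Type} [Fintype ι] [Fintype α] [Fintype β] {q c t : ℕ}

/-- the values of the pairs: coordinates and constants -/
def FF (av : α → ℂˣ) (bv : β → ℂˣ) (s : ι ⊕ (α ⊕ β)) : ι ⊕ ℂˣ :=
  Sum.elim Sum.inl (fun r => Sum.inr (Sum.elim av bv r)) s

theorem dm_le_of_lines {χ : ℕ → (Om (ι ⊕ (α ⊕ β)) ⊕ Fin q →₀ ℕ)}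
    {G : Fin q → MvPolynomial (ι ⊕ (α ⊕ β)) ℤ} (hχ : Encodes t χ G) {av : α → ℂˣ} {D₀ : ℕ}
    (hG : ∀ (K : Type) [Field K] [Algebra ℂ K] (z : ι ⊕ (α ⊕ β) → K),
      (∀ a, z (Sum.inr (Sum.inl a)) = algebraMap ℂ K ((av a : ℂˣ) : ℂ)) →
      (∀ j, aeval z (G j) = 0) →
      kr ℂ (Set.range fun j : ι ⊕ β => z (Sum.elim Sum.inl (fun b => Sum.inr (Sum.inr b)) j)) ≤ D₀)
    {T₀ : Set (Torus ι)} (hD : c + D₀ = dm T₀ + Fintype.card β)
    {Y : Set (Torus (ι ⊕ Tau (ι ⊕ (α ⊕ β)) q c t))} (hY : IsIrreducible Y)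
    (hT : ∀ v ∈ Y, prl v ∈ T₀)
    (hx : ∀ v ∈ Y, ∀ i : ι, ((v (Sum.inr (Sum.inl (Sum.inl (Sum.inl (Sum.inr (Sum.inl i)))))) : ℂˣ) : ℂ) =
      ((v (Sum.inr (Sum.inl (Sum.inl (Sum.inl (Sum.inl (Sum.inl i)))))) : ℂˣ) : ℂ) +
        ((v (Sum.inl i) : ℂˣ) : ℂ))
    (ha : ∀ v ∈ Y, ∀ a : α,
      ((v (Sum.inr (Sum.inl (Sum.inl (Sum.inl (Sum.inr (Sum.inr (Sum.inl a))))))) : ℂˣ) : ℂ) =
      ((v (Sum.inr (Sum.inl (Sum.inl (Sum.inl (Sum.inl (Sum.inr (Sum.inl a))))))) : ℂˣ) : ℂ) +
        ((av a : ℂˣ) : ℂ))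
    (ho : ∀ v ∈ Y, ((v (Sum.inr (Sum.inl (Sum.inl (Sum.inr ())))) : ℂˣ) : ℂ) = -1)
    (hch : ∀ v ∈ Y, ∀ (i : Fin c) (l : Fin (3 * t + 2)), ((v (Sum.inr (Sum.inr (i, l))) : ℂˣ) : ℂ) +
      value (prl (prr v)) (monomial (gE t (Sum.inr ()) χ i l) 1) =
        ((v (Sum.inr (Sum.inr (i, nxt l))) : ℂˣ) : ℂ)) :
    dm Y ≤ dm T₀ + Fintype.card (ι ⊕ (α ⊕ β)) + Fintype.card β + (c * q + 2) := by
  classical
  obtain ⟨K, _, _, η, hη⟩ := exists_isGeneric hY
  have h1 := hη.kr_eq ℂ hY
  rw [dk_complex] at h1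
  set zx : ι → K := fun i => ((η (Sum.inl i) : Kˣ) : K) with hzx
  set z : Om (ι ⊕ (α ⊕ β)) ⊕ ((Fin c × Fin q) ⊕ Fin 2) → K :=
    fun a => ((η (Sum.inr (Sum.inl a)) : Kˣ) : K) with hz
  set zr : Fin c × Fin (3 * t + 2) → K := fun a => ((η (Sum.inr (Sum.inr a)) : Kˣ) : K) with hzr
  set zy : ι ⊕ (α ⊕ β) → K := fun s => z (Sum.inl (Sum.inl (Sum.inl s))) with hzy
  set d : ι ⊕ (α ⊕ β) → K :=
    fun s => z (Sum.inl (Sum.inl (Sum.inr s))) - z (Sum.inl (Sum.inl (Sum.inl s))) with hd
  -- the equations at the generic point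
  have hch' : ∀ (i : Fin c) (l : Fin (3 * t + 2)), zr (i, l) +
      aeval z (monomial (gE t (Sum.inr ()) χ i l) (1 : ℂ)) = zr (i, nxt l) := by
    intro i l
    have h2 := (hη (X (Sum.inr (Sum.inr (i, l))) + rename (fun a => Sum.inr (Sum.inl a))
      (monomial (gE t (Sum.inr ()) χ i l) 1) - X (Sum.inr (Sum.inr (i, nxt l))))).mp (by
        intro v hv
        have h3 := hch v hv i l
        rw [value_sub, value_add, value_X, value_X, ← h3]
        have h4 : value v (rename (fun a => Sum.inr (Sum.inl a))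
            (monomial (gE t (Sum.inr ()) χ i l) 1)) =
            value (prl (prr v)) (monomial (gE t (Sum.inr ()) χ i l) 1) := by
          unfold value
          rw [eval_rename]
          rfl
        rw [h4, sub_self])
    rw [map_sub, map_add, aeval_X, aeval_X, aeval_rename, sub_eq_zero] at h2
    exact h2
  have ho' : z (Sum.inl (Sum.inr ())) = -1 := by
    have h2 := (hη (X (Sum.inr (Sum.inl (Sum.inl (Sum.inr ())))) + 1)).mp (by
      intro v hv
      rw [value_add, value_X, value_one, ho v hv, neg_add_cancel])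
    rw [map_add, aeval_X, map_one] at h2
    exact eq_neg_of_add_eq_zero_left h2
  have hdx : ∀ i, d (Sum.inl i) = zx i := by
    intro i
    have h2 := (hη (X (Sum.inr (Sum.inl (Sum.inl (Sum.inl (Sum.inr (Sum.inl i)))))) -
      (X (Sum.inr (Sum.inl (Sum.inl (Sum.inl (Sum.inl (Sum.inl i)))))) + X (Sum.inl i)))).mp (by
      intro v hv
      rw [value_sub, value_add, value_X, value_X, value_X, hx v hv i, sub_self])
    rw [map_sub, map_add, aeval_X, aeval_X, aeval_X, sub_eq_zero] at h2
    change z (Sum.inl (Sum.inl (Sum.inr (Sum.inl i)))) -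
      z (Sum.inl (Sum.inl (Sum.inl (Sum.inl i)))) = zx i
    rw [sub_eq_iff_eq_add, add_comm]
    exact h2
  have hda : ∀ a, d (Sum.inr (Sum.inl a)) = algebraMap ℂ K ((av a : ℂˣ) : ℂ) := by
    intro a
    have h2 := (hη (X (Sum.inr (Sum.inl (Sum.inl (Sum.inl (Sum.inr (Sum.inr (Sum.inl a))))))) -
      (X (Sum.inr (Sum.inl (Sum.inl (Sum.inl (Sum.inl (Sum.inr (Sum.inl a))))))) +
        C ((av a : ℂˣ) : ℂ)))).mp (by
      intro v hv
      rw [value_sub, value_add, value_X, value_X, value_C, ha v hv a, sub_self])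
    rw [map_sub, map_add, aeval_X, aeval_X, aeval_C, sub_eq_zero] at h2
    change z (Sum.inl (Sum.inl (Sum.inr (Sum.inr (Sum.inl a))))) -
      z (Sum.inl (Sum.inl (Sum.inl (Sum.inr (Sum.inl a))))) = _
    rw [sub_eq_iff_eq_add, add_comm]
    exact h2
  have hsolve := fun i => chain_solve (fun l : Fin (3 * t + 2) => zr (i, l))
    (fun n => aeval z (monomial (gE t (Sum.inr ()) χ i n) (1 : ℂ))) (hch' i)
  have hsum : ∀ i, ∑ j, z (Sum.inr (Sum.inl (i, j))) * aeval d (G j) = 0 := by
    intro i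
    have h2 := aeval_psum_last hχ i z ho'
    have h3 : ∀ j, aeval (fun s => z (Sum.inl s)) (diffPoly (G j)) = aeval d (G j) := by
      intro j
      rw [aeval_diffPoly]
    rw [Finset.sum_congr rfl fun j _ => by rw [h3 j]] at h2
    rw [← h2]
    unfold psum
    rw [map_sum]
    exact (hsolve i).2
  -- the base
  set W : ι ⊕ β → K := fun j => d (Sum.elim Sum.inl (fun b => Sum.inr (Sum.inr b)) j) with hW
  set zr0 : Fin c → K := fun i => zr (i, 0) with hzr0
  have hWT : kr ℂ (Set.range W) ≤ dm T₀ + Fintype.card β := by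
    have h2 : Set.range W = Set.range zx ∪ Set.range (fun b : β => d (Sum.inr (Sum.inr b))) := by
      rw [← Set.Sum.elim_range]
      congr 1
      funext j
      rcases j with j | j
      · exact hdx j
      · rfl
    rw [h2]
    refine (kr_union_le _ _).trans ?_
    gcongr
    · exact kr_le_dm_of_proj hη (fun i : ι => Sum.inl i) hT
    · exact (kr_le_encard _).trans (encard_range_le _)
  -- all coordinates are generated
  have hgen : ∀ S : Set K, Set.range W ⊆ Algebra.adjoin ℂ S → Set.range zy ⊆ Algebra.adjoin ℂ S →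
      (∀ r, z (Sum.inr r) ∈ Algebra.adjoin ℂ S) → Set.range zr0 ⊆ Algebra.adjoin ℂ S →
      ∀ j, ((η j : Kˣ) : K) ∈ Algebra.adjoin ℂ S := by
    intro S hS1 hS2 hS3 hS4
    have hd' : ∀ s, d s ∈ Algebra.adjoin ℂ S := by
      rintro (i | a | b)
      · exact hS1 ⟨Sum.inl i, rfl⟩
      · rw [hda a]
        exact algebraMap_mem _ _
      · exact hS1 ⟨Sum.inr b, rfl⟩
    have hz' : ∀ a, z a ∈ Algebra.adjoin ℂ S := by
      rintro (((s | s) | s) | r)
      · exact hS2 ⟨s, rfl⟩
      · have h2 : z (Sum.inl (Sum.inl (Sum.inr s))) = d s + zy s := by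
          rw [hd, hzy]
          ring
        rw [h2]
        exact add_mem (hd' s) (hS2 ⟨s, rfl⟩)
      · rw [ho']
        exact neg_mem (one_mem _)
      · exact hS3 r
    rintro (i | a | ⟨i, l⟩)
    · have h2 := hd' (Sum.inl i)
      rw [hdx i] at h2
      exact h2
    · exact hz' a
    · change zr (i, l) ∈ _
      rw [(hsolve i).1 l]
      apply add_mem
      · exact hS4 ⟨i, rfl⟩
      · apply sum_mem
        intro n _
        rw [aeval_monomial_one]
        unfold mval Finsupp.prod
        exact prod_mem fun r _ => pow_mem (hz' r) _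
  by_cases hall : ∀ j, aeval d (G j) = 0
  · have h2 := hG K d hda hall
    have h3 : kr ℂ (Set.range fun j => ((η j : Kˣ) : K)) ≤
        kr ℂ (((Set.range W ∪ Set.range zy) ∪ Set.range (fun r => z (Sum.inr r))) ∪
          Set.range zr0) := by
      apply kr_le_of_isAlgebraic
      rintro _ ⟨j, rfl⟩
      have hmem := hgen (((Set.range W ∪ Set.range zy) ∪ Set.range (fun r => z (Sum.inr r))) ∪
          Set.range zr0)
        (fun x hx => Algebra.subset_adjoin (Or.inl (Or.inl (Or.inl hx))))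
        (fun x hx => Algebra.subset_adjoin (Or.inl (Or.inl (Or.inr hx))))
        (fun r => Algebra.subset_adjoin (Or.inl (Or.inr ⟨r, rfl⟩)))
        (fun x hx => Algebra.subset_adjoin (Or.inr hx)) j
      exact isAlgebraic_algebraMap (⟨_, hmem⟩ : Algebra.adjoin ℂ _)
    have h4 : (dm Y : ℕ∞) ≤ ((D₀ + Fintype.card (ι ⊕ (α ⊕ β))) + (c * q + 2 : ℕ)) + c := by
      rw [← h1]
      refine h3.trans ((kr_union_le _ _).trans ?_)
      gcongr
      · refine (kr_union_le _ _).trans ?_
        gcongr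
        · refine (kr_union_le _ _).trans (add_le_add h2 ?_)
          exact (kr_le_encard _).trans (encard_range_le _)
        · refine (kr_le_encard _).trans ((encard_range_le _).trans ?_)
          rw [Fintype.card_sum, Fintype.card_prod, Fintype.card_fin, Fintype.card_fin,
            Fintype.card_fin]
      · refine (kr_le_encard _).trans ((encard_range_le _).trans ?_)
        rw [Fintype.card_fin]
    have h5 : dm Y ≤ ((D₀ + Fintype.card (ι ⊕ (α ⊕ β))) + (c * q + 2)) + c := by
      exact_mod_cast h4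
    omega
  · push Not at hall
    obtain ⟨j₀, hj₀⟩ := hall
    set P' : (Fin c × {j : Fin q // j ≠ j₀}) ⊕ Fin 2 → K := Sum.elim
      (fun ij => z (Sum.inr (Sum.inl (ij.1, ij.2.1)))) (fun r => z (Sum.inr (Sum.inr r))) with hP'
    have h3 : kr ℂ (Set.range fun j => ((η j : Kˣ) : K)) ≤
        kr ℂ (((Set.range W ∪ Set.range zy) ∪ Set.range P') ∪ Set.range zr0) := by
      have hd2 : ∀ j, aeval d (G j) ∈ Algebra.adjoin ℂ
          (((Set.range W ∪ Set.range zy) ∪ Set.range P') ∪ Set.range zr0) := by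
        intro j
        have h4 : ∀ s, d s ∈ Algebra.adjoin ℂ
          (((Set.range W ∪ Set.range zy) ∪ Set.range P') ∪ Set.range zr0) := by
          rintro (i | a | b)
          · exact Algebra.subset_adjoin (Or.inl (Or.inl (Or.inl ⟨Sum.inl i, rfl⟩)))
          · rw [hda a]
            exact algebraMap_mem _ _
          · exact Algebra.subset_adjoin (Or.inl (Or.inl (Or.inl ⟨Sum.inr b, rfl⟩)))
        have h5 : aeval d (G j) = aeval d (map (algebraMap ℤ ℂ) (G j)) :=
          (aeval_map_algebraMap ℂ _ _).symm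
        rw [h5]
        have h6 : aeval d (map (algebraMap ℤ ℂ) (G j)) ∈ Algebra.adjoin ℂ (Set.range d) := by
          rw [Algebra.adjoin_range_eq_range_aeval]
          exact ⟨_, rfl⟩
        exact Algebra.adjoin_le (by
          rintro _ ⟨s, rfl⟩
          exact h4 s) h6
      have halg : ∀ r, IsAlgebraic (Algebra.adjoin ℂ
          (((Set.range W ∪ Set.range zy) ∪ Set.range P') ∪ Set.range zr0)) (z (Sum.inr r)) := by
        rintro (⟨i, j⟩ | r)
        · by_cases hj : j = j₀
          · subst hj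
            refine isAlgebraic_of_mul_eq (h := -∑ j' ∈ Finset.univ.erase j,
              z (Sum.inr (Sum.inl (i, j'))) * aeval d (G j')) hj₀ (hd2 j) ?_ ?_
            · apply neg_mem
              apply sum_mem
              intro j' hj'
              apply mul_mem
              · exact Algebra.subset_adjoin (Or.inl (Or.inr
                  ⟨Sum.inl (i, ⟨j', Finset.ne_of_mem_erase hj'⟩), rfl⟩))
              · exact hd2 j'
            · have h5 := hsum i
              rw [← Finset.add_sum_erase Finset.univ _ (Finset.mem_univ j)] at h5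
              exact eq_neg_of_add_eq_zero_left h5
          · have hmem : z (Sum.inr (Sum.inl (i, j))) ∈ Algebra.adjoin ℂ
                (((Set.range W ∪ Set.range zy) ∪ Set.range P') ∪ Set.range zr0) :=
              Algebra.subset_adjoin (Or.inl (Or.inr ⟨Sum.inl (i, ⟨j, hj⟩), rfl⟩))
            exact isAlgebraic_algebraMap (⟨_, hmem⟩ : Algebra.adjoin ℂ
              (((Set.range W ∪ Set.range zy) ∪ Set.range P') ∪ Set.range zr0))
        · have hmem : z (Sum.inr (Sum.inr r)) ∈ Algebra.adjoin ℂ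
              (((Set.range W ∪ Set.range zy) ∪ Set.range P') ∪ Set.range zr0) :=
            Algebra.subset_adjoin (Or.inl (Or.inr ⟨Sum.inr r, rfl⟩))
          exact isAlgebraic_algebraMap (⟨_, hmem⟩ : Algebra.adjoin ℂ
            (((Set.range W ∪ Set.range zy) ∪ Set.range P') ∪ Set.range zr0))
      have h6 : kr ℂ (Set.range fun j => ((η j : Kˣ) : K)) ≤
          kr ℂ ((((Set.range W ∪ Set.range zy) ∪ Set.range P') ∪ Set.range zr0) ∪
            Set.range (fun r => z (Sum.inr r))) := by
        apply kr_le_of_isAlgebraic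
        rintro _ ⟨j, rfl⟩
        have hmem := hgen ((((Set.range W ∪ Set.range zy) ∪ Set.range P') ∪ Set.range zr0) ∪
            Set.range (fun r => z (Sum.inr r)))
          (fun x hx => Algebra.subset_adjoin (Or.inl (Or.inl (Or.inl (Or.inl hx)))))
          (fun x hx => Algebra.subset_adjoin (Or.inl (Or.inl (Or.inl (Or.inr hx)))))
          (fun r => Algebra.subset_adjoin (Or.inr ⟨r, rfl⟩))
          (fun x hx => Algebra.subset_adjoin (Or.inl (Or.inr hx))) j
        exact isAlgebraic_algebraMap (⟨_, hmem⟩ : Algebra.adjoin ℂ _)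
      refine h6.trans ?_
      apply kr_le_of_isAlgebraic
      rintro a (ha' | ⟨r, rfl⟩)
      · exact isAlgebraic_algebraMap (⟨a, Algebra.subset_adjoin ha'⟩ : Algebra.adjoin ℂ
            (((Set.range W ∪ Set.range zy) ∪ Set.range P') ∪ Set.range zr0))
      · exact halg r
    have hq : 1 ≤ q := by
      have := j₀.2
      omega
    have h8 : c * (q - 1) + 2 + c = c * q + 2 := by
      obtain ⟨q', rfl⟩ : ∃ q', q = q' + 1 := ⟨q - 1, by omega⟩
      rw [Nat.add_sub_cancel]
      ring
    have h4 : (dm Y : ℕ∞) ≤ (((dm T₀ + Fintype.card β : ℕ) + Fintype.card (ι ⊕ (α ⊕ β))) +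
        (c * (q - 1) + 2 : ℕ)) + c := by
      rw [← h1]
      refine h3.trans ((kr_union_le _ _).trans ?_)
      gcongr
      · refine (kr_union_le _ _).trans ?_
        gcongr
        · refine (kr_union_le _ _).trans ?_
          gcongr
          · exact_mod_cast hWT
          · exact (kr_le_encard _).trans (encard_range_le _)
        · refine (kr_le_encard _).trans ((encard_range_le _).trans ?_)
          have h7 : Fintype.card {j : Fin q // j ≠ j₀} = q - 1 := by
            simp [Fintype.card_subtype_compl]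
          rw [Fintype.card_sum, Fintype.card_prod, Fintype.card_fin, Fintype.card_fin, h7]
      · refine (kr_le_encard _).trans ((encard_range_le _).trans ?_)
        rw [Fintype.card_fin]
    have h5 : dm Y ≤ (((dm T₀ + Fintype.card β) + Fintype.card (ι ⊕ (α ⊕ β))) +
        (c * (q - 1) + 2)) + c := by
      exact_mod_cast h4
    omega

end Upper

end Pool.Agent.Helper10
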